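import Pool.Agent.MP_9cb8e5_pr.H67.Uniq

/-! Entire functions omitting rays: growth bounds and classification. -/

open Complex Filter Topology Set Metric Asymptotics

namespace Pool.Agent.MP_9cb8e5_pr.H67

theorem omit_bound {S : ℂ → ℂ} (hS : Differentiable ℂ S) (h0 : S 0 = 0) {A R : ℝ} (hA : 0 < A)
    (hR : 0 < R) (h : ∀ z, ‖z‖ < R → ∀ x : ℝ, A ≤ x → S z ≠ x) {z : ℂ} (hz : ‖z‖ ≤ 2 / 3 * R) :
    ‖S z‖ ≤ 50 * A := by
  have hd : DifferentiableOn ℂ (fun z => -(1 - S z / A).sqrt) (ball 0 R) := fun z hz =>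
    ((differentiableAt_sqrt (mem_slit hA (h z (by simpa using hz)))).comp z
      (by fun_prop : DifferentiableAt ℂ (fun z => 1 - S z / A) z)).neg.differentiableWithinAt
  have h1 := borelCaratheodory (M := 1 / 2) (by norm_num) hd (fun z _ => by
    simp only [mem_ofPred_eq, neg_re, re_sqrt]
    linarith [Real.sqrt_nonneg ((‖1 - S z / A‖ + (1 - S z / A).re) / 2)]) hR
    (z := z) (by simp only [mem_ball, dist_zero_right]; linarith)
  have h2 : ‖(1 : ℂ).sqrt‖ = 1 := by
    have := norm_sqrt_sq 1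
    rw [norm_one] at this
    nlinarith [norm_nonneg (1 : ℂ).sqrt]
  simp only [h0, zero_div, sub_zero, norm_neg, h2] at h1
  have h3 : 0 < R - ‖z‖ := by linarith
  have h4 : ‖(1 - S z / A).sqrt‖ ≤ 7 := by
    refine h1.trans ?_
    rw [← add_div, div_le_iff₀ h3]; linarith
  have h5 : ‖1 - S z / A‖ ≤ 49 := by
    rw [← norm_sqrt_sq]; nlinarith [norm_nonneg (1 - S z / A).sqrt]
  have h6 : ‖S z / A‖ ≤ 50 := by
    have := norm_sub_le 1 (1 - S z / A)
    rw [sub_sub_cancel, norm_one] at this; linarith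
  rwa [norm_div, norm_real, Real.norm_of_nonneg hA.le, div_le_iff₀ hA] at h6

theorem poly_liouville (n : ℕ) : ∀ f : ℂ → ℂ, Differentiable ℂ f →
    Tendsto (fun z => f z / z ^ n) (cocompact ℂ) (𝓝 0) →
    ∃ c : ℕ → ℂ, ∀ z, f z = ∑ k ∈ Finset.range n, c k * z ^ k := by
  induction n with
  | zero =>
    intro f hf h
    exact ⟨0, fun z => by simpa using hf.apply_eq_of_tendsto_cocompact z (by simpa using h)⟩
  | succ n ih =>
    intro f hf h
    have hd : Differentiable ℂ (dslope f 0) :=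
      differentiableOn_univ.1 ((differentiableOn_dslope univ_mem).2 hf.differentiableOn)
    have h1 : Tendsto (fun z : ℂ => f 0 * (z⁻¹) ^ (n + 1)) (cocompact ℂ) (𝓝 0) := by
      have : Tendsto (fun z : ℂ => z⁻¹) (cocompact ℂ) (𝓝 0) := by
        rw [← cobounded_eq_cocompact]; exact tendsto_inv₀_cobounded
      simpa using (this.pow (n + 1)).const_mul (f 0)
    obtain ⟨c, hc⟩ := ih _ hd (by
      have h2 := h.sub h1
      rw [sub_zero] at h2
      refine h2.congr' ?_
      filter_upwards [(isCompact_singleton (x := (0 : ℂ))).compl_mem_cocompact] with z hz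
      have hz' : z ≠ 0 := hz
      rw [dslope_of_ne _ hz', slope_def_field, inv_pow, sub_zero]; field_simp; ring)
    refine ⟨fun k => Nat.casesOn k (f 0) c, fun z => ?_⟩
    have := sub_smul_dslope f 0 z
    rw [hc, sub_zero, smul_eq_mul, Finset.mul_sum] at this
    rw [Finset.sum_range_succ']
    simp only [pow_zero, mul_one, pow_succ', Nat.rec_zero]
    rw [← sub_eq_iff_eq_add, ← this]
    exact Finset.sum_congr rfl fun k _ => by ring

theorem class_sq {S : ℂ → ℂ} (hS : Differentiable ℂ S) (h0 : S 0 = 0) (he : ∀ z, S (-z) = S z)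
    {c : ℝ} (hc : 0 ≤ c) (h : ∀ z (x : ℝ), S z = x → x ≤ c * z.re ^ 2) :
    ∃ a : ℂ, ∀ z, S z = a * z ^ 2 := by
  have hb : ∀ z, 1 ≤ ‖z‖ → ‖S z‖ ≤ 50 * (4 * c + 1) * ‖z‖ ^ 2 := fun z hz => by
    have := omit_bound hS h0 (A := (4 * c + 1) * ‖z‖ ^ 2) (R := 2 * ‖z‖) (by positivity)
      (by positivity) (fun w hw x hx hwx => by
        have h1 := h w x hwx
        have h2 : w.re ^ 2 ≤ (2 * ‖z‖) ^ 2 := by
          rw [← sq_abs]; gcongr; exact (abs_re_le_norm w).trans hw.le
        nlinarith) (z := z) (by linarith)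
    linarith
  obtain ⟨a, ha⟩ := poly_liouville 3 S hS (by
    have h1 : Tendsto (fun z : ℂ => ‖z‖) (cocompact ℂ) atTop := tendsto_norm_cocompact_atTop
    refine squeeze_zero_norm' (a := fun z => 50 * (4 * c + 1) * ‖z‖⁻¹) ?_
      (by simpa using h1.inv_tendsto_atTop.const_mul (50 * (4 * c + 1)))
    filter_upwards [h1.eventually_ge_atTop 1] with z hz
    rw [norm_div, norm_pow, div_le_iff₀ (by positivity)]
    refine (hb z hz).trans (le_of_eq ?_)
    field_simp)
  simp only [Finset.sum_range_succ, Finset.sum_range_zero] at ha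
  have e0 := ha 0
  have e1 := he 1
  rw [h0] at e0
  rw [ha, ha] at e1
  refine ⟨a 2, fun z => ?_⟩
  rw [ha]
  linear_combination -e0 - z / 2 * e1

theorem class_per {S : ℂ → ℂ} (hS : Differentiable ℂ S) (h0 : S 0 = 0) (he : ∀ z, S (-z) = S z)
    (hp : ∀ z, S (z + 2 * Real.pi * I) = S z) {c : ℝ} (hc : 0 < c)
    (h : ∀ z (x : ℝ), S z = x → x < c * Real.exp |z.re|) :
    ∃ a : ℂ, ∀ z, S z = a * (cosh z - 1) := by
  have hb : ∀ z, ‖S z‖ ≤ 50 * (c * Real.exp (3 / 2 * ‖z‖ + 1)) := fun z =>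
    omit_bound hS h0 (R := 3 / 2 * ‖z‖ + 1) (by positivity) (by positivity)
      (fun w hw x hx hwx => by
        have h1 := h w x hwx
        have h2 : c * Real.exp |w.re| ≤ c * Real.exp (3 / 2 * ‖z‖ + 1) := by
          gcongr; exact (abs_re_le_norm w).trans hw.le
        linarith) (by linarith)
  set C : ℝ := 50 * c * Real.exp (3 / 2 * Real.pi + 1) with hC
  have hb' : ∀ q : ℂ, ‖S (log q)‖ ≤ C * Real.exp (3 / 2 * |Real.log ‖q‖|) := fun q => by
    refine (hb _).trans ?_
    have h1 := norm_le_abs_re_add_abs_im (log q)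
    rw [log_re, log_im] at h1
    have h2 := abs_arg_le_pi q
    rw [hC, mul_assoc, mul_assoc, ← Real.exp_add]
    have : 3 / 2 * ‖log q‖ + 1 ≤ 3 / 2 * Real.pi + 1 + 3 / 2 * |Real.log ‖q‖| := by linarith
    gcongr
  clear_value C
  have hpi : (2 * Real.pi : ℝ) ≠ 0 := by positivity
  have hper : Function.Periodic (fun τ => S (I * τ)) ((2 * Real.pi : ℝ) : ℂ) := fun τ => by
    simp only
    rw [← hp (I * τ)]; congr 1; push_cast; ring
  have hinv : ∀ q, I * Function.Periodic.invQParam (2 * Real.pi) q = log q := fun q => by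
    have : (Real.pi : ℂ) ≠ 0 := by exact_mod_cast Real.pi_ne_zero
    simp only [Function.Periodic.invQParam]; push_cast; field_simp
  have hg : ∀ q : ℂ, q ≠ 0 → DifferentiableAt ℂ (fun q => S (log q)) q := fun q hq => by
    have h1 := Function.Periodic.differentiableAt_cuspFunction hpi hper
      (z := Function.Periodic.invQParam (2 * Real.pi) q) (by fun_prop)
    rw [Function.Periodic.qParam_right_inv hpi hq] at h1
    refine h1.congr_of_eventuallyEq ?_
    filter_upwards [isOpen_ne.mem_nhds hq] with w hw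
    rw [Function.Periodic.cuspFunction_eq_of_nonzero _ _ hw, hinv]
  have hlim : ∀ l : Filter ℂ, Tendsto (fun q : ℂ => |Real.log ‖q‖|) l atTop →
      Tendsto (fun q : ℂ => C * Real.exp (-(|Real.log ‖q‖| / 2))) l (𝓝 0) := fun l hl => by
    simpa using (Real.tendsto_exp_neg_atTop_nhds_zero.comp (hl.atTop_div_const two_pos)).const_mul C
  have hG : Differentiable ℂ fun q => q ^ 2 * S (log q) := by
    rw [← differentiableOn_univ,
      ← differentiableOn_compl_singleton_and_continuousAt_iff (c := 0) univ_mem]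
    refine ⟨fun q hq => ((differentiableAt_pow 2).mul (hg q hq.2)).differentiableWithinAt, ?_⟩
    rw [← continuousWithinAt_compl_self, ContinuousWithinAt]
    simp only [ne_eq, OfNat.ofNat_ne_zero, not_false_eq_true, zero_pow, zero_mul]
    refine squeeze_zero_norm' ?_ (hlim _ (tendsto_abs_atBot_atTop.comp
      (Real.tendsto_log_nhdsGT_zero.comp tendsto_norm_nhdsNE_zero)))
    have : ∀ᶠ q : ℂ in 𝓝[≠] 0, ‖q‖ ≤ 1 :=
      nhdsWithin_le_nhds (mem_of_superset (closedBall_mem_nhds (0 : ℂ) one_pos)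
        fun x hx => by simpa using hx)
    filter_upwards [this, eventually_mem_nhdsWithin] with q h1 hq
    have hq' : 0 < ‖q‖ := norm_pos_iff.2 hq
    have h2 := hb' q
    rw [abs_of_nonpos (Real.log_nonpos hq'.le h1)] at h2 ⊢
    rw [norm_mul, norm_pow]
    refine (mul_le_mul_of_nonneg_left h2 (by positivity)).trans (le_of_eq ?_)
    conv_lhs => rw [← Real.exp_log hq', ← Real.exp_nat_mul, Real.log_exp]
    rw [mul_left_comm, ← Real.exp_add]; congr 2; push_cast; ring
  obtain ⟨a, ha⟩ := poly_liouville 4 _ hG (by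
    have h1 : Tendsto (fun z : ℂ => ‖z‖) (cocompact ℂ) atTop := tendsto_norm_cocompact_atTop
    refine squeeze_zero_norm' ?_ (hlim _ (tendsto_abs_atTop_atTop.comp
      (Real.tendsto_log_atTop.comp h1)))
    filter_upwards [h1.eventually_ge_atTop 1] with q hq
    have hq' : 0 < ‖q‖ := by linarith
    have h2 := hb' q
    rw [abs_of_nonneg (Real.log_nonneg hq)] at h2 ⊢
    rw [norm_div, norm_mul, norm_pow, norm_pow, div_le_iff₀ (by positivity)]
    refine (mul_le_mul_of_nonneg_left h2 (by positivity)).trans (le_of_eq ?_)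
    generalize hL : Real.log ‖q‖ = L
    rw [← Real.exp_log hq', hL, ← Real.exp_nat_mul, ← Real.exp_nat_mul, mul_left_comm, mul_assoc,
      ← Real.exp_add, ← Real.exp_add]; congr 2; push_cast; ring)
  simp only [Finset.sum_range_succ, Finset.sum_range_zero] at ha
  have e0 := ha 0
  have hS' : ∀ z, S z = a 1 * exp (-z) + a 2 + a 3 * exp z := fun z => by
    have h1 : S (log (exp z)) = S z := by
      obtain ⟨n, hn⟩ := exp_eq_exp_iff_exists_int.1 (exp_log (exp_ne_zero z))
      rw [hn]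
      exact Function.Periodic.int_mul (f := S) hp n z
    have h2 := ha (exp z)
    have h3 := exp_ne_zero z
    rw [h1] at h2
    have h4 : exp (-z) * exp z = 1 := by rw [← exp_add]; simp
    apply mul_left_cancel₀ (pow_ne_zero 2 h3)
    linear_combination h2 - e0 - a 1 * exp z * h4
  have e1 := he (Real.pi / 2 * I)
  have e2 := hS' 0
  rw [hS', hS', neg_neg, exp_neg, exp_pi_div_two_mul_I, inv_I] at e1
  rw [h0] at e2
  simp only [neg_zero, exp_zero] at e2
  have e3 : a 1 = a 3 := by
    apply mul_left_cancel₀ I_ne_zero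
    linear_combination e1 / 2
  refine ⟨2 * a 1, fun z => ?_⟩
  rw [hS']
  linear_combination -a 1 * two_cosh z - e2 + (1 - exp z) * e3

end Pool.Agent.MP_9cb8e5_pr.H67
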