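import Pool.Agent.MP_9cb8e5_pr.H67.Moments
import Pool.Agent.MP_9cb8e5_pr.H67.Growth

/-! Rigidity of the decomposition for the two extremal exponents. -/

open Filter Topology Set MeasureTheory ProbabilityTheory Complex

namespace Pool.Agent.MP_9cb8e5_pr.H67

variable {μ : Measure ℝ} {ρ : Fin 2 → Measure ℝ} {η : Fin 2 → ℝ → ℝ} {Ψ : ℂ → ℂ} {P : ℝ → ℝ}

theorem ent_eq_of_real {f g : ℂ → ℂ} (hf : Differentiable ℂ f) (hg : Differentiable ℂ g)
    (h : ∀ᶠ y : ℝ in 𝓝 0, f y = g y) : f = g := by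
  refine AnalyticOnNhd.eq_of_frequently_eq (z₀ := 0) (fun z _ => hf.analyticAt z)
    (fun z _ => hg.analyticAt z) ?_
  have h1 : Tendsto (fun ξ : ℝ => (ξ : ℂ)) (𝓝[≠] 0) (𝓝[≠] 0) :=
    tendsto_nhdsWithin_iff.2 ⟨(continuous_ofReal.tendsto 0).mono_left nhdsWithin_le_nhds,
      eventually_mem_nhdsWithin.mono fun x hx => by simpa using hx⟩
  exact h1.frequently (h.filter_mono nhdsWithin_le_nhds).frequently

structure Glob (μ : Measure ℝ) (ρ : Fin 2 → Measure ℝ) (Ψ : ℂ → ℂ) (P : ℝ → ℝ) (S : ℂ → ℂ) :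
    Prop where
  diff : Differentiable ℂ S
  zero : S 0 = 0
  even : ∀ z, S (-z) = S z
  miss : ∀ z (x : ℝ), S z = x → x ≤ P z.re
  eqn : ∀ z, complexMGF id μ (S z) = complexMGF id (ρ 0) z ∧
    complexMGF id μ (Ψ z - S z) = complexMGF id (ρ 1) z
  real : ∀ᶠ y : ℝ in 𝓝 0, ∃ a : ℝ, S y = a ∧ 0 ≤ a ∧ a ≤ P y

theorem Dec.exS (H : Dec μ ρ η Ψ P) (hF : ∃ x, deriv (complexMGF id (ρ 0)) x ≠ 0) :
    ∃ S, Glob μ ρ Ψ P S := by
  obtain ⟨σ, h0, hσ, -, hre⟩ := H.stepB
  obtain ⟨S, hS, hSσ, hE⟩ := (H.hyp hF).entire hσ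
  have hsym := H.sym
  have h1 : ∀ᶠ y : ℝ in 𝓝 0, S y = mi μ (mgf id (ρ 0) y) := by
    filter_upwards [hre, (continuous_ofReal.tendsto 0).eventually hSσ] with y a b
    rw [b, a.2.1]
  refine ⟨S, hS, by rw [hSσ.eq_of_nhds, h0], fun z => ?_, fun z x hx => ?_, hE, ?_⟩
  · refine congrFun (ent_eq_of_real (f := fun z => S (-z)) (by fun_prop) hS ?_) z
    have h2 : Tendsto (fun y : ℝ => -y) (𝓝 0) (𝓝 0) := by simpa using continuous_neg.tendsto (0 : ℝ)
    filter_upwards [h1, h2.eventually h1] with y a b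
    have := cmgf_even (ν := ρ 0) y
    rw [← ofReal_neg, complexMGF_ofReal, complexMGF_ofReal, ofReal_inj] at this
    rw [← ofReal_neg, a, b, this]
  · obtain ⟨a, b, -, hb, hab, ha, -⟩ := H.real z.re
    have h2 := norm_complexMGF_le_mgf (X := id) (μ := ρ 0) (z := z)
    rw [← (hE z).1, hx, complexMGF_ofReal, norm_real, Real.norm_eq_abs, ha] at h2
    have := H.mono.le_iff_le.1 ((le_abs_self _).trans h2)
    linarith
  · filter_upwards [h1] with y hy
    obtain ⟨a, b, ha0, hb, hab, ha, -⟩ := H.real y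
    exact ⟨a, by rw [hy, ha, H.mi_m], ha0, by linarith⟩

theorem Dec.per (H : Dec μ ρ η Ψ P) (hF : ∃ x, deriv (complexMGF id (ρ 0)) x ≠ 0) {S : ℂ → ℂ}
    (G : Glob μ ρ Ψ P S) {T : ℝ} (hT : ∀ z, Ψ (z + T * I) = Ψ z) (z : ℂ) : S (z + T * I) = S z := by
  have hpr := H.pr
  have h0 : η 0 T + η 1 T = 0 := by
    have := hT 0
    rw [zero_add, H.sum, H.Ψ0, neg_eq_zero] at this
    exact_mod_cast this
  have h1 : ∀ j, η j T = 0 := fun j => by
    have := H.ηnn 0 T
    have := H.ηnn 1 T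
    fin_cases j <;> simp <;> linarith
  have h2 : ∀ j, Per (complexMGF id (ρ j)) (T * I) := fun j =>
    per_of_eq (H.exF j 0) (by simp [complexMGF_id_mul_I, H.cf, h1, H.zero])
  have HH := H.hyp hF
  have hS := G.diff
  have h3 : ∀ y : ℝ, Per (complexMGF id μ) (S (y + T * I) - S y) := fun y =>
    HH.uniq y _ _ (by rw [(G.eqn _).1, h2]) (by rw [← hT, (G.eqn _).2, h2]) (G.eqn _).1 (G.eqn _).2
  have h4 : (fun z => S (z + T * I) - S z) = fun _ => S (T * I) - S 0 := by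
    refine ent_eq_of_real (by fun_prop) (by fun_prop) ?_
    have hc : Continuous fun y : ℝ => S (y + T * I) - S y + -(S (T * I) - S 0) := by
      have := hS.continuous; fun_prop
    have h5 := hc.tendsto 0
    simp only [ofReal_zero, zero_add, add_neg_cancel] at h5
    filter_upwards [h5.eventually HH.per_small] with y hy
    have := hy ((h3 y).add (by simpa using (h3 0).neg))
    linear_combination this
  have h5 := congrFun h4 (-(T * I / 2))
  have h6 := congrFun h4 z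
  simp only [G.even] at h5 h6
  rw [show -(T * I / 2) + T * I = (T * I / 2 : ℂ) by ring] at h5
  linear_combination h6 - h5

theorem Dec.concl (H : Dec μ ρ η Ψ P) (hP : ∀ y, y ≠ 0 → 0 < P y)
    (h : (∃ x, deriv (complexMGF id (ρ 0)) x ≠ 0) → ∀ S, Glob μ ρ Ψ P S → ∃ a, ∀ z, S z = a * Ψ z) :
    ∃ a ∈ Icc (0 : ℝ) 1, ∀ ξ, η 0 ξ = a * (η 0 ξ + η 1 ξ) := by
  have key : ∀ ξ x : ℝ, complexMGF id (ρ 0) (ξ * I) = complexMGF id μ (-x : ℝ) → η 0 ξ = x := by
    intro ξ x hx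
    rw [complexMGF_id_mul_I, H.cf, complexMGF_ofReal, ofReal_inj] at hx
    exact neg_injective (H.mono.injective hx)
  by_cases hF : ∃ x, deriv (complexMGF id (ρ 0)) x ≠ 0
  · obtain ⟨S, G⟩ := H.exS hF
    obtain ⟨a, ha⟩ := h hF S G
    obtain ⟨y, ⟨b, hb, hb0, hb1⟩, hy⟩ := ((G.real.filter_mono nhdsWithin_le_nhds).and
      (eventually_mem_nhdsWithin (s := {0}ᶜ))).exists
    have hy' := hP y hy
    have hab : a = (b / P y : ℝ) := by
      rw [ha, H.hP] at hb
      have : (P y : ℂ) ≠ 0 := by exact_mod_cast hy'.ne'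
      push_cast; rw [← hb]; field_simp
    refine ⟨b / P y, ⟨by positivity, (div_le_one hy').2 hb1⟩, fun ξ => key _ _ ?_⟩
    rw [← (G.eqn _).1, ha, H.sum, hab]; congr 1; push_cast; ring
  · push Not at hF
    refine ⟨0, by simp, fun ξ => key _ _ ?_⟩
    have := H.pr 0
    have := H.prob
    rw [is_const_of_deriv_eq_zero (diff_of_all (H.exF 0)) hF _ 0]
    simp [complexMGF]

theorem rigid_sq (H : Lap μ) (pr : ∀ j, IsProbabilityMeasure (ρ j))
    (cf : ∀ j ξ, charFun (ρ j) ξ = mgf id μ (-η j ξ)) (nn : ∀ j ξ, 0 ≤ η j ξ) {c : ℝ} (hc : 0 < c)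
    (hs : ∀ ξ, η 0 ξ + η 1 ξ = c * ξ ^ 2) :
    ∃ a ∈ Icc (0 : ℝ) 1, ∀ ξ, η 0 ξ = a * (η 0 ξ + η 1 ξ) := by
  have D : Dec μ ρ η (fun z => c * z ^ 2) fun y => c * y ^ 2 :=
    { toLap := H, pr := pr, cf := cf, ηnn := nn
      sum := fun ξ => by rw [hs, mul_pow, I_sq]; push_cast; ring
      hΨ := by fun_prop
      Ψ0 := by simp
      even := fun z => by simp
      hP := fun y => by simp
      td := by
        obtain ⟨θ, R, C, a1, a2, a3, a4, a5⟩ :=
          td_of_analytic (Θ := fun h => c * h) (by fun_prop) (by simp)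
        refine ⟨θ, R, C, a1, a2, a3, a4, fun N => (a5 N).congr' ?_ EventuallyEq.rfl⟩
        filter_upwards [eventually_mem_nhdsWithin] with y (hy : y < 0)
        rw [hs, Real.sq_sqrt (by linarith)]; ring }
  refine D.concl (fun y hy => by positivity) fun _ S G => ?_
  obtain ⟨a, ha⟩ := class_sq G.diff G.zero G.even hc.le G.miss
  have : (c : ℂ) ≠ 0 := by exact_mod_cast hc.ne'
  exact ⟨a / c, fun z => by rw [ha]; field_simp⟩

theorem rigid_cos (H : Lap μ) (pr : ∀ j, IsProbabilityMeasure (ρ j))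
    (cf : ∀ j ξ, charFun (ρ j) ξ = mgf id μ (-η j ξ)) (nn : ∀ j ξ, 0 ≤ η j ξ) {c t : ℝ}
    (hc : 0 < c) (ht : 0 < t) (hs : ∀ ξ, η 0 ξ + η 1 ξ = c * (1 - Real.cos (t * ξ))) :
    ∃ a ∈ Icc (0 : ℝ) 1, ∀ ξ, η 0 ξ = a * (η 0 ξ + η 1 ξ) := by
  have D : Dec μ ρ η (fun z => c * (cosh (t * z) - 1)) fun y => c * (Real.cosh (t * y) - 1) :=
    { toLap := H, pr := pr, cf := cf, ηnn := nn
      sum := fun ξ => by rw [hs, ← mul_assoc, cosh_mul_I]; push_cast; ring
      hΨ := by fun_prop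
      Ψ0 := by simp
      even := fun z => by simp
      hP := fun y => by simp
      td := by
        have := kerCos.td c t (Real.hasSum_cosh t).summable
        refine (congrArg TD (funext fun h => ?_)).mp this
        rw [hs, mul_comm t]; simp; ring }
  have htc : (t : ℂ) ≠ 0 := by exact_mod_cast ht.ne'
  refine D.concl (fun y hy => mul_pos hc (sub_pos.2 (Real.one_lt_cosh.2 (by positivity))))
    fun hF S G => ?_
  have hp := D.per hF G (T := 2 * Real.pi / t) fun z => by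
    have : (t : ℂ) * (z + (2 * Real.pi / t : ℝ) * I) = t * z + (2 * Real.pi : ℝ) * I := by
      push_cast; field_simp
    rw [this, cosh_add, cosh_mul_I, sinh_mul_I, ← ofReal_cos, ← ofReal_sin]; simp
  have hS := G.diff
  obtain ⟨a, ha⟩ := class_per (S := fun z => S (z / t)) (by fun_prop) (by simp [G.zero])
    (fun z => by simp only [neg_div, G.even])
    (fun z => by
      rw [← hp (z / t)]; congr 1; push_cast; field_simp) hc
    (fun z x hx => by
      have h1 := G.miss _ x hx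
      simp only [div_ofReal_re] at h1
      rw [mul_div_cancel₀ _ ht.ne', ← Real.cosh_abs, Real.cosh_eq] at h1
      have : Real.exp (-|z.re|) ≤ Real.exp |z.re| :=
        Real.exp_le_exp.2 (by linarith [abs_nonneg z.re])
      nlinarith)
  have : (c : ℂ) ≠ 0 := by exact_mod_cast hc.ne'
  refine ⟨a / c, fun z => ?_⟩
  have := ha (t * z)
  simp only [mul_div_cancel_left₀ _ htc] at this
  rw [this]; field_simp

end Pool.Agent.MP_9cb8e5_pr.H67
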