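import Pool.Agent.MP_9cb8e5_pr.H67.Cone
import Pool.Agent.MP_9cb8e5_pr.H67.Rigid

/-! Property (R) for Laplace transforms with an entire extension. -/

open MeasureTheory Set Filter Topology ProbabilityTheory

namespace Pool.Agent.MP_9cb8e5_pr.H67

theorem isCF_iff {f : ℝ → ℝ} :
    IsCF f ↔ ∃ ρ : Measure ℝ, IsProbabilityMeasure ρ ∧ ∀ ξ : ℝ, charFun ρ ξ = f ξ := by
  refine exists_congr fun ρ => and_congr_right fun _ => forall_congr' fun ξ => ?_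
  rw [charFun_apply_real, eq_comm]
  simp only [mul_comm _ Complex.I, mul_assoc]

theorem ne_dirac {μ : Measure ℝ} [IsProbabilityMeasure μ] (h : μ ≠ Measure.dirac 0) :
    ¬ ∀ᵐ w ∂μ, w = 0 := fun h0 => h (by
  have : μ = μ.map fun _ => (0 : ℝ) := by
    conv_lhs => rw [← Measure.map_id (μ := μ)]
    exact Measure.map_congr h0
  rw [this]; simp)

theorem propR_of_lap {μ : Measure ℝ} (H : Lap μ) {L : ℝ → ℝ}
    (hL : ∀ s, 0 ≤ s → L s = mgf id μ (-s)) : PropR L := by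
  intro f₁ f₂ ψ h1 h2 r1 r2 hψ hΦ
  obtain ⟨ρ₁, p1, c1⟩ := isCF_iff.1 h1
  obtain ⟨ρ₂, p2, c2⟩ := isCF_iff.1 h2
  set η : Fin 2 → ℝ → ℝ := ![fun ξ => Function.invFunOn L (Ici 0) (f₁ ξ),
    fun ξ => Function.invFunOn L (Ici 0) (f₂ ξ)] with hη
  have n1 : ∀ ξ, 0 ≤ η 0 ξ := fun ξ => Function.invFunOn_mem (r1 ξ)
  have n2 : ∀ ξ, 0 ≤ η 1 ξ := fun ξ => Function.invFunOn_mem (r2 ξ)
  have e1 : ∀ ξ, L (η 0 ξ) = f₁ ξ := fun ξ => Function.invFunOn_eq (r1 ξ)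
  have e2 : ∀ ξ, L (η 1 ξ) = f₂ ξ := fun ξ => Function.invFunOn_eq (r2 ξ)
  have hs : ∀ ξ, η 0 ξ + η 1 ξ = ψ ξ := fun ξ => by
    have : L (η 0 ξ + η 1 ξ) = L (ψ ξ) := hΦ ξ
    rw [hL _ (add_nonneg (n1 ξ) (n2 ξ)), hL _ (hψ.1.nonneg ξ)] at this
    exact neg_injective (H.mono.injective this)
  have pr : ∀ j, IsProbabilityMeasure (![ρ₁, ρ₂] j) := Fin.forall_fin_two.2 ⟨p1, p2⟩
  have cf : ∀ j ξ, charFun (![ρ₁, ρ₂] j) ξ = mgf id μ (-η j ξ) := Fin.forall_fin_two.2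
    ⟨fun ξ => by rw [← hL _ (n1 ξ), e1]; exact c1 ξ, fun ξ => by rw [← hL _ (n2 ξ), e2]; exact c2 ξ⟩
  have nn : ∀ j ξ, 0 ≤ η j ξ := Fin.forall_fin_two.2 ⟨n1, n2⟩
  obtain ⟨a, ha, h⟩ : ∃ a ∈ Icc (0 : ℝ) 1, ∀ ξ, η 0 ξ = a * (η 0 ξ + η 1 ξ) := by
    rcases hψ.cases with ⟨c, hc, h⟩ | ⟨c, t, hc, ht, h⟩
    · exact rigid_sq H pr cf nn hc fun ξ => by rw [hs, h]
    · exact rigid_cos H pr cf nn hc ht fun ξ => by rw [hs, h]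
  refine ⟨fun ξ => a * ψ ξ, fun ξ => (1 - a) * ψ ξ, hψ.1.smul ha.1, hψ.1.smul (sub_nonneg.2 ha.2),
    funext fun ξ => ?_, funext fun ξ => ?_⟩
  · rw [← e1, h, hs]; rfl
  · rw [← e2, Function.comp_apply]; congr 1
    have := h ξ
    rw [hs] at this
    linarith [hs ξ]

end Pool.Agent.MP_9cb8e5_pr.H67
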