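import Pool.Agent.MP_9cb8e5_pr.H67.Shift
import Pool.Agent.MP_9cb8e5_pr.H67.MainA

/-! Failure of (R) when the weighted tail of the representing measure is at least exponential. -/

open Complex Filter Topology Set MeasureTheory
open scoped FourierTransform

namespace Pool.Agent.MP_9cb8e5_pr.H67

noncomputable def eta (ε ξ : ℝ) : ℝ := ξ ^ 2 - ε * (1 - Real.cos ξ)

theorem QQ_abs (ε w x : ℝ) : QQ ε w |x| = QQ ε w x := by
  rcases abs_choice x with h | h <;> rw [h]
  exact QQ_neg ε w x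

theorem meas_QQ (ε : ℝ) : StronglyMeasurable fun p : ℝ × ℝ => QQ ε p.1 p.2 := by
  have : Continuous fun q : (ℝ × ℝ) × ℝ => exp (ex ε q.1.1 q.1.2 q.2) := by unfold ex; fun_prop
  exact this.stronglyMeasurable.integral_prod_right'

theorem int_exp_abs : Integrable fun x : ℝ => Real.exp (-|x|) :=
  Integrable.of_integral_ne_zero (by
    rw [integral_comp_abs (f := fun x => Real.exp (-x)), integral_exp_neg_Ioi_zero]; norm_num)

theorem int_QQ (ε : ℝ) {w : ℝ} (hw : 0 < w) : Integrable (QQ ε w) := by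
  refine (int_exp_abs.const_mul (Real.exp (w + w * |ε| * (1 + Real.cosh (-1))) *
    √(Real.pi / w))).mono' ((meas_QQ ε).comp_measurable
      (measurable_prodMk_left (x := w))).aestronglyMeasurable (Eventually.of_forall fun x => ?_)
  rw [← QQ_abs]
  refine (norm_QQ ε hw |x| (-1)).trans (le_of_eq ?_)
  rw [mul_right_comm _ _ (Real.exp (-|x|)), ← Real.exp_add]; congr 2; ring

theorem QQ_inv (ε : ℝ) {w : ℝ} (hw : 0 < w) (ξ : ℝ) :
    ∫ x : ℝ, QQ ε w x * exp (ξ * x * I) = 2 * Real.pi * (Real.exp (-eta ε ξ * w) : ℝ) := by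
  set g : ℝ → ℂ := fun u => exp (ex ε w 0 u) with hg
  have h1 : Integrable g := by simpa using int_ex ε hw 0 0
  have h2 : 𝓕 g = fun v => QQ ε w (2 * Real.pi * v) := by
    ext v
    rw [Real.fourier_real_eq_integral_exp_smul, QQ]
    congr 1; ext u
    rw [smul_eq_mul, hg, ← exp_add]; congr 1
    simp only [ex]; push_cast; ring
  have hpi : (2 * Real.pi : ℝ) ≠ 0 := by positivity
  have h3 := congrFun (Continuous.fourierInv_fourier_eq (f := g) (by unfold g ex; fun_prop) h1
    (by rw [h2]; exact (int_QQ ε hw).comp_mul_left' hpi)) ξ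
  have h4 := Measure.integral_comp_mul_left (fun x => QQ ε w x * exp (ξ * x * I)) (2 * Real.pi)
  rw [Real.fourierInv_eq', h2] at h3
  have h5 : ∀ v : ℝ, exp ((2 * Real.pi * inner ℝ v ξ : ℝ) * I) • QQ ε w (2 * Real.pi * v) =
      QQ ε w (2 * Real.pi * v) * exp (ξ * (2 * Real.pi * v : ℝ) * I) := fun v => by
    rw [smul_eq_mul, mul_comm]; congr 2
    simp only [RCLike.inner_apply, conj_trivial]; push_cast; ring
  simp only [h5] at h3
  rw [h4, abs_of_pos (by positivity), real_smul] at h3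
  have h6 : g ξ = (Real.exp (-eta ε ξ * w) : ℝ) := by
    simp only [hg, ex, eta]; push_cast; congr 1; ring
  have : (Real.pi : ℂ) ≠ 0 := by exact_mod_cast Real.pi_ne_zero
  rw [← h6, ← h3]
  generalize ∫ y : ℝ, QQ ε w y * exp (ξ * y * I) = J
  push_cast; field_simp

theorem QQ_lower {ε Y δ w : ℝ} (hY : 1 ≤ Y) (hε : |ε| * (1 + Real.cosh (4 * Y)) ≤ δ)
    (hδ : δ ≤ 1 / 2) (hw : 0 < w) (x : ℝ) :
    -(δ * √Real.pi * Real.exp (-(Y / 2 - 1) * |x|)) ≤ (QQ ε w x).re := by
  have hδ0 : 0 ≤ δ := le_trans (by positivity) hε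
  rw [← QQ_abs]
  have hx := abs_nonneg x
  generalize |x| = x at hx
  rcases le_total x (4 * Y * w) with h | h
  · refine le_trans ?_ (QQ_pos hw hx h (by nlinarith [abs_nonneg ε]))
    exact le_trans (neg_nonpos.2 (by positivity)) (by positivity)
  have h0 : 0 ≤ (QQ 0 w x).re :=
    le_trans (by positivity) (QQ_pos (K := x / w) hw hx (by field_simp; rfl) (by simp))
  have h1 := QQ_sub ε hw x (-Y)
  have h2 := (abs_le.1 (abs_re_le_norm (QQ ε w x - QQ 0 w x))).1
  rw [sub_re] at h2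
  have h3 : w * |ε| * (1 + Real.cosh (-Y)) ≤ w * δ := by
    rw [mul_assoc]
    refine mul_le_mul_of_nonneg_left (le_trans ?_ hε) hw.le
    have := Real.cosh_le_cosh.2 (show |-Y| ≤ |4 * Y| by
      rw [abs_neg, abs_of_pos (by linarith), abs_of_pos (by linarith)]; linarith)
    gcongr
  have h4 : Real.exp (w * |ε| * (1 + Real.cosh (-Y))) - 1 ≤ w * δ * Real.exp (w * δ) := by
    have a1 := Real.exp_le_exp.2 h3
    have a2 := mul_le_mul_of_nonneg_right (Real.add_one_le_exp (-(w * δ))) (Real.exp_pos (w * δ)).le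
    rw [← Real.exp_add, neg_add_cancel, Real.exp_zero] at a2
    linarith
  have h5 : w * √(Real.pi / w) ≤ √Real.pi * Real.exp x := by
    rw [Real.sqrt_div Real.pi_pos.le, mul_div_left_comm, Real.div_sqrt]
    refine mul_le_mul_of_nonneg_left ?_ (by positivity)
    have : √w ≤ w + 1 := by rw [Real.sqrt_le_left (by positivity)]; nlinarith
    have := Real.add_one_le_exp x
    nlinarith
  have h6 : ‖QQ ε w x - QQ 0 w x‖ ≤ δ * √Real.pi * Real.exp (-(Y / 2 - 1) * x) := by
    refine h1.trans ?_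
    calc _ ≤ Real.exp (w * (-Y) ^ 2 + x * -Y) * (w * δ * Real.exp (w * δ)) * √(Real.pi / w) := by
          gcongr
      _ = δ * (Real.exp (w * (-Y) ^ 2 + x * -Y) * Real.exp (w * δ)) * (w * √(Real.pi / w)) := by
          ring
      _ ≤ δ * (Real.exp (w * (-Y) ^ 2 + x * -Y) * Real.exp (w * δ)) * (√Real.pi * Real.exp x) := by
          gcongr
      _ = δ * √Real.pi * Real.exp (w * (-Y) ^ 2 + x * -Y + w * δ + x) := by
          simp only [Real.exp_add]; ring
      _ ≤ _ := by
          gcongr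
          have : w * δ ≤ w * Y ^ 2 := mul_le_mul_of_nonneg_left (by nlinarith) hw.le
          nlinarith [mul_le_mul_of_nonneg_left h (show 0 ≤ Y by linarith)]
  linarith

theorem cf_eta {μ : Measure ℝ} [IsProbabilityMeasure μ] (nn : ∀ᵐ w ∂μ, 0 ≤ w) {C W : ℝ}
    (hC : 0 ≤ C) (hW : 0 < W) (hτ : ∀ v, W ≤ v → Real.exp (-C * v) ≤ ∫ w in Ici v, (√w)⁻¹ ∂μ) :
    ∃ ε₀, 0 < ε₀ ∧ ε₀ ≤ 1 ∧ ∀ ε, |ε| ≤ ε₀ → IsCF fun ξ => ∫ w, Real.exp (-eta ε ξ * w) ∂μ := by
  set Y : ℝ := 2 * C + 4 with hY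
  set δ : ℝ := Real.exp (-C * W) / 2 with hδ
  have hδ0 : 0 < δ := by positivity
  have hδ1 : δ ≤ 1 / 2 := by
    have := Real.exp_le_one_iff.2 (show -C * W ≤ 0 by nlinarith)
    linarith
  have hch := Real.cosh_pos (4 * Y)
  refine ⟨δ / (1 + Real.cosh (4 * Y)), by positivity, by
    rw [div_le_one (by positivity)]; linarith, fun ε hε => ?_⟩
  have hε1 : |ε| ≤ 1 := hε.trans (by rw [div_le_one (by positivity)]; linarith)
  rw [le_div_iff₀ (by positivity)] at hε
  have hlow : ∀ w, 0 < w → ∀ x, -(δ * √Real.pi * Real.exp (-(C + 1) * |x|)) ≤ (QQ ε w x).re :=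
    fun w hw x => by
      have := QQ_lower (by linarith) hε hδ1 hw x
      rwa [show Y / 2 - 1 = C + 1 by rw [hY]; ring] at this
  set ν := μ.restrict (Ioi 0) with hν
  have hpos : ∀ᵐ w ∂ν, 0 < w := ae_restrict_mem measurableSet_Ioi
  have hm : StronglyMeasurable fun p : ℝ × ℝ => (QQ ε p.1 p.2).re :=
    continuous_re.comp_stronglyMeasurable (meas_QQ ε)
  have hI : Integrable (fun p : ℝ × ℝ => (QQ ε p.1 p.2).re) (ν.prod volume) := by
    rw [integrable_prod_iff hm.aestronglyMeasurable]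
    refine ⟨hpos.mono fun w hw => (int_QQ ε hw).re, ?_⟩
    refine (integrable_const (2 * Real.pi + 2 * (δ * √Real.pi) * ∫ x, Real.exp (-|x|))).mono'
      hm.norm.integral_prod_right'.aestronglyMeasurable (hpos.mono fun w hw => ?_)
    rw [Real.norm_of_nonneg (integral_nonneg fun x => norm_nonneg _)]
    have i1 : Integrable fun x => (QQ ε w x).re := (int_QQ ε hw).re
    have i2 := int_exp_abs.const_mul (2 * (δ * √Real.pi))
    have h1 : ∫ x, (QQ ε w x).re = 2 * Real.pi := by
      have h2 := QQ_inv ε hw 0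
      have h3 := integral_re (int_QQ ε hw)
      simp only [ofReal_zero, zero_mul, exp_zero, mul_one] at h2
      simp only [RCLike.re_to_complex] at h3
      rw [h3, h2]; simp [eta]
    rw [← h1, ← integral_const_mul, ← integral_add i1 i2]
    refine integral_mono i1.norm (i1.add i2) fun x => ?_
    have h2 := hlow w hw x
    have h3 : Real.exp (-(C + 1) * |x|) ≤ Real.exp (-|x|) :=
      Real.exp_le_exp.2 (by nlinarith [abs_nonneg x])
    have h4 : δ * √Real.pi * Real.exp (-(C + 1) * |x|) ≤ δ * √Real.pi * Real.exp (-|x|) := by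
      gcongr
    have h5 : 0 ≤ δ * √Real.pi * Real.exp (-|x|) := by positivity
    simp only [Real.norm_eq_abs]
    rw [abs_le]; constructor <;> linarith
  set p : ℝ → ℝ := fun x => (∫ w, (QQ ε w x).re ∂ν) / (2 * Real.pi) with hp
  have hpi : Integrable p := hI.integral_prod_right.div_const _
  have hp0 : ∀ᵐ x, 0 ≤ p x := by
    filter_upwards [hI.prod_left_ae] with x hx
    refine div_nonneg ?_ (by positivity)
    set m := max |x| W with hm'
    have hm0 : 0 < m := lt_max_of_lt_right hW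
    have h1 := hτ m (le_max_right _ _)
    have i1 : IntegrableOn (fun w => (√w)⁻¹) (Ici m) μ :=
      Integrable.of_integral_ne_zero ((Real.exp_pos _).trans_le h1).ne'
    have e : ν.restrict (Ici m) = μ.restrict (Ici m) := by
      rw [hν, Measure.restrict_restrict measurableSet_Ici, inter_eq_left.2 (Ici_subset_Ioi.2 hm0)]
    have i2 : Integrable ((Ici m).indicator fun w => √Real.pi / 2 * Real.exp (-|x|) * (√w)⁻¹) ν :=
      (integrable_indicator_iff measurableSet_Ici).2 (by
        rw [IntegrableOn, e]; exact i1.const_mul _)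
    have h2 := integral_mono_ae (i2.sub (integrable_const
      (δ * √Real.pi * Real.exp (-(C + 1) * |x|)))) hx (hpos.mono fun w hw => by
        simp only [Pi.sub_apply]
        by_cases hwm : w ∈ Ici m
        · rw [indicator_of_mem hwm]
          have hxw : |x| ≤ w := (le_max_left _ _).trans hwm
          have a1 := QQ_pos (ε := ε) (K := 4 * Y) hw (abs_nonneg x) (by nlinarith)
            (by nlinarith [abs_nonneg ε])
          rw [QQ_abs, Real.sqrt_div Real.pi_pos.le] at a1
          have a2 : Real.exp (-|x|) ≤ Real.exp (-(|x| ^ 2 / w)) := by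
            rw [Real.exp_le_exp, neg_le_neg_iff, div_le_iff₀ hw]; nlinarith [abs_nonneg x]
          have a3 : √Real.pi / √w / 2 * Real.exp (-|x|) ≤
            √Real.pi / √w / 2 * Real.exp (-(|x| ^ 2 / w)) := by gcongr
          have a4 : 0 ≤ δ * √Real.pi * Real.exp (-(C + 1) * |x|) := by positivity
          have a5 : √Real.pi / 2 * Real.exp (-|x|) * (√w)⁻¹ =
            √Real.pi / √w / 2 * Real.exp (-|x|) := by ring
          linarith
        · rw [indicator_of_notMem hwm, zero_sub]; exact hlow w hw x)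
    refine le_trans ?_ h2
    simp only [Pi.sub_apply]
    rw [integral_sub i2 (integrable_const _), integral_indicator measurableSet_Ici, e,
      integral_const_mul, integral_const, smul_eq_mul, sub_nonneg]
    have a1 : ν.real univ ≤ 1 := by
      rw [hν, measureReal_restrict_apply_univ]; exact measureReal_le_one
    have a2 : Real.exp (-C * W) * Real.exp (-C * |x|) ≤ Real.exp (-C * m) := by
      rw [← Real.exp_add, Real.exp_le_exp]
      have : m ≤ W + |x| := max_le (by linarith) (by linarith [abs_nonneg x])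
      nlinarith
    calc _ ≤ 1 * (δ * √Real.pi * Real.exp (-(C + 1) * |x|)) := by gcongr
      _ = √Real.pi / 2 * Real.exp (-|x|) * (Real.exp (-C * W) * Real.exp (-C * |x|)) := by
          rw [hδ, show -(C + 1) * |x| = -|x| + -C * |x| by ring, Real.exp_add]; ring
      _ ≤ _ := by gcongr; exact a2.trans h1
  have hfin := isFiniteMeasure_withDensity_ofReal hpi.2
  have hcf : ∀ ξ : ℝ, charFun (μ {0} • Measure.dirac (0 : ℝ) +
      volume.withDensity fun x => ENNReal.ofReal (p x)) ξ =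
      (∫ w, Real.exp (-eta ε ξ * w) ∂μ : ℝ) := fun ξ => by
    have hb : ∀ (ρ : Measure ℝ) [IsFiniteMeasure ρ], Integrable (fun x : ℝ => exp (ξ * x * I)) ρ :=
      fun ρ _ => (integrable_const (1 : ℝ)).mono' (by fun_prop) (Eventually.of_forall fun x => by
        rw [← ofReal_mul, norm_exp_ofReal_mul_I])
    have hI2 : Integrable (Function.uncurry fun w x => QQ ε w x * exp (ξ * x * I))
        (ν.prod volume) := by
      refine hI.norm.mono' ((meas_QQ ε).aestronglyMeasurable.mul (by fun_prop))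
        (Eventually.of_forall fun q => ?_)
      simp only [Function.uncurry, norm_mul]
      rw [← ofReal_mul, norm_exp_ofReal_mul_I, mul_one, ← QQ_im, norm_real, ofReal_re]
    have h1 := integral_integral_swap hI2
    have h2 : ∫ w, ∫ x : ℝ, QQ ε w x * exp (ξ * x * I) ∂volume ∂ν =
        2 * Real.pi * (∫ w, Real.exp (-eta ε ξ * w) ∂ν : ℝ) := by
      rw [integral_congr_ae (hpos.mono fun w hw => QQ_inv ε hw ξ), integral_const_mul,
        integral_complex_ofReal]
    have h3 : ∀ x : ℝ, ∫ w, QQ ε w x * exp (ξ * x * I) ∂ν =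
        2 * Real.pi * (p x • exp (ξ * x * I)) := fun x => by
      have : (Real.pi : ℂ) ≠ 0 := by exact_mod_cast Real.pi_ne_zero
      rw [integral_mul_const, real_smul, hp]
      simp only [ofReal_div, ← integral_complex_ofReal, QQ_im]
      push_cast; field_simp
    simp only [h2, h3, integral_const_mul] at h1
    have h4 := mul_left_cancel₀ (by exact_mod_cast (by positivity : (2 * Real.pi : ℝ) ≠ 0)) h1
    have hη : 0 ≤ eta ε ξ := by
      have := Real.one_sub_sq_div_two_le_cos (x := ξ)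
      have := Real.cos_le_one ξ
      have := (abs_le.1 hε1).2
      unfold eta; nlinarith
    have i1 : Integrable (fun w => Real.exp (-eta ε ξ * w)) μ :=
      (integrable_const (1 : ℝ)).mono' (by fun_prop) (nn.mono fun w hw => by
        rw [Real.norm_of_nonneg (Real.exp_pos _).le, Real.exp_le_one_iff]; nlinarith)
    have h5 : μ.restrict (Ioi 0)ᶜ = μ {0} • Measure.dirac (0 : ℝ) := by
      rw [← Measure.restrict_singleton]
      refine Measure.restrict_congr_set (nn.mono fun w hw => ?_)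
      change (¬ 0 < w) = (w = 0)
      simp only [not_lt, eq_iff_iff]
      exact ⟨fun h => le_antisymm h hw, fun h => h.le⟩
    have : IsFiniteMeasure (μ {0} • Measure.dirac (0 : ℝ)) := h5 ▸ inferInstance
    rw [charFun_apply_real, integral_add_measure (hb _) (hb _),
      integral_withDensity_eq_integral_toReal_smul₀ hpi.1.aemeasurable.ennreal_ofReal
        (Eventually.of_forall fun x => ENNReal.ofReal_lt_top),
      integral_congr_ae (hp0.mono fun x hx => by rw [ENNReal.toReal_ofReal hx]), ← h4,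
      ← integral_add_compl measurableSet_Ioi i1, h5]
    simp [add_comm, hν]
  refine isCF_iff.2 ⟨_, ⟨?_⟩, hcf⟩
  have := hcf 0
  simp only [charFun_zero, eta, ne_eq, OfNat.ofNat_ne_zero, not_false_eq_true, zero_pow,
    Real.cos_zero, sub_self, mul_zero, neg_zero, zero_mul, Real.exp_zero, integral_const,
    probReal_univ, smul_eq_mul, mul_one, ofReal_inj] at this
  exact (ENNReal.toReal_eq_one_iff _).1 this

theorem lev_small {ν : Measure ℝ} (h : Integrable (fun t : ℝ => min 1 (t ^ 2)) ν) :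
    Tendsto (fun ξ : ℝ => (∫ t, (1 - Real.cos (t * ξ)) ∂ν) / ξ ^ 2) atTop (𝓝 0) := by
  simp only [← integral_div]
  have := tendsto_integral_filter_of_dominated_convergence (μ := ν) (l := atTop)
    (F := fun (ξ : ℝ) t => (1 - Real.cos (t * ξ)) / ξ ^ 2) (f := fun _ => 0)
    (fun t => 3 * min 1 (t ^ 2)) (Eventually.of_forall fun ξ => by fun_prop)
    ((eventually_ge_atTop 1).mono fun ξ hξ => Eventually.of_forall fun t => by
      have h1 := one_sub_cos_le t ξ
      have h2 : 0 ≤ min 1 (t ^ 2) := by positivity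
      have h3 : 1 ≤ ξ ^ 2 := by nlinarith
      rw [Real.norm_of_nonneg (div_nonneg (sub_nonneg.2 (Real.cos_le_one _)) (by positivity)),
        div_le_iff₀ (by positivity)]
      nlinarith) (h.const_mul 3) (Eventually.of_forall fun t => by
      refine squeeze_zero_norm (a := fun ξ => 2 / ξ ^ 2) (fun ξ => ?_)
        (tendsto_const_nhds.div_atTop (tendsto_pow_atTop two_ne_zero))
      rw [Real.norm_of_nonneg (div_nonneg (sub_nonneg.2 (Real.cos_le_one _)) (by positivity))]
      gcongr; linarith [Real.neg_one_le_cos (t * ξ)])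
  simpa using this

theorem indec_sq : Indec fun ξ => 2 ^ 2 * ξ ^ 2 / 2 := by
  refine ⟨inC_sq (by norm_num), fun h => by simpa using congrFun h 1, ?_⟩
  rintro ψ₁ ψ₂ ⟨σ₁, ν₁, -, -, i1, e1⟩ ⟨σ₂, ν₂, -, -, i2, e2⟩ h
  have h' : ∀ ξ, 2 ^ 2 * ξ ^ 2 / 2 = ψ₁ ξ + ψ₂ ξ := fun ξ => congrFun h ξ
  have h1 : σ₁ ^ 2 + σ₂ ^ 2 = 4 := by
    have t1 := (lev_small i1).add (lev_small i2)
    have := tendsto_nhds_unique t1 ((tendsto_const_nhds (x := 2 - (σ₁ ^ 2 + σ₂ ^ 2) / 2)).congr'
      ((eventually_gt_atTop 0).mono fun ξ hξ => by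
        have := h' ξ
        rw [e1, e2] at this
        beta_reduce
        rw [← add_div, eq_div_iff (by positivity)]; linarith))
    linarith
  have h2 : ∀ ξ, ψ₁ ξ = σ₁ ^ 2 * ξ ^ 2 / 2 ∧ ψ₂ ξ = σ₂ ^ 2 * ξ ^ 2 / 2 := fun ξ => by
    have a1 : 0 ≤ ∫ t, (1 - Real.cos (t * ξ)) ∂ν₁ :=
      integral_nonneg fun t => sub_nonneg.2 (Real.cos_le_one _)
    have a2 : 0 ≤ ∫ t, (1 - Real.cos (t * ξ)) ∂ν₂ :=
      integral_nonneg fun t => sub_nonneg.2 (Real.cos_le_one _)
    have a3 := h' ξ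
    have a4 : σ₁ ^ 2 * ξ ^ 2 + σ₂ ^ 2 * ξ ^ 2 = 4 * ξ ^ 2 := by rw [← add_mul, h1]
    rw [e1, e2] at a3 ⊢
    constructor <;> linarith
  refine ⟨σ₁ ^ 2 / 4, ⟨by positivity, by nlinarith [sq_nonneg σ₂]⟩, funext fun ξ => ?_,
    funext fun ξ => ?_⟩
  · rw [(h2 ξ).1]; simp; ring
  · rw [(h2 ξ).2, show σ₂ ^ 2 = 4 - σ₁ ^ 2 by linarith]; simp; ring

theorem not_propR {μ : Measure ℝ} [IsProbabilityMeasure μ] (nn : ∀ᵐ w ∂μ, 0 ≤ w) {C : ℝ}
    (hτ : ∀ᶠ v in atTop, Real.exp (-C * v) ≤ ∫ w in Ici v, (√w)⁻¹ ∂μ) {L : ℝ → ℝ}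
    (hL : ∀ s, 0 ≤ s → L s = ∫ w, Real.exp (-s * w) ∂μ) : ¬ PropR L := by
  obtain ⟨W, hW⟩ := eventually_atTop.1 hτ
  obtain ⟨ε, h0, h1, h⟩ := cf_eta nn (C := max C 0) (W := max W 1) (le_max_right _ _)
    (by positivity) fun v hv => le_trans (Real.exp_le_exp.2 (by
      have : 1 ≤ v := (le_max_right _ _).trans hv
      nlinarith [le_max_left C 0])) (hW v ((le_max_left _ _).trans hv))
  have hη : ∀ ε ξ, |ε| ≤ 1 → 0 ≤ eta ε ξ := fun ε ξ hε => by
    have := Real.one_sub_sq_div_two_le_cos (x := ξ)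
    have := Real.cos_le_one ξ
    have := (abs_le.1 hε).2
    unfold eta; nlinarith
  have hi : ∀ s, 0 ≤ s → Integrable (fun w => Real.exp (-s * w)) μ := fun s hs =>
    (integrable_const (1 : ℝ)).mono' (by fun_prop) (nn.mono fun w hw => by
      rw [Real.norm_of_nonneg (Real.exp_pos _).le, Real.exp_le_one_iff]; nlinarith)
  have hinj : InjOn L (Ici 0) := by
    refine StrictAntiOn.injOn fun s hs t ht hst => ?_
    rw [hL s hs, hL t ht, ← sub_pos, ← integral_sub (hi s hs) (hi t ht)]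
    have a1 : 0 ≤ᵐ[μ] fun w => Real.exp (-s * w) - Real.exp (-t * w) := nn.mono fun w hw =>
      sub_nonneg.2 (Real.exp_le_exp.2 (by nlinarith))
    refine lt_of_le_of_ne (integral_nonneg_of_ae a1) fun h0 => ?_
    have a2 := (integral_eq_zero_iff_of_nonneg_ae a1 ((hi s hs).sub (hi t ht))).1 h0.symm
    have a3 : ∫ w in Ici W, (√w)⁻¹ ∂μ = 0 := by
      refine integral_eq_zero_of_ae (ae_restrict_of_ae (a2.mono fun w hw => ?_))
      have a4 : -s * w = -t * w := Real.exp_injective (sub_eq_zero.1 hw)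
      have a5 : w = 0 := by
        by_contra hne
        have := mul_right_cancel₀ hne a4; linarith
      simp [a5]
    have := hW W le_rfl
    linarith [Real.exp_pos (-C * W)]
  have e1 : |ε| ≤ ε := (abs_of_pos h0).le
  have e2 : |-ε| ≤ ε := by rwa [abs_neg]
  intro hR
  obtain ⟨η₁, η₂, c1, c2, f1, f2⟩ := hR (fun ξ => L (eta ε ξ)) (fun ξ => L (eta (-ε) ξ)) _
    (by simpa only [hL _ (hη ε _ (e1.trans h1))] using h ε e1)
    (by simpa only [hL _ (hη (-ε) _ (e2.trans h1))] using h (-ε) e2)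
    (fun ξ => ⟨_, hη ε ξ (e1.trans h1), rfl⟩) (fun ξ => ⟨_, hη (-ε) ξ (e2.trans h1), rfl⟩)
    indec_sq fun ξ => by
      rw [Phi, hinj.leftInvOn_invFunOn (hη ε ξ (e1.trans h1)),
        hinj.leftInvOn_invFunOn (hη (-ε) ξ (e2.trans h1))]
      congr 1; unfold eta; ring
  have g1 : ∀ ξ, eta ε ξ = η₁ ξ := fun ξ =>
    hinj (hη ε ξ (e1.trans h1)) (c1.nonneg ξ) (congrFun f1 ξ)
  have g2 : ∀ ξ, eta (-ε) ξ = η₂ ξ := fun ξ =>
    hinj (hη (-ε) ξ (e2.trans h1)) (c2.nonneg ξ) (congrFun f2 ξ)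
  obtain ⟨a, -, ha, -⟩ := indec_sq.2.2 η₁ η₂ c1 c2 (funext fun ξ => by
    rw [Pi.add_apply, ← g1, ← g2]; unfold eta; ring)
  have k1 := (g1 Real.pi).trans (congrFun ha _)
  have k2 := (g1 (2 * Real.pi)).trans (congrFun ha _)
  simp only [eta, Real.cos_pi, Real.cos_two_pi, Pi.smul_apply, smul_eq_mul] at k1 k2
  nlinarith

end Pool.Agent.MP_9cb8e5_pr.H67
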