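import Pool.Agent.MP_9cb8e5_pr.H67.Boot

/-! The two kernels used in the bootstrap. -/

open Filter Topology Asymptotics PowerSeries Finset MeasureTheory Real
open scoped Nat

namespace Pool.Agent.MP_9cb8e5_pr.H67

theorem nonneg_of_deriv {g g' : ℝ → ℝ} (hg : ∀ t, HasDerivAt g (g' t) t) (h0 : g 0 = 0) {b : ℝ}
    (hb : 0 ≤ b) (h : ∀ t, 0 ≤ t → t ≤ b → 0 ≤ g' t) : 0 ≤ g b := by
  rcases hb.eq_or_lt with rfl | hb
  · exact h0.ge
  obtain ⟨c, hc, hc'⟩ := exists_hasDerivAt_eq_slope g g' hb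
    (fun t _ => (hg t).continuousAt.continuousWithinAt) fun t _ => hg t
  have := h c hc.1.le hc.2.le
  rw [hc', h0, sub_zero, sub_zero] at this
  exact (div_nonneg_iff.1 this).elim (·.1) fun h => absurd h.2 (not_le.2 hb)

theorem hasDerivAt_pow_div (n : ℕ) (t : ℝ) :
    HasDerivAt (fun t : ℝ => t ^ (n + 1) / (n + 1)!) (t ^ n / n !) t := by
  have := (hasDerivAt_pow (n + 1) t).div_const ((n + 1)! : ℝ)
  refine this.congr_deriv ?_
  rw [Nat.factorial_succ]; push_cast
  have : (n ! : ℝ) ≠ 0 := by positivity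
  field_simp

theorem cos_sign (N : ℕ) : ∀ t : ℝ, 0 ≤ t →
    0 ≤ (-1) ^ (N + 1) * (cos t - ∑ k ∈ range (N + 1), (-1) ^ k * (t ^ (2 * k) / (2 * k)!)) := by
  induction N with
  | zero => intro t _; simpa using cos_le_one t
  | succ N ih =>
    have hs : ∀ t : ℝ, 0 ≤ t → 0 ≤ (-1) ^ (N + 1) *
        (sin t - ∑ k ∈ range (N + 1), (-1) ^ k * (t ^ (2 * k + 1) / (2 * k + 1)!)) := by
      intro t ht
      refine nonneg_of_deriv (fun t => ((hasDerivAt_sin t).sub (HasDerivAt.fun_sum fun k _ =>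
        (hasDerivAt_pow_div (2 * k) t).const_mul _)).const_mul _) (by simp) ht fun t h _ => ih t h
    intro t ht
    rw [Finset.sum_range_succ']
    refine nonneg_of_deriv (g := fun t => (-1) ^ (N + 1 + 1) * (cos t - (∑ k ∈ range (N + 1),
      (-1) ^ (k + 1) * (t ^ (2 * k + 1 + 1) / (2 * k + 1 + 1)!) + 1)))
      (fun t => ((hasDerivAt_cos t).sub ((HasDerivAt.fun_sum fun k _ =>
        (hasDerivAt_pow_div (2 * k + 1) t).const_mul _).add_const _)).const_mul _) (by simp) ht
        (fun t h _ => ?_) |>.trans_eq (by simp [mul_add])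
    refine (hs t h).trans_eq ?_
    simp only [pow_succ (-1 : ℝ), mul_neg_one, neg_mul, Finset.sum_neg_distrib]; ring

theorem kerCos : Ker (fun h x => cos (√(-h) * x)) (fun k x => x ^ (2 * k) / (2 * k)!) 1 where
  pos := one_pos
  mK := fun h => by fun_prop
  mκ := fun k => by fun_prop
  sign := fun N h x _ hh => by
    have h1 := cos_sign N (√(-h) * |x|) (by positivity)
    have h2 : ∀ k : ℕ, (-1) ^ k * ((√(-h) * |x|) ^ (2 * k) / (2 * k)!) =
        x ^ (2 * k) / (2 * k)! * h ^ k := fun k => by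
      rw [mul_pow, pow_mul, pow_mul, sq_sqrt (by linarith), sq_abs, pow_mul, neg_pow h]
      have : ((-1 : ℝ) ^ k) * (-1) ^ k = 1 := by rw [← mul_pow]; simp
      linear_combination (h ^ k * (x ^ 2) ^ k / (2 * k)!) * this
    have h3 : cos (√(-h) * |x|) = cos (√(-h) * x) := by
      rw [← cos_abs (√(-h) * x), abs_mul, abs_of_nonneg (sqrt_nonneg _)]
    simp only [h2, h3] at h1
    have h4 : 0 < (-1) ^ (N + 1) * h ^ (N + 1) := by
      rw [← mul_pow]; exact pow_pos (by linarith) _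
    have := div_nonneg h1 h4.le
    rwa [mul_div_mul_left _ _ (pow_ne_zero _ (by norm_num))] at this

theorem taylor_sign {δ : ℝ} (N : ℕ) : ∀ f : ℕ → ℝ → ℝ, (∀ k h, HasDerivAt (f k) (f (k + 1) h) h) →
    (∀ k h, -δ ≤ h → h ≤ 0 → 0 ≤ f k h) → ∀ t, 0 ≤ t → t ≤ δ →
    0 ≤ (-1) ^ N * (f 0 (-t) - ∑ k ∈ range N, f k 0 * (-1) ^ k * (t ^ k / k !)) := by
  induction N with
  | zero => intro f _ h t h1 h2; simpa using h 0 (-t) (by linarith) (by linarith)
  | succ N ih =>
    intro f hd h t h1 h2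
    rw [Finset.sum_range_succ']
    refine nonneg_of_deriv (g := fun t => (-1) ^ (N + 1) * (f 0 (-t) - (∑ k ∈ range N,
      f (k + 1) 0 * (-1) ^ (k + 1) * (t ^ (k + 1) / (k + 1)!) + f 0 0)))
      (fun t => (((hd 0 (-t)).comp t (hasDerivAt_neg t)).sub ((HasDerivAt.fun_sum fun k _ =>
        (hasDerivAt_pow_div k t).const_mul _).add_const _)).const_mul _) (by simp) h1
        (fun t a b => ?_) |>.trans_eq (by simp)
    refine (ih (fun k => f (k + 1)) (fun k => hd (k + 1)) (fun k => h (k + 1)) t a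
      (b.trans h2)).trans_eq ?_
    simp only [pow_succ (-1 : ℝ), neg_mul, mul_neg, Finset.sum_neg_distrib]; ring_nf

/-- derivatives of `y ↦ cosh (y x)` -/
noncomputable def ch (k : ℕ) (x y : ℝ) : ℝ :=
  |x| ^ k * (exp (y * |x|) + (-1) ^ k * exp (-(y * |x|))) / 2

theorem ch_zero (x y : ℝ) : ch 0 x y = cosh (y * x) := by
  have : cosh (y * x) = cosh (y * |x|) := by
    rw [← cosh_abs (y * x), ← cosh_abs (y * |x|), abs_mul, abs_mul, abs_abs]
  simp [ch, this, cosh_eq]

theorem ch_deriv (k : ℕ) (x y : ℝ) : HasDerivAt (ch k x) (ch (k + 1) x y) y := by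
  have h1 : HasDerivAt (fun y : ℝ => y * |x|) |x| y := by simpa using (hasDerivAt_id y).mul_const |x|
  have := ((h1.exp.add (h1.neg.exp.const_mul ((-1) ^ k))).const_mul (|x| ^ k)).div_const 2
  refine HasDerivAt.congr_deriv (f := ch k x) this ?_
  simp only [ch, Pi.neg_apply]; ring

theorem ch_nonneg (k : ℕ) (x : ℝ) {y : ℝ} (hy : 0 ≤ y) : 0 ≤ ch k x y := by
  have h1 : 0 ≤ y * |x| := by positivity
  have h2 : exp (-(y * |x|)) ≤ exp (y * |x|) := exp_le_exp.2 (by linarith)
  have h3 := exp_pos (-(y * |x|))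
  refine div_nonneg (mul_nonneg (by positivity) ?_) (by norm_num)
  rcases neg_one_pow_eq_or ℝ k with h | h <;> rw [h] <;> linarith

theorem kerCosh {y : ℝ} (hy : 0 < y) :
    Ker (fun h x => cosh ((y + h) * x)) (fun k x => ch k x y / k !) y where
  pos := hy
  mK := fun h => by fun_prop
  mκ := fun k => by unfold ch; fun_prop
  sign := fun N h x h0 hh => by
    have h1 := taylor_sign (δ := y) (N + 1) (fun k h => ch k x (y + h))
      (fun k h => (ch_deriv k x (y + h)).comp_const_add y h)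
      (fun k h a _ => ch_nonneg k x (by linarith)) (-h) (by linarith) (by linarith)
    have h2 : ∀ k : ℕ, ch k x (y + 0) * (-1) ^ k * ((-h) ^ k / k !) = ch k x y / k ! * h ^ k :=
      fun k => by
        rw [add_zero, neg_pow h]
        have : ((-1 : ℝ) ^ k) * (-1) ^ k = 1 := by rw [← mul_pow]; simp
        linear_combination (h ^ k * ch k x y / k !) * this
    simp only [h2, neg_neg, ch_zero] at h1
    have h4 : 0 < (-1) ^ (N + 1) * h ^ (N + 1) := by
      rw [← mul_pow]; exact pow_pos (by linarith) _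
    have := div_nonneg h1 h4.le
    rwa [mul_div_mul_left _ _ (pow_ne_zero _ (by norm_num))] at this

theorem hasSum_ch (x y r : ℝ) : HasSum (fun k => ch k x y / k ! * r ^ k) (cosh ((y + r) * x)) := by
  have h1 := (NormedSpace.expSeries_div_hasSum_exp (r * |x|)).mul_left (exp (y * |x|))
  have h2 := (NormedSpace.expSeries_div_hasSum_exp (-(r * |x|))).mul_left (exp (-(y * |x|)))
  rw [← exp_eq_exp_ℝ, ← exp_add] at h1 h2
  have h3 := (h1.add h2).div_const 2
  have e : cosh ((y + r) * x) = (exp (y * |x| + r * |x|) + exp (-(y * |x|) + -(r * |x|))) / 2 := by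
    rw [← ch_zero, ch]; simp; congr 2 <;> ring_nf
  rw [e]
  refine h3.congr_fun fun k => ?_
  rw [ch, neg_pow (r * |x|)]; ring

theorem Ker.integrable {K : ℝ → ℝ → ℝ} {κ : ℕ → ℝ → ℝ} {δ r C : ℝ} (hK : Ker K κ δ)
    {ρ : Measure ℝ} (hr : 0 < r)
    (h : ∀ N, (∀ k ≤ N, Integrable (κ k) ρ) ∧ nrm r N (mom κ ρ) ≤ C) {G : ℝ → ℝ}
    (hG : ∀ x, HasSum (fun k => κ k x * r ^ k) (G x)) : Integrable G ρ := by
  have hi : ∀ k, Integrable (κ k) ρ := fun k => (h k).1 k le_rfl
  have h1 : Integrable (fun x => G x - κ 0 x) ρ := by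
    have h2 : ∀ N, Integrable (fun x => ∑ k ∈ range N, κ (k + 1) x * r ^ (k + 1)) ρ :=
      fun N => integrable_finsetSum _ fun k _ => (hi _).mul_const _
    refine integrable_of_tendsto (G := fun N x => ∑ k ∈ range N, κ (k + 1) x * r ^ (k + 1))
      (Eventually.of_forall fun x => ?_) (fun N => (h2 N).1) ?_
    · simpa using ((hasSum_nat_add_iff' 1).2 (hG x)).tendsto_sum_nat
    · refine ne_top_of_le_ne_top (ENNReal.ofReal_ne_top (r := C))
        (liminf_le_of_frequently_le' (Frequently.of_forall fun N => ?_))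
      have h3 : ∀ x, 0 ≤ ∑ k ∈ range N, κ (k + 1) x * r ^ (k + 1) := fun x =>
        Finset.sum_nonneg fun k _ => mul_nonneg (hK.nonneg k x) (by positivity)
      simp only [Real.enorm_eq_ofReal (h3 _)]
      rw [← ofReal_integral_eq_lintegral_ofReal (h2 N) (Eventually.of_forall h3),
        integral_finsetSum _ fun k _ => (hi _).mul_const _]
      refine ENNReal.ofReal_le_ofReal (le_trans ?_ (h N).2)
      simp only [nrm, mom, Finset.sum_range_succ', coeff_mk, integral_mul_const]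
      simp only [Nat.succ_ne_zero, if_false, if_true, abs_zero, zero_mul, add_zero]
      exact Finset.sum_le_sum fun k _ =>
        mul_le_mul_of_nonneg_right (le_abs_self _) (by positivity)
  exact (h1.add (hi 0)).congr (Eventually.of_forall fun x => by simp)

end Pool.Agent.MP_9cb8e5_pr.H67
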