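import Pool.Agent.MP_9cb8e5_pr.H67.Lap
import Pool.Agent.MP_9cb8e5_pr.H67.Kern

/-! The factors have all exponential moments and the identity continues to the real axis. -/

open Filter Topology Set MeasureTheory ProbabilityTheory

namespace Pool.Agent.MP_9cb8e5_pr.H67

structure Dec (μ : Measure ℝ) (ρ : Fin 2 → Measure ℝ) (η : Fin 2 → ℝ → ℝ) (Ψ : ℂ → ℂ)
    (P : ℝ → ℝ) : Prop extends Lap μ where
  pr : ∀ j, IsProbabilityMeasure (ρ j)
  cf : ∀ j ξ, charFun (ρ j) ξ = mgf id μ (-η j ξ)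
  ηnn : ∀ j ξ, 0 ≤ η j ξ
  sum : ∀ ξ : ℝ, Ψ (ξ * Complex.I) = -(η 0 ξ + η 1 ξ : ℝ)
  hΨ : Differentiable ℂ Ψ
  Ψ0 : Ψ 0 = 0
  even : ∀ z, Ψ (-z) = Ψ z
  hP : ∀ y : ℝ, Ψ y = P y
  td : TD fun h => -(η 0 √(-h) + η 1 √(-h))

variable {μ : Measure ℝ} {ρ : Fin 2 → Measure ℝ} {η : Fin 2 → ℝ → ℝ} {Ψ : ℂ → ℂ} {P : ℝ → ℝ}

theorem Dec.sym (H : Dec μ ρ η Ψ P) (j : Fin 2) : (ρ j).IsNegInvariant := by
  have := H.pr j
  refine ⟨?_⟩
  have e : (ρ j).neg = (ρ j).map ((-1 : ℝ) * ·) := by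
    rw [Measure.neg_def]; congr 1; ext x; simp
  rw [e]
  refine Measure.ext_of_charFun (funext fun t => ?_)
  rw [charFun_map_mul, neg_one_mul, charFun_neg, H.cf]; simp

theorem cmgf_even {ν : Measure ℝ} [ν.IsNegInvariant] (z : ℂ) :
    complexMGF id ν (-z) = complexMGF id ν z := by
  rw [complexMGF, complexMGF, ← integral_neg_eq_self]; simp

theorem exp_of_cosh {ν : Measure ℝ} {y t : ℝ} (h : Integrable (fun x => Real.cosh (y * x)) ν)
    (ht : |t| ≤ y) : Integrable (fun x => Real.exp (t * x)) ν := by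
  refine (h.const_mul 2).mono' (by fun_prop) (Eventually.of_forall fun x => ?_)
  rw [Real.norm_of_nonneg (Real.exp_pos _).le]
  have h1 : Real.cosh (t * x) ≤ Real.cosh (y * x) := by
    rw [Real.cosh_le_cosh, abs_mul, abs_mul]
    exact mul_le_mul_of_nonneg_right (ht.trans (le_abs_self _)) (abs_nonneg _)
  have := Real.exp_pos (-(t * x))
  rw [Real.cosh_eq (t * x)] at h1; linarith

theorem cosh_mono {ν : Measure ℝ} {y t : ℝ} (h : Integrable (fun x => Real.cosh (y * x)) ν)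
    (ht : |t| ≤ |y|) : Integrable (fun x => Real.cosh (t * x)) ν ∧
      ∫ x, Real.cosh (t * x) ∂ν ≤ ∫ x, Real.cosh (y * x) ∂ν := by
  have h1 : ∀ x, Real.cosh (t * x) ≤ Real.cosh (y * x) := fun x => by
    rw [Real.cosh_le_cosh, abs_mul, abs_mul]
    exact mul_le_mul_of_nonneg_right ht (abs_nonneg _)
  have h2 : Integrable (fun x => Real.cosh (t * x)) ν :=
    h.mono' (by fun_prop) (Eventually.of_forall fun x => by
      rw [Real.norm_of_nonneg (Real.cosh_pos _).le]; exact h1 x)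
  exact ⟨h2, integral_mono h2 h h1⟩

theorem int_of_cosh {ν : Measure ℝ} {y t : ℝ} (h : Integrable (fun x => Real.cosh (y * x)) ν)
    (ht : |t| < y) : t ∈ interior (integrableExpSet id ν) := by
  refine mem_interior_iff_mem_nhds.2 (mem_of_superset
    ((continuous_abs.isOpen_preimage _ isOpen_Iio).mem_nhds ht) fun u hu => ?_)
  exact exp_of_cosh h (le_of_lt hu)

theorem int_cosh {ν : Measure ℝ} [ν.IsNegInvariant] {y : ℝ}
    (h : Integrable (fun x => Real.cosh (y * x)) ν) : ∫ x, Real.cosh (y * x) ∂ν = mgf id ν y := by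
  have h' := (cosh_mono (t := |y|) h (by simp)).1
  have h1 := exp_of_cosh h' (t := y) le_rfl
  have h2 := exp_of_cosh h' (t := -y) (by simp)
  simp only [neg_mul] at h2
  simp only [Real.cosh_eq]
  rw [integral_div, integral_add h1 h2, ← integral_neg_eq_self (fun x => Real.exp (-(y * x)))]
  simp [mgf]

theorem one_le_cosh_int {ν : Measure ℝ} [IsProbabilityMeasure ν] {y : ℝ}
    (h : Integrable (fun x => Real.cosh (y * x)) ν) : 1 ≤ ∫ x, Real.cosh (y * x) ∂ν := by
  simpa using integral_mono (integrable_const (1 : ℝ)) h fun x => Real.one_le_cosh _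

theorem Dec.int_cos (H : Dec μ ρ η Ψ P) (j : Fin 2) (ξ : ℝ) :
    Integrable (fun x => Real.cos (ξ * x)) (ρ j) ∧
      ∫ x, Real.cos (ξ * x) ∂ρ j = mgf id μ (-η j ξ) := by
  have := H.pr j
  have h1 : Integrable (fun x : ℝ => Complex.exp (ξ * x * Complex.I)) (ρ j) :=
    (integrable_const (1 : ℝ)).mono' (by fun_prop) (Eventually.of_forall fun x => by
      rw [← Complex.ofReal_mul, Complex.norm_exp_ofReal_mul_I])
  have h2 : ∀ x : ℝ, RCLike.re (Complex.exp (ξ * x * Complex.I)) = Real.cos (ξ * x) := fun x => by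
    rw [← Complex.ofReal_mul, RCLike.re_to_complex, Complex.exp_ofReal_mul_I_re]
  have h3 := integral_re h1
  have h4 := h1.re
  simp only [h2] at h3 h4
  refine ⟨h4, ?_⟩
  rw [h3, ← charFun_apply_real, H.cf]; simp

theorem Dec.stepA (H : Dec μ ρ η Ψ P) :
    ∃ r : ℝ, 0 < r ∧ ∀ j, Integrable (fun x => Real.cosh (r * x)) (ρ j) := by
  obtain ⟨r, C, hr, h⟩ := boot kerCos (ρ := ρ) (m := mgf id μ) (s := fun _ => 0)
    (σ := fun j h => -η j √(-h)) (fun _ => H.an 0) (fun _ => H.deriv_pos 0) H.td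
    (fun j => by have := H.pr j; simp [H.zero])
    (Eventually.of_forall fun h => ⟨fun j => ⟨(H.int_cos j _).1, by
      rw [(H.int_cos j _).2, zero_add], neg_nonpos.2 (H.ηnn j _)⟩, by simp [add_comm]⟩)
  refine ⟨√r, Real.sqrt_pos.2 hr, fun j => kerCos.integrable hr (h j) fun x => ?_⟩
  refine (Real.hasSum_cosh (√r * x)).congr_fun fun k => ?_
  rw [mul_pow, pow_mul √r, Real.sq_sqrt hr.le]; ring

theorem Dec.Pan (H : Dec μ ρ η Ψ P) (y : ℝ) : AnalyticAt ℝ P y := by
  have := (H.hΨ.analyticAt (y : ℂ)).re_ofReal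
  simpa [H.hP] using this

theorem Dec.stepB (H : Dec μ ρ η Ψ P) : ∃ σ : ℂ → ℂ, σ 0 = 0 ∧
    Sol (complexMGF id μ) (complexMGF id (ρ 0)) (complexMGF id (ρ 1)) Ψ 0 σ ∧
    (∀ᶠ ξ : ℝ in 𝓝 0, σ (ξ * Complex.I) = -η 0 ξ) ∧
    ∀ᶠ y : ℝ in 𝓝 0, (∀ j, Integrable (fun x => Real.cosh (y * x)) (ρ j)) ∧
      σ y = mi μ (mgf id (ρ 0) y) ∧ ∑ j, mi μ (mgf id (ρ j) y) = P y := by
  obtain ⟨r, hr, hi⟩ := H.stepA
  have hpr := H.pr
  have hsym := H.sym
  have hM0 : complexMGF id μ 0 = 1 := by have := H.prob; simp [complexMGF]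
  have hF0 : ∀ j, complexMGF id (ρ j) 0 = 1 := fun j => by simp [complexMGF]
  obtain ⟨l, hl, hl0, hl1, hl2⟩ := loc_inv (diff_of_all H.ex) H.d0
  rw [hM0] at hl hl0 hl2
  have hFa : ∀ j, AnalyticAt ℂ (complexMGF id (ρ j)) 0 := fun j =>
    analyticAt_complexMGF (int_of_cosh (hi j) (by simpa using hr))
  have hσ : ∀ j, AnalyticAt ℂ (fun z => l (complexMGF id (ρ j) z)) 0 := fun j =>
    AnalyticAt.comp_of_eq hl (hFa j) (hF0 j)
  have hη : ∀ j, Tendsto (η j) (𝓝 0) (𝓝 0) := fun j => by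
    have h1 : Tendsto (fun ξ : ℝ => -(Ψ (ξ * Complex.I)).re) (𝓝 0) (𝓝 0) := by
      have := H.hΨ.continuous
      have h : Continuous fun ξ : ℝ => -(Ψ (ξ * Complex.I)).re := by fun_prop
      simpa [H.Ψ0] using h.tendsto 0
    refine squeeze_zero (H.ηnn j) (fun ξ => ?_) h1
    have := H.ηnn 0 ξ
    have := H.ηnn 1 ξ
    rw [H.sum]
    fin_cases j <;> simp <;> linarith
  have him : ∀ j, ∀ᶠ ξ : ℝ in 𝓝 0, l (complexMGF id (ρ j) (ξ * Complex.I)) = -η j ξ := fun j => by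
    have h1 : Tendsto (fun ξ => ((-η j ξ : ℝ) : ℂ)) (𝓝 0) (𝓝 0) := by
      simpa [Function.comp_def] using (Complex.continuous_ofReal.tendsto _).comp (hη j).neg
    filter_upwards [h1.eventually hl1] with ξ hξ
    rw [complexMGF_id_mul_I, H.cf, ← complexMGF_ofReal, hξ]; simp
  have hsum : ∀ᶠ z in 𝓝 0, l (complexMGF id (ρ 0) z) + l (complexMGF id (ρ 1) z) = Ψ z := by
    refine (((hσ 0).add (hσ 1)).frequently_eq_iff_eventually_eq (H.hΨ.analyticAt 0)).1 ?_
    have h1 : Tendsto (fun ξ : ℝ => ξ * Complex.I) (𝓝[≠] 0) (𝓝[≠] 0) := by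
      refine tendsto_nhdsWithin_iff.2 ⟨?_, eventually_mem_nhdsWithin.mono fun x hx => by
        simpa using hx⟩
      have : Continuous fun ξ : ℝ => ξ * Complex.I := by fun_prop
      simpa using (this.tendsto 0).mono_left nhdsWithin_le_nhds
    refine h1.frequently (Eventually.frequently (Eventually.filter_mono nhdsWithin_le_nhds ?_))
    filter_upwards [him 0, him 1] with ξ a b
    simp only [Pi.add_apply, a, b, H.sum]; push_cast; ring
  have hinv : ∀ j, ∀ᶠ z in 𝓝 0, complexMGF id μ (l (complexMGF id (ρ j) z)) =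
      complexMGF id (ρ j) z := fun j =>
    (hF0 j ▸ (hFa j).continuousAt.tendsto).eventually hl2
  have hint : ∀ᶠ y : ℝ in 𝓝 0, ∀ j, Integrable (fun x => Real.cosh (y * x)) (ρ j) := by
    have : ∀ᶠ y : ℝ in 𝓝 0, |y| < r :=
      (continuous_abs.isOpen_preimage _ isOpen_Iio).mem_nhds (by simpa using hr)
    exact this.mono fun y hy j => (cosh_mono (hi j) (hy.le.trans (le_abs_self _))).1
  have hre : ∀ j, ∀ᶠ y : ℝ in 𝓝 0, l (complexMGF id (ρ j) y) = mi μ (mgf id (ρ j) y) := fun j => by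
    have h0 : mgf id (ρ j) 0 = mgf id μ 0 := by rw [H.zero]; simp
    have h1 := ((H.mi_an 0).comp_of_eq (analyticAt_mgf (int_of_cosh (hi j) (t := 0)
      (by simpa using hr))) h0).continuousAt.tendsto
    simp only [Function.comp, h0, H.mi_m] at h1
    have h2 := (Complex.continuous_ofReal.tendsto _).comp h1
    rw [Complex.ofReal_zero] at h2
    filter_upwards [h2.eventually hl1, hint] with y hy hy'
    have h3 := (H.m_mi (int_cosh (hy' j) ▸ one_le_cosh_int (hy' j))).1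
    simp only [Function.comp] at hy
    rwa [complexMGF_ofReal, h3, ← complexMGF_ofReal] at hy
  refine ⟨fun z => l (complexMGF id (ρ 0) z), by simp only [hF0, hl0], ⟨hσ 0, ?_⟩, him 0, ?_⟩
  · filter_upwards [hsum, hinv 0, hinv 1] with z a b c
    exact ⟨b, by rw [← a, add_sub_cancel_left, c]⟩
  · have h1 : Tendsto (fun y : ℝ => (y : ℂ)) (𝓝 0) (𝓝 0) := Complex.continuous_ofReal.tendsto 0
    filter_upwards [hint, hre 0, hre 1, h1.eventually hsum] with y a b c d
    refine ⟨a, b, ?_⟩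
    rw [b, c, H.hP] at d
    rw [Fin.sum_univ_two]; exact_mod_cast d

theorem Dec.stepC (H : Dec μ ρ η Ψ P) {y : ℝ} (hy : 0 < y)
    (h : ∀ t, 0 ≤ t → t < y → (∀ j, Integrable (fun x => Real.cosh (t * x)) (ρ j)) ∧
      ∑ j, mi μ (mgf id (ρ j) t) = P t) :
    ∀ᶠ t in 𝓝 y, (∀ j, Integrable (fun x => Real.cosh (t * x)) (ρ j)) ∧
      ∑ j, mi μ (mgf id (ρ j) t) = P t := by
  have hpr := H.pr
  have hsym := H.sym
  have hev : ∀ᶠ t in 𝓝[<] y, 0 ≤ t ∧ t < y :=
    ((le_mem_nhds hy : ∀ᶠ t in 𝓝 y, 0 ≤ t).filter_mono nhdsWithin_le_nhds).and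
      eventually_mem_nhdsWithin
  have hmi : ∀ t j, Integrable (fun x => Real.cosh (t * x)) (ρ j) →
      mgf id μ (mi μ (mgf id (ρ j) t)) = mgf id (ρ j) t ∧ 0 ≤ mi μ (mgf id (ρ j) t) :=
    fun t j ht => H.m_mi (int_cosh ht ▸ one_le_cosh_int ht)
  have hpt : ∀ x, Tendsto (fun t => Real.cosh (t * x)) (𝓝[<] y) (𝓝 (Real.cosh (y * x))) :=
    fun x => (Continuous.tendsto (by fun_prop) y).mono_left nhdsWithin_le_nhds
  have hiy : ∀ j, Integrable (fun x => Real.cosh (y * x)) (ρ j) := fun j => by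
    refine ⟨by fun_prop, ?_⟩
    have h1 := lintegral_liminf_le (μ := ρ j) (u := 𝓝[<] y)
      (f := fun t x => ENNReal.ofReal (Real.cosh (t * x))) fun t => by fun_prop
    have h2 : ∀ x, liminf (fun t => ENNReal.ofReal (Real.cosh (t * x))) (𝓝[<] y) =
        ‖Real.cosh (y * x)‖ₑ := fun x => by
      rw [Real.enorm_eq_ofReal (Real.cosh_pos _).le]
      exact ((ENNReal.continuous_ofReal.tendsto _).comp (hpt x)).liminf_eq
    simp only [h2] at h1
    refine lt_of_le_of_lt (h1.trans (liminf_le_of_frequently_le' (Eventually.frequently ?_)))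
      (ENNReal.ofReal_lt_top (r := mgf id μ (P y + 1)))
    have h3 : ∀ᶠ t in 𝓝[<] y, P t < P y + 1 :=
      ((H.Pan y).continuousAt.eventually (gt_mem_nhds (lt_add_one _))).filter_mono
        nhdsWithin_le_nhds
    filter_upwards [hev, h3] with t ht h3
    obtain ⟨a, b⟩ := h t ht.1 ht.2
    rw [← ofReal_integral_eq_lintegral_ofReal (a j)
      (Eventually.of_forall fun x => (Real.cosh_pos _).le), int_cosh (a j), ← (hmi t j (a j)).1]
    refine ENNReal.ofReal_le_ofReal (H.mono.monotone ?_)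
    have := Finset.single_le_sum (f := fun j => mi μ (mgf id (ρ j) t))
      (fun i _ => (hmi t i (a i)).2) (Finset.mem_univ j)
    linarith
  have hlim : ∀ j, Tendsto (fun t => mi μ (mgf id (ρ j) t)) (𝓝[<] y)
      (𝓝 (mi μ (mgf id (ρ j) y))) := fun j => by
    have h1 := (H.mi_an (mi μ (mgf id (ρ j) y))).continuousAt.tendsto
    rw [(hmi y j (hiy j)).1] at h1
    refine h1.comp ?_
    have h2 := tendsto_integral_filter_of_dominated_convergence (μ := ρ j) (l := 𝓝[<] y)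
      (F := fun t x => Real.cosh (t * x)) (fun x => Real.cosh (y * x))
      (Eventually.of_forall fun t => by fun_prop) (hev.mono fun t ht => Eventually.of_forall
        fun x => by
          rw [Real.norm_of_nonneg (Real.cosh_pos _).le, Real.cosh_le_cosh, abs_mul, abs_mul,
            abs_of_nonneg ht.1, abs_of_pos hy]
          exact mul_le_mul_of_nonneg_right ht.2.le (abs_nonneg _))
      (hiy j) (Eventually.of_forall hpt)
    rw [int_cosh (hiy j)] at h2
    exact h2.congr' (hev.mono fun t ht => int_cosh ((h t ht.1 ht.2).1 j))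
  have hid : ∑ j, mi μ (mgf id (ρ j) y) = P y :=
    tendsto_nhds_unique ((tendsto_finsetSum _ fun j _ => hlim j).congr'
      (hev.mono fun t ht => (h t ht.1 ht.2).2))
      ((H.Pan y).continuousAt.tendsto.mono_left nhdsWithin_le_nhds)
  obtain ⟨r, C, hr, hb⟩ := boot (kerCosh hy) (ρ := ρ) (m := mgf id μ)
    (s := fun j => mi μ (mgf id (ρ j) y)) (Θ := fun h => P (y + h) - P y)
    (σ := fun j h => mi μ (mgf id (ρ j) (y + h)) - mi μ (mgf id (ρ j) y))
    (fun _ => H.an _) (fun _ => H.deriv_pos _)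
    (td_of_analytic (((H.Pan y).comp_of_eq (by fun_prop) (add_zero y)).sub analyticAt_const)
      (by simp))
    (fun j => by
      simp only [ch_zero, Nat.factorial_zero, Nat.cast_one, div_one]
      exact ⟨hiy j, by rw [(hmi y j (hiy j)).1, int_cosh (hiy j)]⟩)
    ((kerCosh hy).ev.mono fun u hu => by
      obtain ⟨a, b⟩ := h (y + u) (by linarith) (by linarith)
      refine ⟨fun j => ⟨a j, by rw [add_sub_cancel, (hmi _ j (a j)).1, int_cosh (a j)], ?_⟩,
        by rw [Finset.sum_sub_distrib, b, hid]⟩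
      rw [sub_nonpos, ← H.mono.le_iff_le, (hmi _ j (a j)).1, (hmi _ j (hiy j)).1,
        ← int_cosh (a j), ← int_cosh (hiy j)]
      exact (cosh_mono (hiy j) (by
        rw [abs_of_pos hy, abs_of_pos (by linarith)]; linarith)).2)
  have hir : ∀ j, Integrable (fun x => Real.cosh ((y + r) * x)) (ρ j) := fun j =>
    (kerCosh hy).integrable hr (hb j) fun x => hasSum_ch x y r
  have han : AnalyticAt ℝ (fun t => ∑ j, mi μ (mgf id (ρ j) t)) y :=
    Finset.analyticAt_fun_sum _ fun j _ => ((H.mi_an (mi μ (mgf id (ρ j) y))).comp_of_eq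
      (analyticAt_mgf (int_of_cosh (hir j) (by rw [abs_of_pos hy]; linarith)))
      (hmi y j (hiy j)).1.symm)
  have hE := (han.frequently_eq_iff_eventually_eq (H.Pan y)).1
    ((hev.mono fun t ht => (h t ht.1 ht.2).2).frequently.filter_mono
      (nhdsWithin_mono _ fun t ht => ne_of_lt ht))
  have h4 : ∀ᶠ t : ℝ in 𝓝 y, |t| < y + r :=
    (continuous_abs.isOpen_preimage _ isOpen_Iio).mem_nhds
      (by simp only [mem_preimage, mem_Iio, abs_of_pos hy]; linarith)
  filter_upwards [hE, h4] with t a b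
  exact ⟨fun j => (cosh_mono (hir j) (b.le.trans (le_abs_self _))).1, a⟩

theorem Dec.all (H : Dec μ ρ η Ψ P) (y : ℝ) (hy : 0 ≤ y) :
    (∀ j, Integrable (fun x => Real.cosh (y * x)) (ρ j)) ∧ ∑ j, mi μ (mgf id (ρ j) y) = P y := by
  by_contra hcon
  set B := {y : ℝ | 0 ≤ y ∧ ¬ ((∀ j, Integrable (fun x => Real.cosh (y * x)) (ρ j)) ∧
    ∑ j, mi μ (mgf id (ρ j) y) = P y)} with hB
  have hne : B.Nonempty := ⟨y, hy, hcon⟩
  have hbd : BddBelow B := ⟨0, fun t ht => ht.1⟩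
  have h0 : 0 ≤ sInf B := le_csInf hne fun t ht => ht.1
  have hev : ∀ᶠ t in 𝓝 (sInf B), t ∉ B := by
    rcases h0.eq_or_lt with h | h
    · obtain ⟨σ, -, -, -, h'⟩ := H.stepB
      rw [← h]
      exact h'.mono fun t ht hb => hb.2 ⟨ht.1, ht.2.2⟩
    · refine (H.stepC h fun t a b => ?_).mono fun t ht hb => hb.2 ht
      by_contra hc
      exact notMem_of_lt_csInf b hbd ⟨a, hc⟩
  exact (mem_closure_iff_frequently.1 (csInf_mem_closure hne hbd)) hev

theorem Dec.exF (H : Dec μ ρ η Ψ P) (j : Fin 2) (t : ℝ) :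
    Integrable (fun w => Real.exp (t * w)) (ρ j) :=
  exp_of_cosh ((H.all |t| (abs_nonneg t)).1 j) le_rfl

/-- real solutions on the whole real axis -/
theorem Dec.real (H : Dec μ ρ η Ψ P) (y : ℝ) : ∃ a b : ℝ, 0 ≤ a ∧ 0 ≤ b ∧ a + b = P y ∧
    mgf id (ρ 0) y = mgf id μ a ∧ mgf id (ρ 1) y = mgf id μ b := by
  have hpr := H.pr
  have hsym := H.sym
  obtain ⟨h1, h2⟩ := H.all |y| (abs_nonneg y)
  have e : ∀ j, mgf id (ρ j) |y| = mgf id (ρ j) y := fun j => by
    rcases abs_choice y with h | h <;> rw [h]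
    have := cmgf_even (ν := ρ j) y
    rw [← Complex.ofReal_neg, complexMGF_ofReal, complexMGF_ofReal] at this
    exact_mod_cast this
  have eP : P |y| = P y := by
    rcases abs_choice y with h | h <;> rw [h]
    have := H.even y
    rw [← Complex.ofReal_neg, H.hP, H.hP] at this
    exact_mod_cast this
  have hmi := fun j => H.m_mi (int_cosh (h1 j) ▸ one_le_cosh_int (h1 j))
  rw [Fin.sum_univ_two, eP] at h2
  exact ⟨_, _, (hmi 0).2, (hmi 1).2, h2, by rw [(hmi 0).1, e], by rw [(hmi 1).1, e]⟩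

theorem Dec.hyp (H : Dec μ ρ η Ψ P) (hF : ∃ x, deriv (complexMGF id (ρ 0)) x ≠ 0) :
    Hyp (complexMGF id μ) (complexMGF id (ρ 0)) (complexMGF id (ρ 1)) Ψ where
  hM := diff_of_all H.ex
  h1 := diff_of_all (H.exF 0)
  h2 := diff_of_all (H.exF 1)
  hΨ := H.hΨ
  d0 := H.d0
  hF := hF
  uniq := fun y s s' h1 h2 h3 h4 => by
    obtain ⟨a, b, -, -, hab, ha, hb⟩ := H.real y
    rw [complexMGF_ofReal, ha] at h1 h3
    rw [complexMGF_ofReal, hb, H.hP, ← hab] at h2 h4
    have := (H.uniq h1 h2).add (H.uniq h3 h4).neg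
    rwa [show s - a + -(s' - a) = s - s' by ring] at this
  perim := fun t ht => H.perim ht
  big := by
    refine tendsto_atTop_mono (fun x => ?_) H.big
    rw [complexMGF_ofReal, Complex.norm_real]; exact le_abs_self _
  base := by
    obtain ⟨σ, h0, h, -⟩ := H.stepB
    exact ⟨σ, h.1, h0, h.2⟩

end Pool.Agent.MP_9cb8e5_pr.H67
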