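import Pool.Agent.MP_9cb8e5_pr.H67.MainA

/-! A Baire category argument: rigid transforms with arbitrarily heavy tails. -/

open MeasureTheory Set Filter Topology ProbabilityTheory

namespace Pool.Agent.MP_9cb8e5_pr.H67

theorem tight_of_modulus {ω : ℝ → ℝ} (hω : Tendsto ω (𝓝 0) (𝓝 0)) : IsCompact (closure
    {ρ : ProbabilityMeasure ℝ | ∀ ξ, ‖1 - charFun (ρ : Measure ℝ) ξ‖ ≤ ω ξ}) := by
  refine isCompact_closure_of_isTightMeasureSet (isTightMeasureSet_of_tendsto_measure_norm_gt ?_)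
  refine ENNReal.tendsto_nhds_zero.2 fun ε hε => ?_
  obtain ⟨e, he0, he⟩ := ENNReal.lt_iff_exists_nnreal_btwn.1 hε
  have he0' : (0 : ℝ) < e := by exact_mod_cast he0
  obtain ⟨δ, hδ, h⟩ := Metric.eventually_nhds_iff.1 (hω.eventually (gt_mem_nhds (half_pos he0')))
  filter_upwards [eventually_gt_atTop (2 / δ)] with r hr
  have hr0 : 0 < r := lt_trans (by positivity) hr
  refine iSup₂_le ?_
  rintro _ ⟨ρ, hρ, rfl⟩
  refine le_trans ?_ he.le
  have h1 := measureReal_abs_gt_le_integral_charFun (μ := (ρ : Measure ℝ)) hr0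
  have h2 : ‖∫ t in (-2 * r⁻¹)..(2 * r⁻¹), 1 - charFun (ρ : Measure ℝ) t‖ ≤
      e / 2 * |2 * r⁻¹ - -2 * r⁻¹| := by
    refine intervalIntegral.norm_integral_le_of_norm_le_const fun t ht => (hρ t).trans (h ?_).le
    have h3 : 2 * r⁻¹ < δ := by rwa [← div_eq_mul_inv, div_lt_comm₀ hr0 hδ]
    have h4 : 0 < r⁻¹ := by positivity
    rw [uIoc_of_le (by linarith)] at ht
    rw [dist_zero_right, Real.norm_eq_abs, abs_lt]
    constructor <;> linarith [ht.1, ht.2]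
  rw [abs_of_pos (by have : 0 < r⁻¹ := by positivity
                     linarith)] at h2
  have h3 : (ρ : Measure ℝ).real {x | r < |x|} ≤ e := by
    refine h1.trans ((mul_le_mul_of_nonneg_left h2 (by positivity)).trans (le_of_eq ?_))
    field_simp; ring
  rw [← ENNReal.ofReal_coe_nnreal]
  exact (ENNReal.le_ofReal_iff_toReal_le (measure_ne_top _ _) he0'.le).2 h3

theorem cont_charFun (ξ : ℝ) :
    Continuous fun ρ : ProbabilityMeasure ℝ => charFun (ρ : Measure ℝ) ξ := by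
  refine continuous_iff_continuousAt.2 fun ρ => ?_
  simp only [ContinuousAt, charFun_eq_integral_innerProbChar]
  exact (ProbabilityMeasure.tendsto_iff_forall_integral_rclike_tendsto ℂ).1 tendsto_id _

noncomputable def psi (b : Bool) (c t ξ : ℝ) : ℝ :=
  bif b then c * ξ ^ 2 else c * (1 - Real.cos (t * ξ))

theorem propR_of_rigid {L : ℝ → ℝ} (hinj : InjOn L (Ici 0))
    (H : ∀ (b : Bool) (c t : ℝ) (ρ : Fin 2 → ProbabilityMeasure ℝ) (η : Fin 2 → ℝ → ℝ), 0 < c →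
      0 < t → (∀ j ξ, charFun (ρ j : Measure ℝ) ξ = L (η j ξ) ∧ 0 ≤ η j ξ) →
      (∀ ξ, η 0 ξ + η 1 ξ = psi b c t ξ) → ∃ a ∈ Icc (0 : ℝ) 1, ∀ ξ, η 0 ξ = a * psi b c t ξ) :
    PropR L := by
  intro f₁ f₂ ψ h1 h2 r1 r2 hψ hΦ
  obtain ⟨ρ₁, p1, c1⟩ := isCF_iff.1 h1
  obtain ⟨ρ₂, p2, c2⟩ := isCF_iff.1 h2
  set η : Fin 2 → ℝ → ℝ := ![fun ξ => Function.invFunOn L (Ici 0) (f₁ ξ),
    fun ξ => Function.invFunOn L (Ici 0) (f₂ ξ)] with hη
  have n1 : ∀ ξ, 0 ≤ η 0 ξ := fun ξ => Function.invFunOn_mem (r1 ξ)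
  have n2 : ∀ ξ, 0 ≤ η 1 ξ := fun ξ => Function.invFunOn_mem (r2 ξ)
  have e1 : ∀ ξ, L (η 0 ξ) = f₁ ξ := fun ξ => Function.invFunOn_eq (r1 ξ)
  have e2 : ∀ ξ, L (η 1 ξ) = f₂ ξ := fun ξ => Function.invFunOn_eq (r2 ξ)
  have hs : ∀ ξ, η 0 ξ + η 1 ξ = ψ ξ := fun ξ =>
    hinj (add_nonneg (n1 ξ) (n2 ξ)) (hψ.1.nonneg ξ) (hΦ ξ)
  have cf : ∀ j ξ, charFun ((![⟨ρ₁, p1⟩, ⟨ρ₂, p2⟩] : Fin 2 → ProbabilityMeasure ℝ) j : Measure ℝ)
      ξ = L (η j ξ) ∧ 0 ≤ η j ξ := Fin.forall_fin_two.2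
    ⟨fun ξ => ⟨by rw [e1]; exact c1 ξ, n1 ξ⟩, fun ξ => ⟨by rw [e2]; exact c2 ξ, n2 ξ⟩⟩
  obtain ⟨a, ha, h⟩ : ∃ a ∈ Icc (0 : ℝ) 1, ∀ ξ, η 0 ξ = a * ψ ξ := by
    rcases hψ.cases with ⟨c, hc, h⟩ | ⟨c, t, hc, ht, h⟩
    · simpa only [h, psi, cond_true] using H true c 1 _ η hc one_pos cf fun ξ => by rw [hs, h]; rfl
    · simpa only [h, psi, cond_false] using H false c t _ η hc ht cf fun ξ => by rw [hs, h]; rfl
  refine ⟨fun ξ => a * ψ ξ, fun ξ => (1 - a) * ψ ξ, hψ.1.smul ha.1, hψ.1.smul (sub_nonneg.2 ha.2),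
    funext fun ξ => ?_, funext fun ξ => ?_⟩
  · rw [← e1, h]; rfl
  · rw [← e2, Function.comp_apply]; congr 1
    linarith [h ξ, hs ξ]

def vv (w : ℕ → ℝ) (a : ℕ → Bool) (k : ℕ) : ℝ := bif a k then w k else 1

noncomputable def Lam (γ : Measure ℕ) (w : ℕ → ℝ) (a : ℕ → Bool) (s : ℝ) : ℝ :=
  ∫ k, Real.exp (-|s| * vv w a k) ∂γ

variable {γ : Measure ℕ} [IsProbabilityMeasure γ] {w : ℕ → ℝ}

theorem vv_mem (hw : ∀ k, 1 ≤ w k) (a : ℕ → Bool) (k : ℕ) : 1 ≤ vv w a k ∧ vv w a k ≤ w k := by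
  unfold vv; cases a k <;> simp [hw k]

theorem exp_vv (hw : ∀ k, 1 ≤ w k) (a : ℕ → Bool) (s : ℝ) (k : ℕ) :
    ‖Real.exp (-|s| * vv w a k)‖ ≤ 1 := by
  rw [Real.norm_of_nonneg (Real.exp_pos _).le, Real.exp_le_one_iff]
  nlinarith [(vv_mem hw a k).1, abs_nonneg s]

theorem int_vv (hw : ∀ k, 1 ≤ w k) (a : ℕ → Bool) (s : ℝ) :
    Integrable (fun k => Real.exp (-|s| * vv w a k)) γ :=
  (integrable_const (1 : ℝ)).mono' (by fun_prop) (Eventually.of_forall (exp_vv hw a s))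

theorem cont_Lam (hw : ∀ k, 1 ≤ w k) : Continuous fun p : (ℕ → Bool) × ℝ => Lam γ w p.1 p.2 := by
  refine continuous_of_dominated (fun p => by fun_prop)
    (fun p => Eventually.of_forall (exp_vv hw p.1 p.2)) (integrable_const (1 : ℝ))
    (Eventually.of_forall fun k => ?_)
  have : Continuous fun p : (ℕ → Bool) × ℝ => vv w p.1 k :=
    (continuous_of_discreteTopology (f := fun b : Bool => bif b then w k else 1)).comp
      ((continuous_apply k).comp continuous_fst)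
  fun_prop

theorem Lam_inj (hw : ∀ k, 1 ≤ w k) (a : ℕ → Bool) : InjOn (Lam γ w a) (Ici 0) := by
  refine StrictAntiOn.injOn fun s (hs : 0 ≤ s) t (ht : 0 ≤ t) hst => ?_
  have h1 : Lam γ w a t ≤ Real.exp (s - t) * Lam γ w a s := by
    rw [Lam, Lam, ← integral_const_mul]
    refine integral_mono (int_vv hw a t) ((int_vv hw a s).const_mul _) fun k => ?_
    simp only [← Real.exp_add, Real.exp_le_exp, abs_of_nonneg hs, abs_of_nonneg ht]
    nlinarith [(vv_mem hw a k).1]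
  have h2 : 0 < Lam γ w a s := integral_exp_pos (int_vv hw a s)
  have h3 : Real.exp (s - t) < 1 := Real.exp_lt_one_iff.2 (by linarith)
  nlinarith

omit [IsProbabilityMeasure γ] in
theorem Lam_map (a : ℕ → Bool) {s : ℝ} (hs : 0 ≤ s) :
    ∫ x, Real.exp (-s * x) ∂γ.map (vv w a) = Lam γ w a s := by
  rw [integral_map (by fun_prop) (by fun_prop), Lam, abs_of_nonneg hs]

theorem lap_fin (hw : ∀ k, 1 ≤ w k) {a : ℕ → Bool} {N : ℕ} (h : ∀ k, N ≤ k → a k = false) :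
    Lap (γ.map (vv w a)) where
  prob := Measure.isProbabilityMeasure_map (by fun_prop)
  nn := (ae_map_iff (by fun_prop) measurableSet_Ici).2
    (Eventually.of_forall fun k => zero_le_one.trans (vv_mem hw a k).1)
  ne := fun h0 => by
    obtain ⟨k, hk⟩ := (ae_of_ae_map (by fun_prop) h0).exists
    linarith [(vv_mem hw a k).1]
  ex := fun t => by
    rw [integrable_map_measure (by fun_prop) (by fun_prop)]
    refine (integrable_const (Real.exp (|t| * (1 + ∑ k ∈ Finset.range N, w k)))).mono'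
      (by fun_prop) (Eventually.of_forall fun k => ?_)
    have h0 : ∀ k, 0 ≤ w k := fun k => zero_le_one.trans (hw k)
    have h1 : 0 ≤ ∑ k ∈ Finset.range N, w k := Finset.sum_nonneg fun k _ => h0 k
    have h2 : vv w a k ≤ 1 + ∑ k ∈ Finset.range N, w k := by
      rcases lt_or_ge k N with hk | hk
      · linarith [(vv_mem hw a k).2,
          Finset.single_le_sum (f := w) (fun k _ => h0 k) (Finset.mem_range.2 hk)]
      · simpa [vv, h k hk] using h1
    simp only [Function.comp, Real.norm_of_nonneg (Real.exp_pos _).le, Real.exp_le_exp]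
    have := (vv_mem hw a k).1
    exact (mul_le_mul_of_nonneg_right (le_abs_self t) (by linarith)).trans (by gcongr)

/-- parameters admitting a decomposition that is quantitatively not proportional -/
def Bad (γ : Measure ℕ) (w : ℕ → ℝ) (b : Bool) (m x y : ℝ) : Set ((ℕ → Bool) × (ℝ × ℝ) ×
    (Fin 2 → ProbabilityMeasure ℝ) × (Fin 2 → ℝ → ℝ)) :=
  {p | (p.2.1.1 ∈ Icc m⁻¹ m ∧ p.2.1.2 ∈ Icc m⁻¹ m) ∧
    (∀ j ξ, charFun (p.2.2.1 j : Measure ℝ) ξ = Lam γ w p.1 (p.2.2.2 j ξ) ∧ 0 ≤ p.2.2.2 j ξ) ∧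
    (∀ ξ, p.2.2.2 0 ξ + p.2.2.2 1 ξ = psi b p.2.1.1 p.2.1.2 ξ) ∧
    m⁻¹ ≤ |p.2.2.2 0 x * psi b p.2.1.1 p.2.1.2 y - p.2.2.2 0 y * psi b p.2.1.1 p.2.1.2 x|}

theorem cont_psi (b : Bool) : Continuous fun p : (ℝ × ℝ) × ℝ => psi b p.1.1 p.1.2 p.2 := by
  cases b <;> simp only [psi, cond_true, cond_false] <;> fun_prop

theorem closed_bad (hw : ∀ k, 1 ≤ w k) (b : Bool) {m : ℝ} (hm : 1 ≤ m) (x y : ℝ) :
    IsClosed (Prod.fst '' Bad γ w b m x y) := by
  have hp : ∀ ξ, Continuous fun p : (ℕ → Bool) × (ℝ × ℝ) × (Fin 2 → ProbabilityMeasure ℝ) ×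
      (Fin 2 → ℝ → ℝ) => psi b p.2.1.1 p.2.1.2 ξ := fun ξ =>
    (cont_psi b).comp (continuous_snd.fst.prodMk continuous_const)
  have hc : IsClosed (Bad γ w b m x y) := by
    simp only [Bad, ofPred_and, ofPred_forall]
    refine ((isClosed_Icc.preimage (by fun_prop)).inter (isClosed_Icc.preimage (by fun_prop))).inter
      ((isClosed_iInter fun j => isClosed_iInter fun ξ => (isClosed_eq ?_ ?_).inter
        (isClosed_le continuous_const (by fun_prop))).inter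
      ((isClosed_iInter fun ξ => isClosed_eq (by fun_prop) (hp ξ)).inter
        (isClosed_le continuous_const ?_)))
    · exact (cont_charFun ξ).comp (by fun_prop)
    · exact Complex.continuous_ofReal.comp
        ((cont_Lam hw).comp (continuous_fst.prodMk ((continuous_apply ξ).comp
          ((continuous_apply j).comp continuous_snd.snd.snd))))
    · have := hp x
      have := hp y
      fun_prop
  have hω : Tendsto (fun ξ => 1 - Lam γ w (fun _ => true) (m ^ 3 * ξ ^ 2)) (𝓝 0) (𝓝 0) := by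
    have : Continuous fun ξ : ℝ => 1 - Lam γ w (fun _ => true) (m ^ 3 * ξ ^ 2) :=
      continuous_const.sub ((cont_Lam hw).comp (f := fun ξ => (fun _ => true, m ^ 3 * ξ ^ 2))
        (by fun_prop))
    simpa [Lam] using this.tendsto 0
  have hK := isCompact_univ (X := ℕ → Bool).prod ((isCompact_Icc (a := m⁻¹) (b := m).prod
    (isCompact_Icc (a := m⁻¹) (b := m))).prod ((isCompact_univ_pi fun _ : Fin 2 =>
      tight_of_modulus hω).prod (isCompact_univ_pi fun _ : Fin 2 => isCompact_univ_pi fun ξ : ℝ =>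
        isCompact_Icc (a := (0 : ℝ)) (b := m ^ 3 * ξ ^ 2))))
  refine ((hK.of_isClosed_subset hc ?_).image continuous_fst).isClosed
  rintro ⟨a, ⟨c, t⟩, ρ, η⟩ ⟨⟨h1, h2⟩, h3, h4, -⟩
  simp only at h1 h2 h3 h4
  have hm' : 0 < m⁻¹ := by positivity
  have h5 : ∀ j ξ, η j ξ ≤ m ^ 3 * ξ ^ 2 := fun j ξ => by
    have a1 : η j ξ ≤ psi b c t ξ := by
      have := (h3 0 ξ).2
      have := (h3 1 ξ).2
      rw [← h4]; fin_cases j <;> simp <;> linarith
    refine a1.trans ?_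
    have a2 : 0 ≤ c := hm'.le.trans h1.1
    have a3 : 0 ≤ t := hm'.le.trans h2.1
    have a4 : m ≤ m ^ 3 := le_self_pow₀ hm (by norm_num)
    cases b
    · have a5 : 1 - Real.cos (t * ξ) ≤ t ^ 2 * ξ ^ 2 := by
        nlinarith [Real.one_sub_sq_div_two_le_cos (x := t * ξ), sq_nonneg (t * ξ)]
      calc c * (1 - Real.cos (t * ξ)) ≤ c * (t ^ 2 * ξ ^ 2) := by gcongr
        _ ≤ m * (m ^ 2 * ξ ^ 2) := by gcongr; exacts [h1.2, h2.2]
        _ = _ := by ring
    · exact mul_le_mul_of_nonneg_right (h1.2.trans a4) (sq_nonneg ξ)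
  refine ⟨trivial, ⟨h1, h2⟩, fun j _ => subset_closure fun ξ => ?_, fun j _ ξ _ =>
    ⟨(h3 j ξ).2, h5 j ξ⟩⟩
  have a1 : Lam γ w a (η j ξ) ≤ 1 := by
    simpa [Lam] using integral_mono (int_vv (γ := γ) hw a (η j ξ)) (integrable_const (1 : ℝ))
      fun k => (le_abs_self _).trans (exp_vv hw a _ k)
  simp only
  rw [(h3 j ξ).1, ← Complex.ofReal_one, ← Complex.ofReal_sub, Complex.norm_real,
    Real.norm_of_nonneg (sub_nonneg.2 a1), sub_le_sub_iff_left]
  refine integral_mono (int_vv hw _ _) (int_vv hw _ _) fun k => ?_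
  simp only [Real.exp_le_exp, neg_mul, neg_le_neg_iff]
  rw [abs_of_nonneg (h3 j ξ).2, abs_of_nonneg (by positivity)]
  have := vv_mem hw a k
  exact mul_le_mul (h5 j ξ) this.2 (by linarith) (by positivity)

theorem fin_not_bad (hw : ∀ k, 1 ≤ w k) (b : Bool) {m : ℝ} (hm : 1 ≤ m) (x y : ℝ) {a : ℕ → Bool}
    {N : ℕ} (h : ∀ k, N ≤ k → a k = false) : a ∉ Prod.fst '' Bad γ w b m x y := by
  rintro ⟨⟨a, ⟨c, t⟩, ρ, η⟩, ⟨⟨h1, h2⟩, h3, h4, h5⟩, rfl⟩
  simp only at h h1 h2 h3 h4 h5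
  have hm' : 0 < m⁻¹ := by positivity
  have cf : ∀ j ξ, charFun (ρ j : Measure ℝ) ξ = mgf id (γ.map (vv w a)) (-η j ξ) := fun j ξ => by
    rw [(h3 j ξ).1, ← Lam_map a (h3 j ξ).2]; rfl
  obtain ⟨e, -, he⟩ : ∃ e ∈ Icc (0 : ℝ) 1, ∀ ξ, η 0 ξ = e * (η 0 ξ + η 1 ξ) := by
    cases b
    · exact rigid_cos (lap_fin hw h) (fun j => inferInstance) cf (fun j ξ => (h3 j ξ).2)
        (hm'.trans_le h1.1) (hm'.trans_le h2.1) h4
    · exact rigid_sq (lap_fin hw h) (fun j => inferInstance) cf (fun j ξ => (h3 j ξ).2)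
        (hm'.trans_le h1.1) h4
  rw [he x, he y, h4, h4, mul_right_comm, sub_self, abs_zero] at h5
  linarith

theorem dense_of_tail {S : Set (ℕ → Bool)} (v : Bool)
    (h : ∀ (a : ℕ → Bool) (N : ℕ), (∀ k, N ≤ k → a k = v) → a ∈ S) : Dense S := fun a => by
  refine mem_closure_of_tendsto (b := atTop) (f := fun N k => if k < N then a k else v)
    (tendsto_pi_nhds.2 fun k => tendsto_const_nhds.congr' ?_)
    (Eventually.of_forall fun N => h _ N fun k hk => if_neg (not_lt.2 hk))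
  filter_upwards [eventually_gt_atTop k] with N hN using (if_pos hN).symm

theorem exists_good (hw : ∀ k, 1 ≤ w k) : ∃ a : ℕ → Bool, (∀ m, ∃ k, m ≤ k ∧ a k = true) ∧
    ∀ L : ℝ → ℝ, (∀ s, 0 ≤ s → L s = Lam γ w a s) → PropR L := by
  have h1 : ∀ m : ℕ, (1 : ℝ) ≤ m + 1 := fun m => by simp
  obtain ⟨a, ha⟩ := (dense_iInter_of_isOpen (f := fun i : Bool × ℕ × ℚ × ℚ =>
    (Prod.fst '' Bad γ w i.1 (i.2.1 + 1) i.2.2.1 i.2.2.2)ᶜ ∩ ⋃ k ≥ i.2.1, {a | a k = true})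
    (fun i => (closed_bad hw _ (h1 _) _ _).isOpen_compl.inter (isOpen_biUnion fun k _ =>
      (isOpen_discrete {true}).preimage (continuous_apply (A := fun _ => Bool) k)))
    fun i => (dense_of_tail false fun a N h => fin_not_bad hw _ (h1 _) _ _ h).inter_of_isOpen_left
      (dense_of_tail true fun a N h => mem_iUnion₂.2
        ⟨max N i.2.1, le_max_right _ _, h _ (le_max_left _ _)⟩)
      (closed_bad hw _ (h1 _) _ _).isOpen_compl).nonempty
  rw [mem_iInter] at ha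
  refine ⟨a, fun m => by simpa using (ha (true, m, 0, 0)).2, fun L hL => ?_⟩
  have hinj : InjOn L (Ici 0) := (Lam_inj hw a).congr fun s hs => (hL s hs).symm
  refine propR_of_rigid hinj fun b c t ρ η hc ht h3 h4 => ?_
  have hψ : Continuous (psi b c t) := (cont_psi b).comp (f := fun ξ => ((c, t), ξ)) (by fun_prop)
  have key : ∀ x y : ℚ, η 0 x * psi b c t y = η 0 y * psi b c t x := fun x y => by
    by_contra hne
    have h5 := abs_pos.2 (sub_ne_zero.2 hne)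
    have t1 : Tendsto (fun m : ℕ => (m : ℝ) + 1) atTop atTop :=
      tendsto_natCast_atTop_atTop.atTop_add tendsto_const_nhds
    have t2 := t1.inv_tendsto_atTop
    obtain ⟨m, a1, a2, a3, a4, a5⟩ := ((t2.eventually (ge_mem_nhds hc)).and
      ((t1.eventually_ge_atTop c).and ((t2.eventually (ge_mem_nhds ht)).and
      ((t1.eventually_ge_atTop t).and (t2.eventually (ge_mem_nhds h5)))))).exists
    exact (ha (b, m, x, y)).1 ⟨(a, (c, t), ρ, η), ⟨⟨⟨a1, a2⟩, a3, a4⟩,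
      fun j ξ => ⟨by rw [← hL _ (h3 j ξ).2]; exact (h3 j ξ).1, (h3 j ξ).2⟩, h4, a5⟩, rfl⟩
  obtain ⟨q, hq⟩ : ∃ q : ℚ, psi b c t q ≠ 0 := by
    by_contra hcon
    push Not at hcon
    have := congrFun (Rat.denseRange_cast.equalizer hψ continuous_const (funext hcon)) (Real.pi / t)
    cases b
    · simp [psi, mul_div_cancel₀ _ ht.ne', hc.ne'] at this
    · simp [psi, hc.ne', ht.ne'] at this
  have hn : ∀ ξ, 0 ≤ psi b c t ξ := fun ξ => h4 ξ ▸ add_nonneg (h3 0 ξ).2 (h3 1 ξ).2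
  have hq' : 0 < psi b c t q := lt_of_le_of_ne (hn q) hq.symm
  have he0 : 0 ≤ η 0 q / psi b c t q := div_nonneg (h3 0 q).2 hq'.le
  refine ⟨η 0 q / psi b c t q, ⟨he0, (div_le_one hq').2 (by linarith [h4 q, (h3 1 q).2])⟩,
    fun ξ => hinj (h3 0 ξ).2 (mul_nonneg he0 (hn ξ)) ?_⟩
  have := congrFun (Rat.denseRange_cast.equalizer (g := fun ξ : ℝ => charFun (ρ 0 : Measure ℝ) ξ)
    (h := fun ξ => (Lam γ w a (η 0 q / psi b c t q * psi b c t ξ) : ℂ)) continuous_charFun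
    (Complex.continuous_ofReal.comp ((cont_Lam hw).comp
      (f := fun ξ => (a, η 0 q / psi b c t q * psi b c t ξ)) (by fun_prop)))
    (funext fun x => by
      simp only [Function.comp]
      rw [(h3 0 x).1, hL _ (h3 0 x).2, div_mul_eq_mul_div, ← key, mul_div_cancel_right₀ _ hq])) ξ
  rw [(h3 0 ξ).1, Complex.ofReal_inj] at this
  rw [this, hL _ (mul_nonneg he0 (hn ξ))]

theorem heavy_rigid {g : ℝ → ℝ} (hg : Tendsto g atTop (𝓝 0)) : ∃ μ : Measure ℝ,
    IsProbabilityMeasure μ ∧ μ (Iio 1) = 0 ∧ (∃ᶠ x in atTop, g x ≤ μ.real {x}) ∧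
    ∀ L : ℝ → ℝ, (∀ s, 0 ≤ s → L s = ∫ x, Real.exp (-s * x) ∂μ) → PropR L := by
  set p : unitInterval := ⟨1 / 2, by norm_num, by norm_num⟩ with hp
  have hγ : ∀ k, 0 < (geometricMeasure p).real {k} := geometricMeasure_real_singleton_pos
    (by simp [hp, Subtype.ext_iff]) (by simp [hp, Subtype.ext_iff])
  choose w hw using fun k : ℕ => ((hg.eventually (ge_mem_nhds (hγ k))).and
    (eventually_ge_atTop ((k : ℝ) + 1))).exists
  have hw1 : ∀ k, 1 ≤ w k := fun k => le_trans (by simp) (hw k).2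
  obtain ⟨a, ha, hR⟩ := exists_good (γ := geometricMeasure p) hw1
  have hm : Measurable (vv w a) := by fun_prop
  refine ⟨(geometricMeasure p).map (vv w a), Measure.isProbabilityMeasure_map hm.aemeasurable, ?_,
    frequently_atTop.2 fun x => ?_, fun L hL => hR L fun s hs => by rw [hL s hs, Lam_map a hs]⟩
  · rw [Measure.map_apply hm measurableSet_Iio]
    convert measure_empty
    · ext k; simpa using (vv_mem hw1 a k).1
    · infer_instance
  · obtain ⟨k, hk, hak⟩ := ha ⌈x⌉₊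
    refine ⟨w k, by linarith [(hw k).2, Nat.le_ceil x, (Nat.cast_le (α := ℝ)).2 hk],
      (hw k).1.trans ?_⟩
    rw [map_measureReal_apply hm (measurableSet_singleton _)]
    exact measureReal_mono (by simp [vv, hak])

end Pool.Agent.MP_9cb8e5_pr.H67
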