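import Pool.Agent.MP_9cb8e5_pr.H67.Expand

/-! The moment bootstrap at one point. -/

open Filter Topology Asymptotics PowerSeries Finset MeasureTheory

namespace Pool.Agent.MP_9cb8e5_pr.H67

/-- divided Taylor remainder -/
noncomputable def dd (K : ℝ → ℝ → ℝ) (κ : ℕ → ℝ → ℝ) (N : ℕ) (h x : ℝ) : ℝ :=
  (K h x - ∑ k ∈ range N, κ k x * h ^ k) / h ^ N

structure Ker (K : ℝ → ℝ → ℝ) (κ : ℕ → ℝ → ℝ) (δ : ℝ) : Prop where
  pos : 0 < δ
  mK : ∀ h, Measurable (K h)
  mκ : ∀ k, Measurable (κ k)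
  sign : ∀ N h x, -δ < h → h < 0 → 0 ≤ dd K κ (N + 1) h x

variable {K : ℝ → ℝ → ℝ} {κ : ℕ → ℝ → ℝ} {δ : ℝ}

theorem dd_succ (N : ℕ) {h : ℝ} (hh : h ≠ 0) (x : ℝ) :
    dd K κ N h x = κ N x + h * dd K κ (N + 1) h x := by
  simp only [dd, Finset.sum_range_succ]; field_simp; ring

theorem Ker.ev (hK : Ker K κ δ) : ∀ᶠ h in 𝓝[<] (0 : ℝ), -δ < h ∧ h < 0 :=
  ((lt_mem_nhds (show -δ < 0 by linarith [hK.pos]) : ∀ᶠ h in 𝓝 (0 : ℝ), -δ < h).filter_mono
    nhdsWithin_le_nhds).and eventually_mem_nhdsWithin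

theorem Ker.le (hK : Ker K κ δ) (N : ℕ) {h : ℝ} (x : ℝ) (h1 : -δ < h) (h2 : h < 0) :
    dd K κ (N + 1) h x ≤ κ (N + 1) x := by
  rw [dd_succ _ h2.ne]
  nlinarith [hK.sign (N + 1) h x h1 h2]

theorem Ker.nonneg (hK : Ker K κ δ) (N : ℕ) (x : ℝ) : 0 ≤ κ (N + 1) x := by
  have := hK.pos
  exact (hK.sign N (-δ / 2) x (by linarith) (by linarith)).trans
    (hK.le N x (by linarith) (by linarith))

theorem Ker.tendsto (hK : Ker K κ δ) (N : ℕ) (x : ℝ) :
    Tendsto (fun h => dd K κ (N + 1) h x) (𝓝[<] 0) (𝓝 (κ (N + 1) x)) := by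
  have h1 : Tendsto (fun h : ℝ => κ (N + 1) x + h * κ (N + 2) x) (𝓝[<] 0) (𝓝 (κ (N + 1) x)) := by
    have : Continuous fun h : ℝ => κ (N + 1) x + h * κ (N + 2) x := by fun_prop
    simpa using (this.tendsto 0).mono_left nhdsWithin_le_nhds
  refine tendsto_of_tendsto_of_tendsto_of_le_of_le' h1 tendsto_const_nhds ?_ ?_
  · filter_upwards [hK.ev] with h hh
    rw [dd_succ _ hh.2.ne]
    nlinarith [hK.le (N + 1) x hh.1 hh.2, hh.2]
  · filter_upwards [hK.ev] with h hh using hK.le N x hh.1 hh.2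

theorem Ker.mdd (hK : Ker K κ δ) (N : ℕ) (h : ℝ) : Measurable (dd K κ N h) := by
  have := hK.mK h
  have := hK.mκ
  unfold dd; fun_prop

theorem int_dd {ρ : Measure ℝ} {N : ℕ} {h : ℝ} (hI : Integrable (K h) ρ)
    (hκ : ∀ k < N, Integrable (κ k) ρ) : Integrable (dd K κ N h) ρ ∧ ∫ x, dd K κ N h x ∂ρ =
      (∫ x, K h x ∂ρ - ∑ k ∈ range N, (∫ x, κ k x ∂ρ) * h ^ k) / h ^ N := by
  have h1 : ∀ k ∈ range N, Integrable (fun x => κ k x * h ^ k) ρ :=
    fun k hk => (hκ k (mem_range.1 hk)).mul_const _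
  have h2 := integrable_finsetSum _ h1
  refine ⟨(hI.sub h2).div_const _, ?_⟩
  simp only [dd]
  rw [integral_div, integral_sub hI h2, integral_finsetSum _ h1]
  simp only [integral_mul_const]

theorem Ker.fatou (hK : Ker K κ δ) {ρ : Measure ℝ} {N : ℕ} {C : ℝ}
    (h : ∀ᶠ h in 𝓝[<] 0, Integrable (dd K κ (N + 1) h) ρ ∧ ∫ x, dd K κ (N + 1) h x ∂ρ ≤ C) :
    Integrable (κ (N + 1)) ρ := by
  refine ⟨(hK.mκ _).aestronglyMeasurable, ?_⟩
  have h1 := lintegral_liminf_le (μ := ρ) (u := 𝓝[<] (0 : ℝ))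
    (f := fun h x => ENNReal.ofReal (dd K κ (N + 1) h x))
    fun h => (hK.mdd _ h).ennreal_ofReal
  have h2 : ∀ x, liminf (fun h => ENNReal.ofReal (dd K κ (N + 1) h x)) (𝓝[<] (0 : ℝ)) =
      ‖κ (N + 1) x‖ₑ := fun x => by
    rw [Real.enorm_eq_ofReal (hK.nonneg N x)]
    exact ((ENNReal.continuous_ofReal.tendsto _).comp (hK.tendsto N x)).liminf_eq
  simp only [h2] at h1
  refine lt_of_le_of_lt (h1.trans (liminf_le_of_frequently_le' (Eventually.frequently ?_)))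
    (ENNReal.ofReal_lt_top (r := C))
  filter_upwards [h, hK.ev] with h hh h'
  rw [← ofReal_integral_eq_lintegral_ofReal hh.1
    (Eventually.of_forall fun x => hK.sign N h x h'.1 h'.2)]
  exact ENNReal.ofReal_le_ofReal hh.2

/-- the series of moments without constant term -/
noncomputable def mom (κ : ℕ → ℝ → ℝ) (ρ : Measure ℝ) : ℝ⟦X⟧ :=
  mk fun k => if k = 0 then 0 else ∫ x, κ k x ∂ρ

theorem ev_mom (ρ : Measure ℝ) (N : ℕ) (h : ℝ) : ev N (mom κ ρ) h =
    ∑ k ∈ range (N + 1), (∫ x, κ k x ∂ρ) * h ^ k - ∫ x, κ 0 x ∂ρ := by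
  simp [ev, mom, Finset.sum_range_succ']

theorem Ker.dct (hK : Ker K κ δ) {ρ : Measure ℝ} {N : ℕ}
    (hI : ∀ᶠ h in 𝓝[<] 0, Integrable (K h) ρ) (hκ : ∀ k ≤ N + 1, Integrable (κ k) ρ) :
    Ex (N + 1) (fun h => ∫ x, K h x ∂ρ - ∫ x, κ 0 x ∂ρ) (mom κ ρ) := by
  have h1 : Tendsto (fun h => ∫ x, dd K κ (N + 1) h x ∂ρ) (𝓝[<] 0) (𝓝 (∫ x, κ (N + 1) x ∂ρ)) := by
    refine tendsto_integral_filter_of_dominated_convergence (κ (N + 1))
      (Eventually.of_forall fun h => (hK.mdd _ h).aestronglyMeasurable) ?_ (hκ _ le_rfl)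
      (Eventually.of_forall fun x => hK.tendsto N x)
    filter_upwards [hK.ev] with h hh
    refine Eventually.of_forall fun x => ?_
    rw [Real.norm_of_nonneg (hK.sign N h x hh.1 hh.2)]
    exact hK.le N x hh.1 hh.2
  have h2 := (isLittleO_one_iff ℝ).2 (tendsto_sub_nhds_zero_iff.2 h1)
  have h3 := h2.mul_isBigO (isBigO_refl (fun h : ℝ => h ^ (N + 1)) (𝓝[<] 0))
  simp only [one_mul] at h3
  refine IsLittleO.congr' h3 ?_ EventuallyEq.rfl
  filter_upwards [hK.ev, hI] with h hh hi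
  have := hh.2.ne
  rw [(int_dd hi fun k hk => hκ k hk.le).2, ev_mom, Finset.sum_range_succ _ (N + 1)]
  field_simp; ring

theorem tail_le {c : ℕ → ℝ} {ρ C η : ℝ} (hρ : 0 < ρ) (hη : 0 ≤ η) (hηρ : η ≤ ρ)
    (hC : ∀ N, ∑ n ∈ range N, |c n| * ρ ^ n ≤ C) (j N : ℕ) :
    ∑ n ∈ range N, |c (n + j)| * η ^ (n + j) ≤ (η / ρ) ^ j * C := by
  have h1 : ∑ n ∈ range N, |c (n + j)| * ρ ^ (n + j) ≤ C := by
    refine le_trans ?_ (hC (j + N))
    rw [Finset.sum_range_add]
    have : 0 ≤ ∑ n ∈ range j, |c n| * ρ ^ n := Finset.sum_nonneg fun _ _ => by positivity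
    simp only [add_comm j]; linarith
  refine le_trans ?_ (mul_le_mul_of_nonneg_left h1 (by positivity))
  rw [Finset.mul_sum]
  refine Finset.sum_le_sum fun n _ => ?_
  have : η ^ n ≤ ρ ^ n := by gcongr
  calc |c (n + j)| * η ^ (n + j) = |c (n + j)| * η ^ j * η ^ n := by ring
    _ ≤ |c (n + j)| * η ^ j * ρ ^ n := by gcongr
    _ = _ := by rw [div_pow]; field_simp; ring

/-- one-sided Taylor data with a positive radius of convergence -/
def TD (Θ : ℝ → ℝ) : Prop := ∃ (θ : ℕ → ℝ) (R C : ℝ), 0 < R ∧ 0 < C ∧ θ 0 = 0 ∧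
  (∀ N, ∑ n ∈ range N, |θ n| * R ^ n ≤ C) ∧
  ∀ N, (fun y => Θ y - ∑ n ∈ range (N + 1), θ n * y ^ n) =O[𝓝[<] 0] fun y => y ^ (N + 1)

theorem td_of_analytic {Θ : ℝ → ℝ} (hΘ : AnalyticAt ℝ Θ 0) (h0 : Θ 0 = 0) : TD Θ := by
  obtain ⟨θ, R, C, hR, hC, hθ0, -, hb, hO⟩ := taylor_data hΘ
  exact ⟨θ, R, C, hR, hC, hθ0.trans h0, hb, fun N => by
    simpa using (hO (N + 1)).mono (nhdsWithin_le_nhds (s := Set.Iio 0))⟩

theorem Ker.td (hK : Ker K κ δ) (c x : ℝ) (hs : Summable fun k => κ k x) :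
    TD fun h => c * (K h x - κ 0 x) := by
  refine ⟨fun n => if n = 0 then 0 else c * κ n x, 1, |c| * (∑' k, |κ k x|) + 1, one_pos,
    by positivity, by simp, fun N => ?_, fun N => ?_⟩
  · have := mul_le_mul_of_nonneg_left (hs.abs.sum_le_tsum (range N) fun _ _ => abs_nonneg _)
      (abs_nonneg c)
    rw [Finset.mul_sum] at this
    refine le_trans (Finset.sum_le_sum fun n _ => ?_) (this.trans (by linarith))
    beta_reduce
    split_ifs
    · simpa using mul_nonneg (abs_nonneg c) (abs_nonneg _)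
    · simp [abs_mul]
  · refine IsBigO.of_bound (|c| * κ (N + 1) x) ?_
    filter_upwards [hK.ev] with h hh
    have hne : h ^ (N + 1) ≠ 0 := pow_ne_zero _ hh.2.ne
    have : c * (K h x - κ 0 x) - ∑ n ∈ range (N + 1), (if n = 0 then 0 else c * κ n x) * h ^ n =
        c * dd K κ (N + 1) h x * h ^ (N + 1) := by
      rw [dd, mul_assoc, div_mul_cancel₀ _ hne]
      simp [Finset.sum_range_succ', mul_sub, mul_add, Finset.mul_sum, mul_assoc]; ring
    rw [this, norm_mul, norm_mul, Real.norm_of_nonneg (hK.sign N h x hh.1 hh.2)]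
    have := hK.le N x hh.1 hh.2
    rw [Real.norm_eq_abs]; gcongr

theorem boot (hK : Ker K κ δ) {ι : Type} [Fintype ι] {ρ : ι → Measure ℝ} {m Θ : ℝ → ℝ}
    {s : ι → ℝ} {σ : ι → ℝ → ℝ} (hm : ∀ j, AnalyticAt ℝ m (s j)) (hd : ∀ j, 0 < deriv m (s j))
    (hΘ : TD Θ)
    (h0 : ∀ j, Integrable (κ 0) (ρ j) ∧ ∫ x, κ 0 x ∂ρ j = m (s j))
    (he : ∀ᶠ h in 𝓝[<] 0, (∀ j, Integrable (K h) (ρ j) ∧ ∫ x, K h x ∂ρ j = m (s j + σ j h) ∧
      σ j h ≤ 0) ∧ ∑ j, σ j h = Θ h) :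
    ∃ r C : ℝ, 0 < r ∧ ∀ j N, (∀ k ≤ N, Integrable (κ k) (ρ j)) ∧ nrm r N (mom κ (ρ j)) ≤ C := by
  choose c R C hR hC hc0 hc1 hcb hcO using fun j => taylor_data (hm j)
  obtain ⟨θ, R', C', hR', hC', hθ0, hθb, hθO⟩ := hΘ
  have hc : ∀ j, 0 < c j 1 := fun j => by rw [hc1]; exact hd j
  have hΘO : Θ =O[𝓝[<] 0] fun h => h := by
    simpa [hθ0] using hθO 0
  have hσO : ∀ j, σ j =O[𝓝[<] 0] fun h => h := fun j => by
    refine IsBigO.trans (IsBigO.of_bound 1 ?_) hΘO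
    filter_upwards [he] with h hh
    have h1 : ∑ i, σ i h ≤ σ j h := by
      have := Finset.single_le_sum (f := fun i => -σ i h) (fun i _ => neg_nonneg.2 (hh.1 i).2.2)
        (mem_univ j)
      rw [Finset.sum_neg_distrib] at this; linarith
    have h2 := (hh.1 j).2.2
    rw [one_mul, ← hh.2, Real.norm_eq_abs, Real.norm_eq_abs, abs_of_nonpos h2,
      abs_of_nonpos (h1.trans h2)]
    linarith
  have hσ0 : ∀ j, Tendsto (σ j) (𝓝[<] 0) (𝓝 0) := fun j =>
    (hσO j).trans_tendsto (tendsto_id.mono_left nhdsWithin_le_nhds)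
  obtain ⟨η, hη, hηR, hηC⟩ : ∃ η : ℝ, 0 < η ∧ (∀ j, η ≤ R j) ∧
      ∑ j, (c j 1)⁻¹ * ((η / R j) ^ 2 * C j) ≤ η / 4 := by
    have e1 : ∀ᶠ η in 𝓝[>] (0 : ℝ), ∀ j, η ≤ R j :=
      eventually_all.2 fun j => nhdsWithin_le_nhds (ge_mem_nhds (hR j))
    have e2 : ∀ᶠ η in 𝓝[>] (0 : ℝ), ∑ j, (c j 1)⁻¹ * (η / R j ^ 2 * C j) ≤ 1 / 4 := by
      have : Continuous fun η : ℝ => ∑ j, (c j 1)⁻¹ * (η / R j ^ 2 * C j) := by fun_prop
      exact nhdsWithin_le_nhds (this.continuousAt.eventually (ge_mem_nhds (by simp)))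
    obtain ⟨η, h1, h2, h3⟩ := (e1.and (e2.and eventually_mem_nhdsWithin)).exists
    have h3' : 0 < η := h3
    refine ⟨η, h3, h1, ?_⟩
    have := mul_le_mul_of_nonneg_left h2 h3'.le
    rw [Finset.mul_sum] at this
    refine le_trans (le_of_eq (Finset.sum_congr rfl fun j _ => by ring)) (this.trans_eq (by ring))
  set r : ℝ := min R' (η / 2 * R' / C') with hr
  have hr0 : 0 < r := by positivity
  have hT : ∀ N, nrm r N (mk θ) ≤ η / 2 := fun N => by
    have := tail_le hR' hr0.le (min_le_left _ _) hθb 1 N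
    simp only [nrm, coeff_mk, Finset.sum_range_succ', hθ0, abs_zero, zero_mul, add_zero]
    refine this.trans ?_
    rw [pow_one, div_mul_eq_mul_div, div_le_iff₀ hR', ← le_div_iff₀ hC']
    exact min_le_right _ _
  have hTx : ∀ N, Ex N Θ (mk θ) := fun N => Ex.of_bigO (by simpa [ev] using hθO N)
  set G : ι → ℝ → ℝ := fun j h => ∫ x, K h x ∂ρ j - ∫ x, κ 0 x ∂ρ j with hG
  have main : ∀ N, ∃ B : ι → ℝ⟦X⟧, ∀ j, (∀ k ≤ N, Integrable (κ k) (ρ j)) ∧
      Ex N (G j) (mom κ (ρ j)) ∧ nrm r N ((c j 1)⁻¹ • mom κ (ρ j)) ≤ η ∧ Ex N (σ j) (B j) ∧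
      coeff 0 (B j) = 0 ∧ nrm r N (B j) ≤ η := by
    intro N
    induction N with
    | zero =>
      refine ⟨fun _ => 0, fun j => ⟨fun k hk => by rw [Nat.le_zero.1 hk]; exact (h0 j).1, ?_,
        by simp [nrm, mom, hη.le], Ex.small ?_, by simp, by simp [nrm, hη.le]⟩⟩
      · have h1 : Tendsto (fun h => m (s j + σ j h) - m (s j)) (𝓝[<] 0) (𝓝 0) := by
          rw [tendsto_sub_nhds_zero_iff]
          refine (hm j).continuousAt.tendsto.comp ?_
          simpa using (hσ0 j).const_add (s j)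
        simp only [Ex, pow_zero, isLittleO_one_iff]
        refine h1.congr' ?_
        filter_upwards [he] with h hh
        simp [hG, ev, mom, (hh.1 j).2.1, (h0 j).2]
      · simpa only [pow_zero, isLittleO_one_iff] using hσ0 j
    | succ N ih =>
      obtain ⟨B, hB⟩ := ih
      set Γ : ι → ℝ⟦X⟧ := fun j => ∑ n ∈ range N, c j (n + 2) • B j ^ (n + 2) with hΓ
      have hΓx : ∀ j, Ex (N + 1) (fun h => G j h - c j 1 * σ j h) (Γ j) := fun j => by
        have h1 := Ex.sum (range N) (fun n => c j (n + 2))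
          fun n _ => (hB j).2.2.2.1.pow (hB j).2.2.2.2.1 (hσO j) n
        have h2 := Ex.small (((hcO j (N + 2)).comp_tendsto (hσ0 j)).trans_isLittleO
          (((hσO j).pow (N + 2)).trans_isLittleO (pow_isLittleO (Nat.lt_succ_self (N + 1)))))
        have h3 := h1.add h2
        rw [add_zero] at h3
        refine h3.congr ?_
        filter_upwards [he] with h hh
        simp only [hG, (hh.1 j).2.1, (h0 j).2, Function.comp, Finset.sum_range_succ', hc0]
        ring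
      have hΓn : ∀ j, nrm r (N + 1) ((c j 1)⁻¹ • Γ j) ≤ (c j 1)⁻¹ * ((η / R j) ^ 2 * C j) := by
        intro j
        rw [nrm_smul, abs_of_pos (inv_pos.2 (hc j))]
        refine mul_le_mul_of_nonneg_left ?_ (inv_pos.2 (hc j)).le
        refine (nrm_sum hr0.le _ _ _ _).trans (le_trans (Finset.sum_le_sum fun n _ => ?_)
          (tail_le (hR j) hη.le (hηR j) (hcb j) 2 N))
        refine mul_le_mul_of_nonneg_left ((nrm_pow hr0.le N (hB j).2.2.2.2.1 n).trans ?_)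
          (abs_nonneg _)
        exact pow_le_pow_left₀ (nrm_nonneg hr0.le _ _) (hB j).2.2.2.2.2 _
      set W : ℝ⟦X⟧ := mk θ + ∑ j, (c j 1)⁻¹ • Γ j with hW
      have hWx : Ex (N + 1) (fun h => ∑ j, (c j 1)⁻¹ * G j h) W := by
        refine ((hTx (N + 1)).add (Ex.sum univ (fun j => (c j 1)⁻¹) fun j _ => hΓx j)).congr ?_
        filter_upwards [he] with h hh
        rw [← hh.2, ← Finset.sum_add_distrib]
        exact Finset.sum_congr rfl fun j _ => by have := (hc j).ne'; field_simp; ring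
      have hWn : nrm r (N + 1) W ≤ 3 * η / 4 := by
        have h1 := nrm_sum hr0.le (N + 1) univ (fun _ => 1) fun j => (c j 1)⁻¹ • Γ j
        simp only [one_smul, abs_one, one_mul] at h1
        have h2 := Finset.sum_le_sum fun j (_ : j ∈ univ) => hΓn j
        linarith [nrm_add hr0.le (N + 1) (mk θ) (∑ j, (c j 1)⁻¹ • Γ j), hT (N + 1)]
      have hint : ∀ j, Integrable (κ (N + 1)) (ρ j) := by
        have h1 := hWx.lower.uniq (Ex.sum univ (fun j => (c j 1)⁻¹) fun j _ => (hB j).2.1)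
        obtain ⟨D, hD⟩ := hWx.bigO.bound
        intro j
        refine hK.fatou (C := c j 1 * D) ?_
        filter_upwards [he, hD, hK.ev] with h hh hD h'
        have h2 := fun j => int_dd (hh.1 j).1 fun k (hk : k < N + 1) => (hB j).1 k (by omega)
        refine ⟨(h2 j).1, ?_⟩
        have hne : h ^ (N + 1) ≠ 0 := pow_ne_zero _ h'.2.ne
        have h3 : ∑ j, (c j 1)⁻¹ * G j h - ev N W h =
            (∑ j, (c j 1)⁻¹ * ∫ x, dd K κ (N + 1) h x ∂ρ j) * h ^ (N + 1) := by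
          have : ev N W h = ∑ j, (c j 1)⁻¹ * ev N (mom κ (ρ j)) h := by
            simp only [ev, Finset.mul_sum]
            rw [Finset.sum_comm]
            refine Finset.sum_congr rfl fun k hk => ?_
            rw [h1 k (by simpa [Nat.lt_succ_iff] using hk), map_sum, Finset.sum_mul]
            simp [mul_assoc]
          rw [this, ← Finset.sum_sub_distrib, Finset.sum_mul]
          refine Finset.sum_congr rfl fun j _ => ?_
          rw [(h2 j).2, ev_mom, mul_assoc, div_mul_cancel₀ _ hne]; simp only [hG]; ring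
        rw [h3, norm_mul, mul_le_mul_iff_left₀ (norm_pos_iff.2 hne)] at hD
        have h4 := Finset.single_le_sum (f := fun j => (c j 1)⁻¹ * ∫ x, dd K κ (N + 1) h x ∂ρ j)
          (fun i _ => mul_nonneg (inv_pos.2 (hc i)).le
            (integral_nonneg fun x => hK.sign N h x h'.1 h'.2)) (mem_univ j)
        rw [← inv_mul_le_iff₀ (hc j)]
        exact h4.trans ((le_abs_self _).trans hD)
      have hint' : ∀ j, ∀ k ≤ N + 1, Integrable (κ k) (ρ j) := fun j k hk => by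
        rcases hk.eq_or_lt with rfl | hk
        · exact hint j
        · exact (hB j).1 k (by omega)
      have hGx : ∀ j, Ex (N + 1) (G j) (mom κ (ρ j)) := fun j =>
        hK.dct (he.mono fun h hh => (hh.1 j).1) (hint' j)
      have hA : ∀ j, nrm r (N + 1) ((c j 1)⁻¹ • mom κ (ρ j)) ≤ 3 * η / 4 := fun j => by
        have h1 := hWx.uniq (Ex.sum univ (fun j => (c j 1)⁻¹) fun j _ => hGx j)
        refine le_trans (Finset.sum_le_sum fun k hk => ?_) hWn
        refine mul_le_mul_of_nonneg_right ?_ (by positivity)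
        have h2 : ∀ i, 0 ≤ coeff k ((c i 1)⁻¹ • mom κ (ρ i)) := fun i => by
          simp only [map_smul, smul_eq_mul, mom, coeff_mk]
          refine mul_nonneg (inv_pos.2 (hc i)).le ?_
          rcases k with _ | k
          · simp
          · simpa using integral_nonneg fun x => hK.nonneg k x
        rw [h1 k (by simpa [Nat.lt_succ_iff] using hk), abs_of_nonneg (h2 j), map_sum]
        exact (Finset.single_le_sum (fun i _ => h2 i) (mem_univ j)).trans (le_abs_self _)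
      refine ⟨fun j => (c j 1)⁻¹ • mom κ (ρ j) - (c j 1)⁻¹ • Γ j, fun j =>
        ⟨hint' j, hGx j, (hA j).trans (by linarith), ?_, ?_, ?_⟩⟩
      · refine (((hGx j).smul _).sub ((hΓx j).smul _)).congr (Eventually.of_forall fun h => ?_)
        have := (hc j).ne'
        simp only; field_simp; ring
      · simp only [map_sub, map_smul, hΓ, map_sum, coeff0_pow (hB j).2.2.2.2.1, mom, coeff_mk]
        simp
      · have h2 := Finset.single_le_sum (f := fun j => (c j 1)⁻¹ * ((η / R j) ^ 2 * C j))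
          (fun i _ => by have := hc i; have := hC i; positivity) (mem_univ j)
        linarith [nrm_sub hr0.le (N + 1) ((c j 1)⁻¹ • mom κ (ρ j)) ((c j 1)⁻¹ • Γ j), hA j, hΓn j]
  refine ⟨r, ∑ j, c j 1 * η, hr0, fun j N => ?_⟩
  obtain ⟨B, hB⟩ := main N
  refine ⟨(hB j).1, le_trans ?_ (Finset.single_le_sum (f := fun j => c j 1 * η)
    (fun i _ => by have := hc i; positivity) (mem_univ j))⟩
  have := (hB j).2.2.1
  rwa [nrm_smul, abs_of_pos (inv_pos.2 (hc j)), inv_mul_le_iff₀ (hc j)] at this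

end Pool.Agent.MP_9cb8e5_pr.H67
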