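import Pool.Agent.MP_9cb8e5_pr.H67.Defs

/-! The cone of exponents and its indecomposable elements. -/

open MeasureTheory Set Filter Topology Real

namespace Pool.Agent.MP_9cb8e5_pr.H67

theorem one_sub_cos_le (t ξ : ℝ) : 1 - cos (t * ξ) ≤ (2 + ξ ^ 2) * min 1 (t ^ 2) := by
  rcases le_total 1 (t ^ 2) with h | h
  · rw [min_eq_left h]; nlinarith [neg_one_le_cos (t * ξ)]
  · rw [min_eq_right h]; nlinarith [one_sub_sq_div_two_le_cos (x := t * ξ), sq_nonneg (t * ξ)]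

theorem int_cos_lev {ν : Measure ℝ} (h : Integrable (fun t : ℝ => min 1 (t ^ 2)) ν) (ξ : ℝ) :
    Integrable (fun t => 1 - cos (t * ξ)) ν :=
  (h.const_mul (2 + ξ ^ 2)).mono' (by fun_prop) (Eventually.of_forall fun t => by
    rw [norm_of_nonneg (sub_nonneg.2 (cos_le_one _))]; exact one_sub_cos_le t ξ)

theorem InC.nonneg {ψ : ℝ → ℝ} (h : InC ψ) (ξ : ℝ) : 0 ≤ ψ ξ := by
  obtain ⟨σ, ν, -, -, -, h⟩ := h
  rw [h]
  exact add_nonneg (by positivity) (integral_nonneg fun t => sub_nonneg.2 (cos_le_one _))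

theorem InC.smul {ψ : ℝ → ℝ} (h : InC ψ) {a : ℝ} (ha : 0 ≤ a) : InC fun ξ => a * ψ ξ := by
  obtain ⟨σ, ν, h1, h2, h3, h⟩ := h
  refine ⟨√a * σ, ENNReal.ofReal a • ν, by positivity, by simp [h2],
    h3.smul_measure ENNReal.ofReal_ne_top, fun ξ => ?_⟩
  beta_reduce
  rw [h, integral_smul_measure, ENNReal.toReal_ofReal ha, mul_pow, sq_sqrt ha, smul_eq_mul]; ring

theorem inC_sq {σ : ℝ} (h : 0 ≤ σ) : InC fun ξ => σ ^ 2 * ξ ^ 2 / 2 :=
  ⟨σ, 0, h, by simp, by simp, by simp⟩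

theorem inC_restrict {ν : Measure ℝ} (h2 : ν (Iic 0) = 0)
    (h3 : Integrable (fun t : ℝ => min 1 (t ^ 2)) ν) (A : Set ℝ) :
    InC fun ξ => ∫ t in A, (1 - cos (t * ξ)) ∂ν :=
  ⟨0, ν.restrict A, le_rfl, Measure.absolutelyContinuous_of_le Measure.restrict_le_self h2,
    h3.restrict, by simp⟩

theorem Indec.cases {ψ : ℝ → ℝ} (h : Indec ψ) : (∃ c, 0 < c ∧ ∀ ξ, ψ ξ = c * ξ ^ 2) ∨
    ∃ c t, 0 < c ∧ 0 < t ∧ ∀ ξ, ψ ξ = c * (1 - cos (t * ξ)) := by
  obtain ⟨hC, hne, hd⟩ := h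
  obtain ⟨σ, ν, h1, h2, h3, h⟩ := id hC
  rcases h1.eq_or_lt with rfl | hσ
  swap
  · left
    obtain ⟨a, ha, e, -⟩ := hd _ _ (inC_sq h1) (inC_restrict h2 h3 univ) (by ext ξ; simp [h])
    have e' : ∀ ξ, σ ^ 2 * ξ ^ 2 / 2 = a * ψ ξ := fun ξ => congrFun e ξ
    have ha0 : 0 < a := lt_of_le_of_ne ha.1 fun h0 => by
      have := e' 1; rw [← h0] at this; nlinarith [pow_pos hσ 2]
    exact ⟨σ ^ 2 / 2 / a, by positivity, fun ξ => by field_simp; linarith [e' ξ]⟩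
  right
  simp only [ne_eq, OfNat.ofNat_ne_zero, not_false_eq_true, zero_pow, zero_mul, zero_div,
    zero_add] at h
  have hν : ν (Ioi 0) ≠ 0 := fun h0 => hne (by
    have : ν = 0 := by
      rw [← Measure.measure_univ_eq_zero, ← Iic_union_Ioi (a := (0 : ℝ))]
      exact measure_union_null h2 h0
    ext ξ; simp [h, this])
  obtain ⟨t, ht, hpos⟩ := exists_mem_forall_mem_nhdsWithin_pos_measure hν
  have ht0 : 0 < t := ht
  have key : ∀ δ, 0 < δ → δ < t / 2 → ∃ k : ℝ, ∀ ξ, |k * ψ ξ - (1 - cos (t * ξ))| ≤ δ * |ξ| := by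
    intro δ hδ hδt
    set A := Ioo (t - δ) (t + δ) with hA
    have hAm : MeasurableSet A := measurableSet_Ioo
    have hA0 := hpos A (mem_nhdsWithin_of_mem_nhds (Ioo_mem_nhds (by linarith) (by linarith)))
    have hA1 : ν A < ⊤ := lt_of_le_of_lt (measure_mono fun x hx => by
      have : t / 2 ≤ x := by linarith [hx.1]
      simp only [mem_ofPred_eq]
      rw [norm_of_nonneg (by positivity)]
      gcongr) (h3.measure_norm_ge_lt_top (ε := min 1 ((t / 2) ^ 2)) (by positivity))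
    have hm : 0 < ν.real A := ENNReal.toReal_pos hA0.ne' hA1.ne
    obtain ⟨a, -, e, -⟩ := hd _ _ (inC_restrict h2 h3 A) (inC_restrict h2 h3 Aᶜ) (by
      ext ξ; rw [h, Pi.add_apply, integral_add_compl hAm (int_cos_lev h3 ξ)])
    refine ⟨a / ν.real A, fun ξ => ?_⟩
    have e' : ∫ t in A, (1 - cos (t * ξ)) ∂ν = a * ψ ξ := congrFun e ξ
    have h5 := norm_setIntegral_le_of_norm_le_const (μ := ν) (C := δ * |ξ|)
      (f := fun x => (1 - cos (x * ξ)) - (1 - cos (t * ξ))) hA1 fun x hx => by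
        rw [sub_sub_sub_cancel_left, norm_eq_abs]
        refine (abs_cos_sub_cos_le _ _).trans ?_
        rw [← sub_mul, abs_mul]
        exact mul_le_mul_of_nonneg_right (abs_le.2 ⟨by linarith [hx.2], by linarith [hx.1]⟩)
          (abs_nonneg _)
    rw [integral_sub (int_cos_lev h3 ξ).restrict (integrableOn_const hA1.ne), e',
      setIntegral_const, smul_eq_mul, norm_eq_abs, ← div_le_iff₀ hm, ← abs_of_pos hm, ← abs_div,
      abs_of_pos hm] at h5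
    refine le_trans (le_of_eq ?_) h5
    congr 1; field_simp
  have key2 : ∀ ξ, ψ ξ = ψ (π / t) / 2 * (1 - cos (t * ξ)) := fun ξ => by
    have : ∀ᶠ δ in 𝓝[>] (0 : ℝ), |2 * ψ ξ - (1 - cos (t * ξ)) * ψ (π / t)| ≤
        δ * (|π / t| * |ψ ξ| + |ξ| * |ψ (π / t)|) := by
      filter_upwards [Ioo_mem_nhdsGT (half_pos ht0)] with δ hδ
      obtain ⟨k, hk⟩ := key δ hδ.1 hδ.2
      have a1 := hk (π / t)
      rw [mul_div_cancel₀ _ ht0.ne', cos_pi] at a1
      have a2 := hk ξ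
      have : 2 * ψ ξ - (1 - cos (t * ξ)) * ψ (π / t) = (k * ψ ξ - (1 - cos (t * ξ))) * ψ (π / t) -
        (k * ψ (π / t) - (1 - -1)) * ψ ξ := by ring
      rw [this]
      refine (abs_sub _ _).trans ?_
      rw [abs_mul, abs_mul]
      nlinarith [mul_le_mul_of_nonneg_right a1 (abs_nonneg (ψ ξ)),
        mul_le_mul_of_nonneg_right a2 (abs_nonneg (ψ (π / t)))]
    have hlim : Tendsto (fun δ : ℝ => δ * (|π / t| * |ψ ξ| + |ξ| * |ψ (π / t)|)) (𝓝[>] 0) (𝓝 0) := by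
      have : Continuous fun δ : ℝ => δ * (|π / t| * |ψ ξ| + |ξ| * |ψ (π / t)|) := by fun_prop
      simpa using (this.tendsto 0).mono_left nhdsWithin_le_nhds
    have := abs_nonpos_iff.1 (ge_of_tendsto hlim this)
    linarith
  refine ⟨_, t, lt_of_le_of_ne (by have := hC.nonneg (π / t); positivity) fun h0 => hne ?_,
    ht0, key2⟩
  ext ξ; rw [key2, ← h0]; simp

end Pool.Agent.MP_9cb8e5_pr.H67
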