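import Mathlib

/-! Maximum principle on the curve `M s = F z`. -/

open Complex Filter Topology Set Metric

namespace Pool.Agent.MP_9cb8e5_pr.H67

theorem maxP {E : Type*} [TopologicalSpace E] [T2Space E] {K : Set E} (hK : IsCompact K)
    {G p : E → ℂ} (hG : ContinuousOn G K) (hp : Continuous p) {B : ℝ}
    (h : ∀ q ∈ K, B < ‖G q‖ → ∃ γ : ℂ → E, γ (p q) = q ∧
      (∀ᶠ z in 𝓝 (p q), γ z ∈ K ∧ p (γ z) = z ∧ DifferentiableAt ℂ (fun w => G (γ w)) z)) :
    ∀ q ∈ K, ‖G q‖ ≤ B := by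
  intro q0 hq0
  by_contra hcon
  push Not at hcon
  obtain ⟨q1, hq1, hmax⟩ := hK.exists_isMaxOn ⟨q0, hq0⟩ hG.norm
  set K' : Set E := K ∩ (fun q => ‖G q‖) ⁻¹' {‖G q1‖} with hK'
  have hK'c : IsCompact K' :=
    hK.of_isClosed_subset (hG.norm.preimage_isClosed_of_isClosed hK.isClosed isClosed_singleton)
      inter_subset_left
  obtain ⟨q2, hq2, hmax2⟩ := hK'c.exists_isMaxOn ⟨q1, hq1, rfl⟩
    (Complex.continuous_re.comp hp).continuousOn
  have hq2n : ‖G q2‖ = ‖G q1‖ := hq2.2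
  have hB : B < ‖G q2‖ := by
    rw [hq2n]; exact lt_of_lt_of_le hcon (hmax hq0)
  obtain ⟨γ, hγ0, hγ⟩ := h q2 hq2.1 hB
  have hloc : IsLocalMax (norm ∘ fun w => G (γ w)) (p q2) := by
    filter_upwards [hγ] with z hz
    simp only [Function.comp, hγ0, hq2n]
    exact hmax hz.1
  have heq := norm_eventually_eq_of_isLocalMax (hγ.mono fun z hz => hz.2.2) hloc
  have hre : ∀ᶠ z in 𝓝 (p q2), z.re ≤ (p q2).re := by
    filter_upwards [hγ, heq] with z hz hz2
    have hm : γ z ∈ K' := ⟨hz.1, by simp only [mem_preimage, mem_singleton_iff, hz2, hγ0, hq2n]⟩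
    have := hmax2 hm
    simpa [hz.2.1] using this
  have ht : Tendsto (fun t : ℝ => p q2 + (t : ℂ)) (𝓝[>] 0) (𝓝 (p q2)) := by
    have : Tendsto (fun t : ℝ => p q2 + (t : ℂ)) (𝓝 0) (𝓝 (p q2 + ((0 : ℝ) : ℂ))) :=
      (continuous_const.add Complex.continuous_ofReal).tendsto 0
    simpa using this.mono_left nhdsWithin_le_nhds
  obtain ⟨t, ht1, ht2⟩ := ((ht.eventually hre).and self_mem_nhdsWithin).exists
  simp at ht1 ht2
  linarith

theorem loc_inv {M : ℂ → ℂ} (hM : Differentiable ℂ M) {s : ℂ} (hs : deriv M s ≠ 0) :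
    ∃ l : ℂ → ℂ, AnalyticAt ℂ l (M s) ∧ l (M s) = s ∧ (∀ᶠ x in 𝓝 s, l (M x) = x) ∧
      (∀ᶠ v in 𝓝 (M s), M (l v) = v) := by
  have ha : AnalyticAt ℂ M s := hM.analyticAt s
  refine ⟨ha.hasStrictDerivAt.localInverse _ _ _ hs, ha.analyticAt_localInverse hs, ?_,
    HasStrictDerivAt.eventually_left_inverse _ _, HasStrictDerivAt.eventually_right_inverse _ _⟩
  exact (HasStrictDerivAt.eventually_left_inverse ha.hasStrictDerivAt hs).self_of_nhds

/-- periods of `M` -/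
def Per (M : ℂ → ℂ) (t : ℂ) : Prop := ∀ s, M (s + t) = M s

theorem Per.neg {M : ℂ → ℂ} {t : ℂ} (h : Per M t) : Per M (-t) := fun s => by
  have := h (s + -t); simpa using this.symm

theorem Per.add {M : ℂ → ℂ} {t u : ℂ} (h : Per M t) (h' : Per M u) : Per M (t + u) := fun s => by
  rw [← add_assoc, h', h]

theorem Per.zero (M : ℂ → ℂ) : Per M 0 := fun s => by simp

theorem Per.zsmul {M : ℂ → ℂ} {t : ℂ} (h : Per M t) (n : ℤ) : Per M (n * t) := by
  induction n using Int.induction_on with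
  | zero => simpa using Per.zero M
  | succ n ih => have := ih.add h; push_cast at this ⊢; convert this using 1; ring
  | pred n ih => have := ih.add h.neg; push_cast at this ⊢; convert this using 1; ring

theorem Per.deriv {M : ℂ → ℂ} {t : ℂ} (h : Per M t) (s : ℂ) :
    deriv M (s + t) = deriv M s := by
  have : (fun x => M (x + t)) = M := funext h
  rw [← deriv_comp_add_const, this]

theorem isClosed_per {M : ℂ → ℂ} (hM : Continuous M) : IsClosed {t | Per M t} := by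
  have : {t | Per M t} = ⋂ s, {t | M (s + t) = M s} := by ext; simp [Per]
  rw [this]
  exact isClosed_iInter fun s => isClosed_eq (by fun_prop) continuous_const

/-- regular points of the curve near which the second equation holds along the curve -/
def Good (M F1 F2 Ψ : ℂ → ℂ) (z s : ℂ) : Prop :=
  deriv M s ≠ 0 ∧ M s = F1 z ∧
    ∀ᶠ p : ℂ × ℂ in 𝓝 (z, s), M p.2 = F1 p.1 → M (Ψ p.1 - p.2) = F2 p.1

structure Ent (M F1 F2 Ψ : ℂ → ℂ) : Prop where
  hM : Differentiable ℂ M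
  h1 : Differentiable ℂ F1
  h2 : Differentiable ℂ F2
  hΨ : Differentiable ℂ Ψ

variable {M F1 F2 Ψ : ℂ → ℂ}

theorem Good.eq2 {z s : ℂ} (h : Good M F1 F2 Ψ z s) : M (Ψ z - s) = F2 z :=
  h.2.2.self_of_nhds h.2.1

theorem Good.add_per {z s t : ℂ} (h : Good M F1 F2 Ψ z s) (ht : Per M t) :
    Good M F1 F2 Ψ z (s + t) := by
  refine ⟨by rw [ht.deriv]; exact h.1, by rw [ht]; exact h.2.1, ?_⟩
  have hc : Tendsto (fun p : ℂ × ℂ => (p.1, p.2 + -t)) (𝓝 (z, s + t)) (𝓝 (z, s)) := by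
    have : Continuous (fun p : ℂ × ℂ => (p.1, p.2 + -t)) := by fun_prop
    simpa using this.tendsto (z, s + t)
  filter_upwards [hc.eventually h.2.2] with p hp h1
  have := hp (by rw [ht.neg]; exact h1)
  rw [← this, ← ht (Ψ p.1 - p.2)]
  congr 1; ring

/-- local sections -/
theorem sect (H : Ent M F1 F2 Ψ) {z s : ℂ} (hd : deriv M s ≠ 0) (he : M s = F1 z) :
    ∃ σ : ℂ → ℂ, AnalyticAt ℂ σ z ∧ σ z = s ∧ (∀ᶠ w in 𝓝 z, M (σ w) = F1 w) ∧
      (∀ᶠ p : ℂ × ℂ in 𝓝 (z, s), M p.2 = F1 p.1 → p.2 = σ p.1) := by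
  obtain ⟨l, hl, hl0, hl1, hl2⟩ := loc_inv H.hM hd
  rw [he] at hl hl0 hl2
  refine ⟨fun w => l (F1 w), hl.comp (H.h1.analyticAt z), hl0,
    (H.h1.continuous.tendsto z).eventually hl2, ?_⟩
  filter_upwards [(continuous_snd.tendsto (z, s)).eventually hl1] with p hp h1
  rw [← h1]; exact hp.symm

theorem tendsto_sect {σ : ℂ → ℂ} {z : ℂ} (h : ContinuousAt σ z) :
    Tendsto (fun w => (w, σ w)) (𝓝 z) (𝓝 (z, σ z)) := tendsto_id.prodMk_nhds h

/-- a local solution is good where `M'` does not vanish -/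
theorem good_of_sol (H : Ent M F1 F2 Ψ) {σ : ℂ → ℂ} {z : ℂ} (hσ : ContinuousAt σ z)
    (hd : deriv M (σ z) ≠ 0)
    (h : ∀ᶠ w in 𝓝 z, M (σ w) = F1 w ∧ M (Ψ w - σ w) = F2 w) : Good M F1 F2 Ψ z (σ z) := by
  refine ⟨hd, h.self_of_nhds.1, ?_⟩
  obtain ⟨τ, _, _, _, hτ⟩ := sect H hd h.self_of_nhds.1
  have h1 : ∀ᶠ w in 𝓝 z, σ w = τ w := by
    filter_upwards [(tendsto_sect hσ).eventually hτ, h] with w hw hw2 using hw hw2.1
  filter_upwards [hτ, (continuous_fst.tendsto (z, σ z)).eventually (h.and h1)] with p hp hq h2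
  rw [hp h2, ← hq.2]; exact hq.1.2

theorem Good.sol (H : Ent M F1 F2 Ψ) {z s : ℂ} (h : Good M F1 F2 Ψ z s) :
    ∃ σ : ℂ → ℂ, AnalyticAt ℂ σ z ∧ σ z = s ∧
      (∀ᶠ w in 𝓝 z, M (σ w) = F1 w ∧ M (Ψ w - σ w) = F2 w) ∧
      (∀ᶠ w in 𝓝 z, Good M F1 F2 Ψ w (σ w)) ∧
      (∀ᶠ p : ℂ × ℂ in 𝓝 (z, s), M p.2 = F1 p.1 → p.2 = σ p.1) := by
  obtain ⟨σ, hσ, h0, h1, h2⟩ := sect H h.1 h.2.1
  have h3 : ∀ᶠ w in 𝓝 z, M (σ w) = F1 w ∧ M (Ψ w - σ w) = F2 w := by
    have := tendsto_sect hσ.continuousAt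
    rw [h0] at this
    filter_upwards [h1, this.eventually h.2.2] with w hw hw2 using ⟨hw, hw2 hw⟩
  refine ⟨σ, hσ, h0, h3, ?_, h2⟩
  have hd : ∀ᶠ w in 𝓝 z, deriv M (σ w) ≠ 0 := by
    have : ContinuousAt (fun w => deriv M (σ w)) z :=
      (H.hM.deriv.continuous.continuousAt).comp hσ.continuousAt
    exact this.eventually_ne (by rw [h0]; exact h.1)
  filter_upwards [hd, h3.eventually_nhds, hσ.eventually_analyticAt] with w a b c
  exact good_of_sol H c.continuousAt a b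

/-- `Good` is closed among regular points -/
theorem good_of_freq (H : Ent M F1 F2 Ψ) {z s : ℂ} (hd : deriv M s ≠ 0)
    (h : ∃ᶠ p : ℂ × ℂ in 𝓝 (z, s), Good M F1 F2 Ψ p.1 p.2) : Good M F1 F2 Ψ z s := by
  have he : M s = F1 z := by
    have hc : IsClosed {p : ℂ × ℂ | M p.2 = F1 p.1} :=
      isClosed_eq (H.hM.continuous.comp continuous_snd) (H.h1.continuous.comp continuous_fst)
    exact hc.closure_subset (mem_closure_iff_frequently.2 (h.mono fun p hp => hp.2.1))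
  obtain ⟨σ, hσ, h0, h1, h2⟩ := sect H hd he
  have hG : AnalyticAt ℂ (fun w => M (Ψ w - σ w) - F2 w) z :=
    ((H.hM.analyticAt _).fun_comp ((H.hΨ.analyticAt z).sub hσ)).sub (H.h2.analyticAt z)
  have hfr : ∃ᶠ w in 𝓝 z, ∀ᶠ v in 𝓝 w, M (Ψ v - σ v) - F2 v = 0 := by
    have h4 := (continuous_fst.tendsto (z, s)).eventually
      (h1.eventually_nhds.and hσ.eventually_analyticAt)
    refine (continuous_fst.tendsto (z, s)).frequently ((h.and_eventually (h2.and h4)).mono ?_)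
    rintro ⟨w, x⟩ ⟨hg, hp, hq1, hq2⟩
    have hx : x = σ w := hp hg.2.1
    subst hx
    filter_upwards [(tendsto_sect hq2.continuousAt).eventually hg.2.2, hq1] with v a b
    exact sub_eq_zero.2 (a b)
  have hz : ∀ᶠ w in 𝓝 z, M (Ψ w - σ w) - F2 w = 0 := by
    rcases hG.eventually_eq_zero_or_eventually_ne_zero with h5 | h5
    · exact h5
    · exfalso
      rw [eventually_nhdsWithin_iff] at h5
      obtain ⟨w, hw1, hw2⟩ := (hfr.and_eventually h5.eventually_nhds).exists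
      have h6 : ∀ᶠ v in 𝓝[≠] w, v = z := by
        filter_upwards [nhdsWithin_le_nhds hw1, nhdsWithin_le_nhds hw2] with v a b
        by_contra hv
        exact b hv a
      by_cases hwz : w = z
      · subst hwz
        obtain ⟨v, a, b⟩ := (h6.and self_mem_nhdsWithin).exists
        exact b a
      · obtain ⟨v, a, b⟩ := (h6.and (nhdsWithin_le_nhds (eventually_ne_nhds hwz))).exists
        exact b a
  rw [← h0] at hd ⊢
  refine good_of_sol H hσ.continuousAt hd ?_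
  filter_upwards [h1, hz] with w a b using ⟨a, sub_eq_zero.1 b⟩

theorem finite_zeros {f : ℂ → ℂ} (hf : Differentiable ℂ f) {x : ℂ} (hx : f x ≠ 0) {K : Set ℂ}
    (hK : IsCompact K) : {z ∈ K | f z = 0}.Finite := by
  have h1 : f ⁻¹' {0}ᶜ ∈ codiscrete ℂ :=
    AnalyticOnNhd.preimage_zero_mem_codiscrete (fun z _ => hf.analyticAt z) hx
  have h2 : f ⁻¹' {0}ᶜ ∈ codiscreteWithin K := codiscreteWithin_mono (subset_univ K) h1
  convert hK.finite_sdiff_of_mem_codiscreteWithin h2 using 1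
  ext z; simp

end Pool.Agent.MP_9cb8e5_pr.H67
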