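import Mathlib

/-! The objects of the problem. -/

open MeasureTheory Set

namespace Pool.Agent.MP_9cb8e5_pr.H67

/-- `f` is the (real valued) characteristic function of a Borel probability measure on `ℝ` -/
def IsCF (f : ℝ → ℝ) : Prop :=
  ∃ ρ : Measure ℝ, IsProbabilityMeasure ρ ∧
    ∀ ξ : ℝ, (f ξ : ℂ) = ∫ x : ℝ, Complex.exp (Complex.I * ξ * x) ∂ρ

/-- the cone `𝒞` of symmetric Lévy–Khintchine exponents -/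
def InC (ψ : ℝ → ℝ) : Prop :=
  ∃ (σ : ℝ) (ν : Measure ℝ), 0 ≤ σ ∧ ν (Iic 0) = 0 ∧ Integrable (fun t : ℝ => min 1 (t ^ 2)) ν ∧
    ∀ ξ, ψ ξ = σ ^ 2 * ξ ^ 2 / 2 + ∫ t, (1 - Real.cos (t * ξ)) ∂ν

/-- indecomposable elements of `𝒞` -/
def Indec (ψ : ℝ → ℝ) : Prop :=
  InC ψ ∧ ψ ≠ 0 ∧ ∀ ψ₁ ψ₂, InC ψ₁ → InC ψ₂ → ψ = ψ₁ + ψ₂ →
    ∃ a ∈ Icc (0 : ℝ) 1, ψ₁ = a • ψ ∧ ψ₂ = (1 - a) • ψ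

/-- `Φ_L (x, y) = L (L⁻¹ x + L⁻¹ y)`, with the inverse of `L` on `[0, ∞)` -/
noncomputable def Phi (L : ℝ → ℝ) (x y : ℝ) : ℝ :=
  L (Function.invFunOn L (Ici 0) x + Function.invFunOn L (Ici 0) y)

/-- property (R) -/
def PropR (L : ℝ → ℝ) : Prop :=
  ∀ f₁ f₂ ψ : ℝ → ℝ, IsCF f₁ → IsCF f₂ → (∀ ξ, f₁ ξ ∈ L '' Ici 0) → (∀ ξ, f₂ ξ ∈ L '' Ici 0) →
    Indec ψ → (∀ ξ, Phi L (f₁ ξ) (f₂ ξ) = L (ψ ξ)) →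
    ∃ η₁ η₂, InC η₁ ∧ InC η₂ ∧ f₁ = L ∘ η₁ ∧ f₂ = L ∘ η₂

end Pool.Agent.MP_9cb8e5_pr.H67
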