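import Pool.Agent.MP_9cb8e5_pr.H67.Uniq

/-! The local solution extends to an entire solution. -/

open Complex Filter Topology Set Metric

namespace Pool.Agent.MP_9cb8e5_pr.H67

variable {M F1 F2 Ψ : ℂ → ℂ}

theorem Hyp.good0 (H : Hyp M F1 F2 Ψ) : Good M F1 F2 Ψ 0 0 := by
  obtain ⟨σ, hσ, h0, h⟩ := H.base
  have := good_of_sol H.toEnt hσ.continuousAt (by rw [h0]; exact H.d0) h
  rwa [h0] at this

theorem Hyp.per_small (H : Hyp M F1 F2 Ψ) : ∀ᶠ t in 𝓝 (0 : ℂ), Per M t → t = 0 := by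
  obtain ⟨l, -, h0, hl, -⟩ := loc_inv H.hM H.d0
  filter_upwards [hl] with t ht hp
  have := hp 0
  rw [zero_add] at this
  rw [this, h0] at ht; exact ht.symm

theorem Hyp.cluster (H : Hyp M F1 F2 Ψ) (R : ℝ) : ∃ C : ℝ, ∀ z s, ‖z‖ ≤ R →
    Good M F1 F2 Ψ z s → ∃ x, ‖x‖ ≤ C ∧ Good M F1 F2 Ψ z x := by
  obtain ⟨σ, hσ, hσ0, -, hg, -⟩ := H.good0.sol H.toEnt
  set B : ℝ := ‖Ψ 0‖ + 1 with hB
  have hB1 : 1 ≤ B := by have := norm_nonneg (Ψ 0); linarith
  have e1 : ∀ᶠ w in 𝓝 (0 : ℂ), ‖σ w‖ < B :=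
    hσ.continuousAt.norm.eventually_lt continuousAt_const (by rw [hσ0, norm_zero]; linarith)
  have e2 : ∀ᶠ w in 𝓝 (0 : ℂ), ‖Ψ w - σ w‖ < B :=
    (H.hΨ.continuous.continuousAt.sub hσ.continuousAt).norm.eventually_lt continuousAt_const
      (by simp [hσ0, hB])
  obtain ⟨ρ, hρ, hin⟩ := nhds_basis_closedBall.eventually_iff.1 (hg.and (e1.and e2))
  have hin' : ∀ z s, ‖z‖ ≤ ρ → Good M F1 F2 Ψ z s →
      Per M (s - σ z) ∧ ‖σ z‖ < B ∧ ‖Ψ z - σ z‖ < B := by
    intro z s hz hs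
    have := hin (x := z) (by simpa using hz)
    exact ⟨H.uniq_good hs this.1, this.2⟩
  set R0 := max R (ρ + 1) with hR0
  have hρR : ρ < R0 := lt_of_lt_of_le (by linarith) (le_max_right _ _)
  obtain ⟨A0, hA0, hA⟩ := H.large (R0 + 1)
  by_cases hper : ∀ t, Per M t → t = 0
  · obtain ⟨C, hC⟩ := H.bound_good (χ := fun p => p.2) differentiable_snd hρ
      (A := max A0 (2 * B)) (by positivity) hρR
      (by
        intro z s hz h1 _ x hx hsx
        have := (hA x ((le_max_left _ _).trans hx) z hz).1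
        rw [← hsx, h1] at this; linarith)
      (by
        intro z s hz hs
        obtain ⟨a, b, -⟩ := hin' z s hz hs
        have : s = σ z := sub_eq_zero.1 (hper _ a)
        simp only [this]
        linarith [le_max_right A0 (2 * B)])
    exact ⟨C, fun z s hz hs => ⟨s, hC z s (hz.trans (le_max_left _ _)) hs, hs⟩⟩
  push Not at hper
  obtain ⟨τ, hτ, hτp⟩ : ∃ τ : ℝ, 0 < τ ∧ Per M (τ * I) := by
    obtain ⟨t, ht, ht0⟩ := hper
    have h1 : t = t.im * I := Complex.ext (by simp [H.perim t ht]) (by simp)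
    have h2 : t.im ≠ 0 := fun h => ht0 (by rw [h1, h]; simp)
    rcases lt_or_gt_of_ne h2 with h | h
    · refine ⟨-t.im, by linarith, ?_⟩
      have := ht.neg; rw [h1] at this; simpa using this
    · exact ⟨t.im, h, h1 ▸ ht⟩
  set κ : ℝ := 2 * Real.pi / τ with hκ
  have hκ0 : 0 < κ := by positivity
  set A : ℝ := max (Real.exp (κ * A0)) (2 * Real.exp (κ * B)) with hAdef
  have hApos : 0 < A := by positivity
  have hom : ∀ (u : ℂ) (x : ℝ), A ≤ x → exp (κ * u) = x → ∃ y : ℝ, A0 ≤ y ∧ M u = M y := by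
    intro u x hx hux
    have hx0 : 0 < x := hApos.trans_le hx
    refine ⟨Real.log x / κ, ?_, ?_⟩
    · rw [le_div_iff₀ hκ0, Real.le_log_iff_exp_le hx0, mul_comm]
      exact (le_max_left _ _).trans hx
    · have h1 : exp (κ * u) = exp (κ * ((Real.log x / κ : ℝ) : ℂ)) := by
        rw [hux, ← ofReal_mul, mul_div_cancel₀ _ hκ0.ne', ← ofReal_exp, Real.exp_log hx0]
      obtain ⟨n, hn⟩ := exp_eq_exp_iff_exists_int.1 h1
      have hκc : (κ : ℂ) ≠ 0 := by exact_mod_cast hκ0.ne'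
      have hτc : (τ : ℂ) ≠ 0 := by exact_mod_cast hτ.ne'
      have h2 : u = ((Real.log x / κ : ℝ) : ℂ) + n * (τ * I) := by
        apply mul_left_cancel₀ hκc
        rw [hn, mul_add]
        congr 1
        simp only [hκ]; push_cast; field_simp
      rw [h2, hτp.zsmul n]
  have hnorm : ∀ u : ℂ, ‖exp (κ * u)‖ = Real.exp (κ * u.re) := by
    intro u; rw [norm_exp, re_ofReal_mul]
  have hinb : ∀ u v : ℂ, (u - v).re = 0 → ‖v‖ < B → ‖exp (κ * u)‖ ≤ A / 2 := by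
    intro u v h1 h2
    rw [hnorm]
    have h3 : u.re ≤ B := by
      have := re_le_norm v
      rw [sub_re] at h1; linarith
    have h4 : Real.exp (κ * u.re) ≤ Real.exp (κ * B) := by gcongr
    linarith [le_max_right (Real.exp (κ * A0)) (2 * Real.exp (κ * B))]
  obtain ⟨C1, hC1⟩ := H.bound_good (χ := fun p => exp (κ * p.2)) (by fun_prop) hρ hApos hρR
    (by
      intro z s hz h1 _ x hx hsx
      obtain ⟨y, hy, h2⟩ := hom s x hx hsx
      have := (hA y hy z hz).1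
      rw [← h2, h1] at this; linarith)
    (by
      intro z s hz hs
      obtain ⟨a, b, -⟩ := hin' z s hz hs
      exact hinb s (σ z) (H.perim _ a) b)
  have hΨd := H.hΨ
  obtain ⟨C2, hC2⟩ := H.bound_good (χ := fun p => exp (κ * (Ψ p.1 - p.2))) (by fun_prop) hρ
    hApos hρR
    (by
      intro z s hz _ h1 x hx hsx
      obtain ⟨y, hy, h2⟩ := hom _ x hx hsx
      have := (hA y hy z hz).2
      rw [← h2, h1] at this; linarith)
    (by
      intro z s hz hs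
      obtain ⟨a, -, b⟩ := hin' z s hz hs
      refine hinb _ (Ψ z - σ z) ?_ b
      have := H.perim _ a
      simp only [sub_re] at this ⊢; linarith)
  obtain ⟨D, hD⟩ := (isCompact_closedBall (0 : ℂ) R0).exists_bound_of_continuousOn
    H.hΨ.continuous.continuousOn
  refine ⟨(|C1 / κ| + |C2 / κ| + D) + τ, fun z s hz hs => ?_⟩
  have hz' : ‖z‖ ≤ R0 := hz.trans (le_max_left _ _)
  have b1 := hC1 z s hz' hs
  have b2 := hC2 z s hz' hs
  simp only [hnorm] at b1 b2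
  have b3 : s.re ≤ C1 / κ := by
    rw [le_div_iff₀ hκ0]; linarith [Real.add_one_le_exp (κ * s.re)]
  have b4 : (Ψ z - s).re ≤ C2 / κ := by
    rw [le_div_iff₀ hκ0]; linarith [Real.add_one_le_exp (κ * (Ψ z - s).re)]
  have b5 := (abs_le.1 ((abs_re_le_norm (Ψ z)).trans (hD z (by simpa using hz')))).1
  have b6 : 0 ≤ D := (norm_nonneg _).trans (hD z (by simpa using hz'))
  refine ⟨s + ((-⌊s.im / τ⌋ : ℤ) : ℂ) * (τ * I), ?_, hs.add_per (hτp.zsmul _)⟩
  refine (norm_le_abs_re_add_abs_im _).trans (add_le_add ?_ ?_)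
  · simp only [add_re, mul_re, intCast_re, ofReal_re, I_re, mul_zero, ofReal_im, I_im, mul_one,
      sub_self, intCast_im, mul_im, add_zero, zero_mul]
    rw [sub_re] at b4
    rw [abs_le]
    constructor <;> linarith [le_abs_self (C1 / κ), le_abs_self (C2 / κ), abs_nonneg (C1 / κ),
      abs_nonneg (C2 / κ)]
  · simp only [add_im, mul_im, intCast_re, ofReal_re, I_im, mul_one, ofReal_im, I_re, mul_zero,
      add_zero, intCast_im, mul_re, sub_self]
    push_cast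
    have k1 := Int.floor_le (s.im / τ)
    have k2 := Int.lt_floor_add_one (s.im / τ)
    rw [le_div_iff₀ hτ] at k1
    rw [div_lt_iff₀ hτ] at k2
    rw [abs_le]
    constructor <;> nlinarith

theorem tube {P : ℂ → ℂ → Prop} {z : ℂ} {K : Set ℂ} (hK : IsCompact K)
    (h : ∃ᶠ w in 𝓝 z, ∃ x ∈ K, P w x) : ∃ x ∈ K, ∃ᶠ p : ℂ × ℂ in 𝓝 (z, x), P p.1 p.2 := by
  by_contra hc
  push Not at hc
  have := hK.eventually_forall_of_forall_eventually (P := fun w x => ¬ P w x) (x₀ := z) hc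
  obtain ⟨w, ⟨x, hx, h1⟩, h2⟩ := (h.and_eventually this).exists
  exact h2 x hx h1

theorem preconn_punct (c : ℂ) (r : ℝ) : IsPreconnected (ball c r \ {c}) := by
  have : ball c r \ {c} = (fun p : ℝ × ℝ => c + p.1 * exp (p.2 * I)) '' (Ioo 0 r ×ˢ univ) := by
    ext z
    simp only [Set.mem_sdiff, mem_ball, dist_eq_norm, mem_singleton_iff, mem_image, mem_prod, mem_Ioo,
      mem_univ, and_true, Prod.exists]
    constructor
    · rintro ⟨h1, h2⟩
      refine ⟨‖z - c‖, arg (z - c), ⟨norm_pos_iff.2 (sub_ne_zero.2 h2), h1⟩, ?_⟩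
      rw [norm_mul_exp_arg_mul_I]; ring
    · rintro ⟨a, b, ⟨h1, h2⟩, rfl⟩
      refine ⟨by simp [norm_exp_ofReal_mul_I, abs_of_pos h1, h2], ?_⟩
      simp [h1.ne']
  rw [this]
  exact (isPreconnected_Ioo.prod isPreconnected_univ).image _ (by fun_prop)

theorem ev_ne0 {f : ℂ → ℂ} (hf : Differentiable ℂ f) {x : ℂ} (hx : f x ≠ 0) (z : ℂ) :
    ∀ᶠ w in 𝓝[≠] z, f w ≠ 0 := by
  rcases (hf.analyticAt z).eventually_eq_zero_or_eventually_ne_zero with h1 | h1
  · exact (hx (AnalyticOnNhd.eqOn_zero_of_preconnected_of_eventuallyEq_zero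
      (fun w _ => hf.analyticAt w) isPreconnected_univ (mem_univ z) h1 (mem_univ x))).elim
  · exact h1

/-- local analytic solutions -/
def Sol (M F1 F2 Ψ : ℂ → ℂ) (z : ℂ) (σ : ℂ → ℂ) : Prop :=
  AnalyticAt ℂ σ z ∧ ∀ᶠ w in 𝓝 z, M (σ w) = F1 w ∧ M (Ψ w - σ w) = F2 w

theorem Sol.ev {z : ℂ} {σ : ℂ → ℂ} (h : Sol M F1 F2 Ψ z σ) : ∀ᶠ w in 𝓝 z, Sol M F1 F2 Ψ w σ := by
  filter_upwards [h.1.eventually_analyticAt, h.2.eventually_nhds] with w a b using ⟨a, b⟩

theorem Sol.chain (H : Hyp M F1 F2 Ψ) {z : ℂ} {σ : ℂ → ℂ} (h : Sol M F1 F2 Ψ z σ) :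
    deriv F1 z = deriv M (σ z) * deriv σ z := by
  have h1 : F1 =ᶠ[𝓝 z] M ∘ σ := h.2.mono fun w hw => hw.1.symm
  rw [h1.deriv_eq, deriv_comp z (H.hM _) h.1.differentiableAt]

theorem Sol.good (H : Hyp M F1 F2 Ψ) {z : ℂ} {σ : ℂ → ℂ} (h : Sol M F1 F2 Ψ z σ) :
    ∀ᶠ w in 𝓝[≠] z, Good M F1 F2 Ψ w (σ w) := by
  obtain ⟨x, hx⟩ := H.hF
  filter_upwards [ev_ne0 H.h1.deriv hx z, nhdsWithin_le_nhds h.ev] with w a b
  refine good_of_sol H.toEnt b.1.continuousAt (fun h0 => a ?_) b.2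
  rw [b.chain H, h0, zero_mul]

theorem Sol.deriv_eq (H : Hyp M F1 F2 Ψ) {z : ℂ} {σ τ : ℂ → ℂ} (h : Sol M F1 F2 Ψ z σ)
    (h' : Sol M F1 F2 Ψ z τ) : deriv σ z = deriv τ z := by
  have : deriv σ =ᶠ[𝓝[≠] z] deriv τ := by
    filter_upwards [h.good H, h'.good H, nhdsWithin_le_nhds h.ev, nhdsWithin_le_nhds h'.ev]
      with w a b c d
    have e1 := (H.uniq_good a b).deriv (τ w)
    rw [add_sub_cancel] at e1
    have e2 := c.chain H
    rw [d.chain H, e1] at e2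
    exact (mul_left_cancel₀ b.1 e2).symm
  exact ((ContinuousAt.eventuallyEq_nhds_iff_eventuallyEq_nhdsNE h.1.deriv.continuousAt
    h'.1.deriv.continuousAt).1 this).self_of_nhds

theorem Hyp.sol_of_freq (H : Hyp M F1 F2 Ψ) {z0 s0 : ℂ}
    (h : ∃ᶠ p : ℂ × ℂ in 𝓝 (z0, s0), Good M F1 F2 Ψ p.1 p.2) : ∃ σ, Sol M F1 F2 Ψ z0 σ := by
  classical
  by_cases hd : deriv M s0 ≠ 0
  · obtain ⟨σ, a, -, b, -⟩ := (good_of_freq H.toEnt hd h).sol H.toEnt
    exact ⟨σ, a, b⟩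
  push Not at hd
  have hMc := H.hM.continuous
  have h1c := H.h1.continuous
  have he : M s0 = F1 z0 := by
    have hc : IsClosed {p : ℂ × ℂ | M p.2 = F1 p.1} := isClosed_eq (by fun_prop) (by fun_prop)
    exact hc.closure_subset (mem_closure_iff_frequently.2 (h.mono fun p hp => hp.2.1))
  obtain ⟨r1, hr1, hper⟩ := nhds_basis_closedBall.eventually_iff.1 H.per_small
  have e1 := (ev_ne0 H.hM.deriv H.d0 s0).and (ev_ne_of_deriv H.hM ⟨0, H.d0⟩ (F1 z0) s0)
  rw [eventually_nhdsWithin_iff] at e1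
  obtain ⟨r2, hr2, hs⟩ := nhds_basis_closedBall.eventually_iff.1 e1
  set r := min (r1 / 2) r2 with hr
  have hr0 : 0 < r := by positivity
  have hs' : ∀ x ∈ closedBall s0 r, x ≠ s0 → deriv M x ≠ 0 ∧ M x ≠ F1 z0 := fun x hx h =>
    hs (closedBall_subset_closedBall (min_le_right _ _) hx) h
  have e2 : ∀ᶠ w in 𝓝 z0, ∀ x ∈ sphere s0 r, M x ≠ F1 w := by
    refine (isCompact_sphere s0 r).eventually_forall_of_forall_eventually
      (P := fun w x => M x ≠ F1 w) fun x hx => ?_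
    have hx0 : x ≠ s0 := ne_of_mem_sphere hx hr0.ne'
    have : IsOpen {p : ℂ × ℂ | M p.2 ≠ F1 p.1} := isOpen_ne_fun (by fun_prop) (by fun_prop)
    exact this.mem_nhds (hs' x (sphere_subset_closedBall hx) hx0).2
  have e3 := ev_ne_of_deriv H.h1 H.hF (F1 z0) z0
  rw [eventually_nhdsWithin_iff] at e3
  obtain ⟨ε, hε, hz⟩ := nhds_basis_ball.eventually_iff.1 (e2.and e3)
  set W : Set ℂ := {w | ∃ x ∈ ball s0 r, Good M F1 F2 Ψ w x} with hW
  have hsec : ∀ w x, x ∈ ball s0 r → Good M F1 F2 Ψ w x → ∃ τ : ℂ → ℂ, AnalyticAt ℂ τ w ∧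
      ∀ᶠ v in 𝓝 w, τ v ∈ ball s0 r ∧ Good M F1 F2 Ψ v (τ v) := by
    intro w x hx hg
    obtain ⟨τ, a, b, -, c, -⟩ := hg.sol H.toEnt
    refine ⟨τ, a, Eventually.and ?_ c⟩
    exact a.continuousAt.eventually (isOpen_ball.mem_nhds (by rwa [b]))
  have hWo : IsOpen W := by
    rw [isOpen_iff_eventually]
    rintro w ⟨x, hx, hg⟩
    obtain ⟨τ, -, hτ⟩ := hsec w x hx hg
    exact hτ.mono fun v hv => ⟨τ v, hv⟩
  have hsub : ball z0 ε \ {z0} ⊆ W := by
    refine (preconn_punct z0 ε).subset_of_closure_inter_subset hWo ?_ ?_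
    · have : ∀ᶠ p : ℂ × ℂ in 𝓝 (z0, s0), p.1 ∈ ball z0 ε ∧ p.2 ∈ ball s0 r :=
        prod_mem_nhds (ball_mem_nhds z0 hε) (ball_mem_nhds s0 hr0)
      obtain ⟨p, a, b, c⟩ := (h.and_eventually this).exists
      refine ⟨p.1, ⟨b, fun h0 => ?_⟩, p.2, c, a⟩
      by_cases h1 : p.2 = s0
      · exact a.1 (by rw [h1]; exact hd)
      · exact (hs' _ (ball_subset_closedBall c) h1).2 (by rw [a.2.1, h0])
    · rintro w ⟨hw, hw1, hw2⟩
      obtain ⟨x, hx, hfr⟩ := tube (P := Good M F1 F2 Ψ) (isCompact_closedBall s0 r)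
        ((mem_closure_iff_frequently.1 hw).mono fun v ⟨x, a, b⟩ => ⟨x, ball_subset_closedBall a, b⟩)
      have hxe : M x = F1 w := by
        have hc : IsClosed {p : ℂ × ℂ | M p.2 = F1 p.1} := isClosed_eq (by fun_prop) (by fun_prop)
        exact hc.closure_subset (mem_closure_iff_frequently.2 (hfr.mono fun p hp => hp.2.1))
      have hx0 : x ≠ s0 := fun h0 => (hz hw1).2 hw2 (by rw [← hxe, h0, he])
      refine ⟨x, ?_, good_of_freq H.toEnt (hs' x hx hx0).1 hfr⟩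
      exact lt_of_le_of_ne (mem_closedBall.1 hx) fun h0 => (hz hw1).1 x h0 hxe
  choose! σ hσ1 hσ2 using fun w (hw : w ∈ ball z0 ε \ {z0}) => hsub hw
  have hU : IsOpen (ball z0 ε \ {z0}) := isOpen_ball.sdiff isClosed_singleton
  have hσd : DifferentiableOn ℂ σ (ball z0 ε \ {z0}) := by
    intro w hw
    obtain ⟨τ, a, b⟩ := hsec w _ (hσ1 w hw) (hσ2 w hw)
    refine (a.differentiableAt.congr_of_eventuallyEq ?_).differentiableWithinAt
    filter_upwards [b, hU.mem_nhds hw] with v c d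
    refine sub_eq_zero.1 (hper ?_ (H.uniq_good (hσ2 v d) c.2))
    have k1 := mem_ball.1 (hσ1 v d)
    have k2 := mem_ball.1 c.1
    have k3 := dist_triangle_right (σ v) (τ v) s0
    have k4 : r ≤ r1 / 2 := min_le_left _ _
    rw [mem_closedBall, dist_zero_right, ← dist_eq_norm]
    linarith
  have hbd : BddAbove (norm ∘ σ '' (ball z0 ε \ {z0})) := by
    refine ⟨‖s0‖ + r, ?_⟩
    rintro _ ⟨w, hw, rfl⟩
    exact norm_le_of_mem_closedBall (ball_subset_closedBall (hσ1 w hw))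
  have hupd := differentiableOn_update_limUnder_of_bddAbove (ball_mem_nhds z0 hε) hσd hbd
  set σ' := Function.update σ z0 (limUnder (𝓝[≠] z0) σ) with hσ'
  have hσ'a : AnalyticAt ℂ σ' z0 := hupd.analyticAt (ball_mem_nhds z0 hε)
  have hev : ∀ᶠ w in 𝓝[≠] z0, Good M F1 F2 Ψ w (σ' w) := by
    filter_upwards [nhdsWithin_le_nhds (ball_mem_nhds z0 hε), self_mem_nhdsWithin] with w a b
    rw [hσ', Function.update_of_ne b]
    exact hσ2 w ⟨a, b⟩
  refine ⟨σ', hσ'a, Eventually.and ?_ ?_⟩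
  · exact (ContinuousAt.eventuallyEq_nhds_iff_eventuallyEq_nhdsNE
      (hMc.continuousAt.comp hσ'a.continuousAt) h1c.continuousAt).1 (hev.mono fun w hw => hw.2.1)
  · exact (ContinuousAt.eventuallyEq_nhds_iff_eventuallyEq_nhdsNE
      (hMc.continuousAt.comp (H.hΨ.continuous.continuousAt.sub hσ'a.continuousAt))
      H.h2.continuous.continuousAt).1 (hev.mono fun w hw => hw.eq2)

theorem Hyp.sol_all (H : Hyp M F1 F2 Ψ) (z : ℂ) : ∃ σ, Sol M F1 F2 Ψ z σ := by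
  have hcl : IsClopen {z | ∃ σ, Sol M F1 F2 Ψ z σ} := by
    constructor
    · refine isClosed_of_closure_subset fun z0 hz0 => ?_
      obtain ⟨C, hC⟩ := H.cluster (‖z0‖ + 1)
      have h1 : ∃ᶠ w in 𝓝 z0, ∃ x ∈ closedBall (0 : ℂ) C, Good M F1 F2 Ψ w x := by
        have h2 : ∀ᶠ w in 𝓝 z0, ‖w‖ < ‖z0‖ + 1 :=
          continuous_norm.continuousAt.eventually_lt continuousAt_const (by linarith)
        intro h3
        obtain ⟨w, ⟨σ, hσ⟩, h4⟩ := ((mem_closure_iff_frequently.1 hz0).and_eventually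
          (h2.and h3).eventually_nhds).exists
        obtain ⟨v, a, b, c⟩ := ((hσ.good H).and (nhdsWithin_le_nhds h4)).exists
        obtain ⟨x, d, e⟩ := hC v _ b.le a
        exact c ⟨x, by simpa using d, e⟩
      obtain ⟨x, -, hx⟩ := tube (isCompact_closedBall 0 C) h1
      exact H.sol_of_freq hx
    · rw [isOpen_iff_eventually]
      rintro z ⟨σ, hσ⟩
      exact hσ.ev.mono fun w hw => ⟨σ, hw⟩
  obtain ⟨σ, a, -, b⟩ := H.base
  have := hcl.eq_univ ⟨0, σ, a, b⟩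
  exact (this ▸ mem_univ z : z ∈ {z | ∃ σ, Sol M F1 F2 Ψ z σ})

/-- every local solution at the origin is the germ of an entire solution -/
theorem Hyp.entire (H : Hyp M F1 F2 Ψ) {σ0 : ℂ → ℂ} (h0 : Sol M F1 F2 Ψ 0 σ0) :
    ∃ S : ℂ → ℂ, Differentiable ℂ S ∧ S =ᶠ[𝓝 0] σ0 ∧
      ∀ z, M (S z) = F1 z ∧ M (Ψ z - S z) = F2 z := by
  choose σ hσ using H.sol_all
  set D : ℂ → ℂ := fun z => deriv (σ z) z with hD
  have hloc : ∀ z τ, Sol M F1 F2 Ψ z τ → D =ᶠ[𝓝 z] deriv τ := fun z τ hτ =>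
    hτ.ev.mono fun w hw => (hσ w).deriv_eq H hw
  have hDd : Differentiable ℂ D := fun z =>
    (hσ z).1.deriv.differentiableAt.congr_of_eventuallyEq (hloc z _ (hσ z))
  obtain ⟨S, hS0, hS⟩ := hDd.isExactOn_univ.with_val_at 0 (σ0 0)
  have hSd : Differentiable ℂ S := fun z => (hS z (mem_univ z)).differentiableAt
  have heq : S =ᶠ[𝓝 0] σ0 := by
    obtain ⟨r, hr, h⟩ := nhds_basis_ball.eventually_iff.1
      ((hloc 0 σ0 h0).and h0.1.eventually_analyticAt)
    have := isOpen_ball.eqOn_of_deriv_eq (convex_ball (0 : ℂ) r).isPreconnected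
      hSd.differentiableOn (fun w hw => (h hw).2.differentiableAt.differentiableWithinAt)
      (fun w hw => by rw [(hS w (mem_univ w)).deriv]; exact (h hw).1) (mem_ball_self hr) hS0
    exact this.eventuallyEq_of_mem (ball_mem_nhds 0 hr)
  refine ⟨S, hSd, heq, fun z => ⟨?_, ?_⟩⟩
  · have : (fun z => M (S z)) = F1 := by
      refine AnalyticOnNhd.eq_of_eventuallyEq (fun w _ => (H.hM.comp hSd).analyticAt w)
        (fun w _ => H.h1.analyticAt w) (z₀ := 0) ?_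
      filter_upwards [heq, h0.2] with w a b
      rw [a]; exact b.1
    exact congrFun this z
  · have : (fun z => M (Ψ z - S z)) = F2 := by
      refine AnalyticOnNhd.eq_of_eventuallyEq
        (fun w _ => (H.hM.comp (H.hΨ.sub hSd)).analyticAt w)
        (fun w _ => H.h2.analyticAt w) (z₀ := 0) ?_
      filter_upwards [heq, h0.2] with w a b
      rw [a]; exact b.2
    exact congrFun this z

end Pool.Agent.MP_9cb8e5_pr.H67
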