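import Mathlib

/-! One-sided asymptotic expansions and majorant norms of truncated power series. -/

open Filter Topology Asymptotics PowerSeries Finset

namespace Pool.Agent.MP_9cb8e5_pr.H67

noncomputable def ev (N : ℕ) (P : ℝ⟦X⟧) (h : ℝ) : ℝ := ∑ k ∈ range (N + 1), coeff k P * h ^ k

noncomputable def nrm (r : ℝ) (N : ℕ) (P : ℝ⟦X⟧) : ℝ := ∑ k ∈ range (N + 1), |coeff k P| * r ^ k

/-- expansion to order `N` as `h → 0` from the left -/
def Ex (N : ℕ) (f : ℝ → ℝ) (P : ℝ⟦X⟧) : Prop :=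
  (fun h => f h - ev N P h) =o[𝓝[<] 0] fun h => h ^ N

theorem tri (N : ℕ) (F : ℕ × ℕ → ℝ) (h0 : ∀ p : ℕ × ℕ, p.1 = 0 ∨ p.2 = 0 → F p = 0) :
    ∑ k ∈ range (N + 2), ∑ p ∈ antidiagonal k, F p =
      ∑ p ∈ (range (N + 1) ×ˢ range (N + 1)) with p.1 + p.2 ≤ N + 1, F p := by
  rw [← Finset.sum_biUnion]
  · symm
    apply Finset.sum_subset
    · intro p hp
      simp only [mem_filter, mem_biUnion, Finset.mem_range, HasAntidiagonal.mem_antidiagonal] at hp ⊢
      exact ⟨_, by omega, rfl⟩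
    · intro p hp hn
      simp only [mem_filter, mem_biUnion, Finset.mem_range, HasAntidiagonal.mem_antidiagonal,
        Finset.mem_product] at hp hn
      obtain ⟨k, hk, hp⟩ := hp
      exact h0 p (by omega)
  · intro a _ b _ hab
    simp only [Function.onFun]
    rw [Finset.disjoint_left]
    intro p h1 h2
    rw [HasAntidiagonal.mem_antidiagonal] at h1 h2
    exact hab (h1.symm.trans h2)

theorem nrm_nonneg {r : ℝ} (hr : 0 ≤ r) (N : ℕ) (P : ℝ⟦X⟧) : 0 ≤ nrm r N P :=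
  Finset.sum_nonneg fun _ _ => by positivity

theorem nrm_le_succ {r : ℝ} (hr : 0 ≤ r) (N : ℕ) (P : ℝ⟦X⟧) : nrm r N P ≤ nrm r (N + 1) P := by
  rw [nrm, nrm, Finset.sum_range_succ _ (N + 1)]
  have : 0 ≤ |coeff (N + 1) P| * r ^ (N + 1) := by positivity
  linarith

theorem nrm_mul {r : ℝ} (hr : 0 ≤ r) (N : ℕ) {P Q : ℝ⟦X⟧} (hP : coeff 0 P = 0)
    (hQ : coeff 0 Q = 0) : nrm r (N + 1) (P * Q) ≤ nrm r N P * nrm r N Q := by
  have h := tri N (fun p => |coeff p.1 P| * r ^ p.1 * (|coeff p.2 Q| * r ^ p.2))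
    (by rintro p (h | h) <;> simp [h, hP, hQ, -coeff_zero_eq_constantCoeff])
  rw [nrm, nrm, nrm, Finset.sum_mul_sum, ← Finset.sum_product']
  refine le_trans ?_ (le_trans h.le (Finset.sum_le_sum_of_subset_of_nonneg
    (Finset.filter_subset _ _) fun _ _ _ => by positivity))
  refine Finset.sum_le_sum fun k _ => ?_
  rw [coeff_mul]
  refine (mul_le_mul_of_nonneg_right (Finset.abs_sum_le_sum_abs _ _) (by positivity)).trans ?_
  rw [Finset.sum_mul]
  refine Finset.sum_le_sum fun p hp => ?_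
  rw [HasAntidiagonal.mem_antidiagonal] at hp
  rw [← hp, abs_mul, pow_add]; apply le_of_eq; ring

theorem coeff0_pow {P : ℝ⟦X⟧} (hP : coeff 0 P = 0) (n : ℕ) : coeff 0 (P ^ (n + 1)) = 0 := by
  simp only [coeff_zero_eq_constantCoeff] at hP ⊢
  rw [map_pow, hP]; simp

theorem nrm_pow {r : ℝ} (hr : 0 ≤ r) (N : ℕ) {P : ℝ⟦X⟧} (hP : coeff 0 P = 0) (n : ℕ) :
    nrm r (N + 1) (P ^ (n + 2)) ≤ nrm r N P ^ (n + 2) := by
  induction n with
  | zero => simpa [pow_two] using nrm_mul hr N hP hP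
  | succ n ih =>
    rw [show n + 1 + 2 = (n + 2) + 1 by ring, pow_succ, pow_succ]
    refine (nrm_mul hr N (coeff0_pow hP (n + 1)) hP).trans ?_
    exact mul_le_mul_of_nonneg_right ((nrm_le_succ hr N _).trans ih) (nrm_nonneg hr _ _)

theorem nrm_sum {ι : Type*} {r : ℝ} (hr : 0 ≤ r) (N : ℕ) (s : Finset ι) (c : ι → ℝ)
    (P : ι → ℝ⟦X⟧) :
    nrm r N (∑ n ∈ s, c n • P n) ≤ ∑ n ∈ s, |c n| * nrm r N (P n) := by
  simp only [nrm, Finset.mul_sum]
  rw [Finset.sum_comm]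
  refine Finset.sum_le_sum fun k _ => ?_
  rw [map_sum]
  refine (mul_le_mul_of_nonneg_right (Finset.abs_sum_le_sum_abs _ _) (by positivity)).trans ?_
  rw [Finset.sum_mul]
  refine Finset.sum_le_sum fun n _ => ?_
  simp [abs_mul, mul_assoc]

theorem nrm_add {r : ℝ} (hr : 0 ≤ r) (N : ℕ) (P Q : ℝ⟦X⟧) :
    nrm r N (P + Q) ≤ nrm r N P + nrm r N Q := by
  simp only [nrm, ← Finset.sum_add_distrib, map_add, ← add_mul]
  exact Finset.sum_le_sum fun k _ => mul_le_mul_of_nonneg_right (abs_add_le _ _) (by positivity)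

theorem nrm_sub {r : ℝ} (hr : 0 ≤ r) (N : ℕ) (P Q : ℝ⟦X⟧) :
    nrm r N (P - Q) ≤ nrm r N P + nrm r N Q := by
  simp only [nrm, ← Finset.sum_add_distrib, map_sub, ← add_mul]
  exact Finset.sum_le_sum fun k _ => mul_le_mul_of_nonneg_right (abs_sub _ _) (by positivity)

theorem nrm_smul (r : ℝ) (N : ℕ) (c : ℝ) (P : ℝ⟦X⟧) : nrm r N (c • P) = |c| * nrm r N P := by
  simp [nrm, Finset.mul_sum, abs_mul, mul_assoc]

theorem pow_isLittleO {a b : ℕ} (h : a < b) :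
    (fun h : ℝ => h ^ b) =o[𝓝[<] 0] fun h => h ^ a :=
  (isLittleO_pow_pow h).mono nhdsWithin_le_nhds

theorem pow_isBigO {a b : ℕ} (h : a ≤ b) : (fun h : ℝ => h ^ b) =O[𝓝[<] 0] fun h => h ^ a := by
  rcases h.eq_or_lt with rfl | h
  · exact isBigO_refl _ _
  · exact (pow_isLittleO h).isBigO

theorem Ex.bigO {N : ℕ} {f : ℝ → ℝ} {P : ℝ⟦X⟧} (h : Ex (N + 1) f P) :
    (fun h => f h - ev N P h) =O[𝓝[<] 0] fun h => h ^ (N + 1) := by
  have := h.isBigO.add ((isBigO_refl (fun h : ℝ => h ^ (N + 1)) _).const_mul_left (coeff (N + 1) P))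
  refine this.congr_left fun x => ?_
  simp only [ev, Finset.sum_range_succ _ (N + 1)]; ring

theorem Ex.of_bigO {N : ℕ} {f : ℝ → ℝ} {P : ℝ⟦X⟧}
    (h : (fun h => f h - ev N P h) =O[𝓝[<] 0] fun h => h ^ (N + 1)) : Ex N f P :=
  h.trans_isLittleO (pow_isLittleO (Nat.lt_succ_self N))

theorem Ex.lower {N : ℕ} {f : ℝ → ℝ} {P : ℝ⟦X⟧} (h : Ex (N + 1) f P) : Ex N f P :=
  Ex.of_bigO h.bigO

theorem Ex.add {N : ℕ} {f g : ℝ → ℝ} {P Q : ℝ⟦X⟧} (h : Ex N f P) (h' : Ex N g Q) :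
    Ex N (fun x => f x + g x) (P + Q) := by
  refine (IsLittleO.add h h').congr_left fun x => ?_
  simp only [ev, map_add, add_mul, Finset.sum_add_distrib]; ring

theorem Ex.smul {N : ℕ} {f : ℝ → ℝ} {P : ℝ⟦X⟧} (h : Ex N f P) (c : ℝ) :
    Ex N (fun x => c * f x) (c • P) := by
  refine (IsLittleO.const_mul_left h c).congr_left fun x => ?_
  simp only [ev, map_smul, smul_eq_mul, mul_assoc, ← Finset.mul_sum]; ring

theorem Ex.sub {N : ℕ} {f g : ℝ → ℝ} {P Q : ℝ⟦X⟧} (h : Ex N f P) (h' : Ex N g Q) :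
    Ex N (fun x => f x - g x) (P - Q) := by
  refine (IsLittleO.sub h h').congr_left fun x => ?_
  simp only [ev, map_sub, sub_mul, Finset.sum_sub_distrib]; ring

theorem Ex.congr {N : ℕ} {f g : ℝ → ℝ} {P : ℝ⟦X⟧} (h : Ex N f P) (e : f =ᶠ[𝓝[<] 0] g) :
    Ex N g P :=
  IsLittleO.congr' h (e.mono fun x hx => by simp only [hx]) EventuallyEq.rfl

theorem Ex.small {N : ℕ} {f : ℝ → ℝ} (h : f =o[𝓝[<] 0] fun h => h ^ N) : Ex N f 0 := by
  simpa [Ex, ev] using h

theorem Ex.sum {ι : Type*} {N : ℕ} (s : Finset ι) (c : ι → ℝ) {f : ι → ℝ → ℝ} {P : ι → ℝ⟦X⟧}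
    (h : ∀ n ∈ s, Ex N (f n) (P n)) :
    Ex N (fun x => ∑ n ∈ s, c n * f n x) (∑ n ∈ s, c n • P n) := by
  classical
  induction s using Finset.induction_on with
  | empty => simpa using Ex.small (isLittleO_zero _ _)
  | insert a s ha ih =>
    simp only [Finset.sum_insert ha]
    exact ((h a (by simp)).smul _).add (ih fun n hn => h n (by simp [hn]))

theorem ex_zero_coeff {N : ℕ} {P : ℝ⟦X⟧} (h : Ex N (fun _ => 0) P) : ∀ k ≤ N, coeff k P = 0 := by
  have key : ∀ (N : ℕ) (c : ℝ), ((fun h : ℝ => c * h ^ N) =o[𝓝[<] 0] fun h => h ^ N) → c = 0 := by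
    intro N c hc
    by_contra hc0
    have h1 := (isLittleO_const_mul_left_iff hc0).1 hc
    refine isLittleO_irrefl ?_ h1
    have : ∀ᶠ x : ℝ in 𝓝[<] 0, x ^ N ≠ 0 :=
      eventually_mem_nhdsWithin.mono fun x (hx : x < 0) => pow_ne_zero _ hx.ne
    exact this.frequently
  induction N with
  | zero =>
    intro k hk
    obtain rfl : k = 0 := by omega
    have := key 0 (-coeff 0 P) (h.congr_left fun x => by simp [ev])
    linarith
  | succ N ih =>
    have h1 := ih h.lower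
    intro k hk
    rcases Nat.lt_or_ge k (N + 1) with hk' | hk'
    · exact h1 k (by omega)
    obtain rfl : k = N + 1 := by omega
    have := key (N + 1) (-coeff (N + 1) P) (IsLittleO.congr_left h fun x => by
      rw [ev, Finset.sum_range_succ, Finset.sum_eq_zero fun i hi => by
        rw [h1 i (by simpa [Nat.lt_succ_iff] using hi), zero_mul]]
      ring)
    linarith

theorem Ex.uniq {N : ℕ} {f : ℝ → ℝ} {P Q : ℝ⟦X⟧} (h : Ex N f P) (h' : Ex N f Q) :
    ∀ k ≤ N, coeff k P = coeff k Q := by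
  intro k hk
  have := ex_zero_coeff (by simpa using h.sub h') k hk
  rwa [map_sub, sub_eq_zero] at this

theorem ev_bigO (N : ℕ) {P : ℝ⟦X⟧} (hP : coeff 0 P = 0) : ev N P =O[𝓝[<] 0] fun h => h := by
  refine IsBigO.fun_sum fun k _ => ?_
  rcases Nat.eq_zero_or_pos k with rfl | hk
  · simp only [hP, zero_mul]; exact isBigO_zero _ _
  · simpa using (pow_isBigO hk).const_mul_left (coeff k P)

theorem Ex.mul {N : ℕ} {f g : ℝ → ℝ} {P Q : ℝ⟦X⟧} (h : Ex N f P) (h' : Ex N g Q)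
    (hP : coeff 0 P = 0) (hQ : coeff 0 Q = 0) (hg : g =O[𝓝[<] 0] fun h => h) :
    Ex (N + 1) (fun x => f x * g x) (P * Q) := by
  have e1 : (fun x => (f x - ev N P x) * g x) =o[𝓝[<] 0] fun h => h ^ (N + 1) := by
    simpa only [pow_succ] using IsLittleO.mul_isBigO h hg
  have e2 : (fun x => ev N P x * (g x - ev N Q x)) =o[𝓝[<] 0] fun h => h ^ (N + 1) := by
    simpa only [pow_succ'] using (ev_bigO N hP).mul_isLittleO h'
  have e3 : (fun x => ∑ p ∈ (range (N + 1) ×ˢ range (N + 1)) with ¬ p.1 + p.2 ≤ N + 1,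
      coeff p.1 P * coeff p.2 Q * x ^ (p.1 + p.2)) =o[𝓝[<] 0] fun h : ℝ => h ^ (N + 1) :=
    IsLittleO.fun_sum fun p hp => (pow_isLittleO (by simp at hp; omega)).const_mul_left _
  refine ((e1.add e2).add e3).congr_left fun x => ?_
  have h := tri N (fun p => coeff p.1 P * coeff p.2 Q * x ^ (p.1 + p.2))
    (by rintro p (h | h) <;> simp [h, hP, hQ, -coeff_zero_eq_constantCoeff])
  have h2 : ev (N + 1) (P * Q) x = ∑ k ∈ range (N + 2), ∑ p ∈ antidiagonal k,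
      coeff p.1 P * coeff p.2 Q * x ^ (p.1 + p.2) := by
    refine Finset.sum_congr rfl fun k _ => ?_
    rw [coeff_mul, Finset.sum_mul]
    exact Finset.sum_congr rfl fun p hp => by rw [HasAntidiagonal.mem_antidiagonal.1 hp]
  have h3 : ev N P x * ev N Q x = ∑ p ∈ (range (N + 1) ×ˢ range (N + 1)),
      coeff p.1 P * coeff p.2 Q * x ^ (p.1 + p.2) := by
    rw [ev, ev, Finset.sum_mul_sum, ← Finset.sum_product']
    exact Finset.sum_congr rfl fun p _ => by ring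
  rw [← Finset.sum_filter_add_sum_filter_not _ (fun p : ℕ × ℕ => p.1 + p.2 ≤ N + 1)] at h3
  rw [h2, h]; linarith

theorem Ex.pow {N : ℕ} {f : ℝ → ℝ} {P : ℝ⟦X⟧} (h : Ex N f P) (hP : coeff 0 P = 0)
    (hf : f =O[𝓝[<] 0] fun h => h) (n : ℕ) : Ex (N + 1) (fun x => f x ^ (n + 2)) (P ^ (n + 2)) := by
  induction n with
  | zero => simpa [pow_two] using h.mul h hP hP hf
  | succ n ih =>
    have := ih.lower.mul h (coeff0_pow hP (n + 1)) hP hf
    simpa only [← pow_succ] using this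

/-- Taylor data of a real-analytic function -/
theorem taylor_data {g : ℝ → ℝ} {s : ℝ} (hg : AnalyticAt ℝ g s) : ∃ (c : ℕ → ℝ) (ρ C : ℝ),
    0 < ρ ∧ 0 < C ∧ c 0 = g s ∧ c 1 = deriv g s ∧ (∀ N, ∑ n ∈ range N, |c n| * ρ ^ n ≤ C) ∧
    ∀ N, (fun y => g (s + y) - ∑ n ∈ range N, c n * y ^ n) =O[𝓝 0] fun y => y ^ N := by
  obtain ⟨p, hp⟩ := hg
  obtain ⟨r, hr0, hr⟩ := ENNReal.lt_iff_exists_nnreal_btwn.1 hp.radius_pos
  have hs := p.summable_norm_mul_pow hr
  refine ⟨fun n => p.coeff n, r, (∑' n, ‖p n‖ * (r : ℝ) ^ n) + 1, by exact_mod_cast hr0,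
    by positivity, ?_, ?_, fun N => ?_, fun N => ?_⟩
  · exact hp.coeff_zero _
  · rw [hp.deriv]; rfl
  · have := hs.sum_le_tsum (range N) fun _ _ => by positivity
    simp only [FormalMultilinearSeries.norm_apply_eq_norm_coef, Real.norm_eq_abs] at this ⊢
    linarith
  · have := hp.isBigO_sub_partialSum_pow N
    simp only [← norm_pow, isBigO_norm_right] at this
    refine this.congr_left fun y => ?_
    simp [FormalMultilinearSeries.partialSum, mul_comm]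

end Pool.Agent.MP_9cb8e5_pr.H67
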