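import Pool.Agent.MP_9cb8e5_pr.H67.Entire

/-! Elementary properties of moment generating functions. -/

open Filter Topology Set MeasureTheory ProbabilityTheory

namespace Pool.Agent.MP_9cb8e5_pr.H67

structure Lap (μ : Measure ℝ) : Prop where
  prob : IsProbabilityMeasure μ
  nn : ∀ᵐ w ∂μ, 0 ≤ w
  ne : ¬ ∀ᵐ w ∂μ, w = 0
  ex : ∀ t : ℝ, Integrable (fun w => Real.exp (t * w)) μ

variable {μ : Measure ℝ}

theorem int_of_all (h : ∀ t : ℝ, Integrable (fun w => Real.exp (t * w)) μ) (t : ℝ) :
    t ∈ interior (integrableExpSet id μ) := by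
  have : integrableExpSet id μ = univ := eq_univ_of_forall h
  simp [this]

theorem diff_of_all (h : ∀ t : ℝ, Integrable (fun w => Real.exp (t * w)) μ) :
    Differentiable ℂ (complexMGF id μ) := fun z =>
  (analyticAt_complexMGF (int_of_all h z.re)).differentiableAt

theorem Lap.deriv_pos (H : Lap μ) (s : ℝ) : 0 < deriv (mgf id μ) s := by
  rw [deriv_mgf (int_of_all H.ex s)]
  have h1 : 0 ≤ᵐ[μ] fun w => id w * Real.exp (s * id w) :=
    H.nn.mono fun w hw => mul_nonneg hw (Real.exp_pos _).le
  have h2 : Integrable (fun w => id w * Real.exp (s * id w)) μ := by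
    simpa using integrable_pow_mul_exp_of_mem_interior_integrableExpSet (int_of_all H.ex s) 1
  refine lt_of_le_of_ne (integral_nonneg_of_ae h1) fun h => H.ne ?_
  filter_upwards [(integral_eq_zero_iff_of_nonneg_ae h1 h2).1 h.symm] with w hw
  simpa using hw

theorem Lap.mono (H : Lap μ) : StrictMono (mgf id μ) := strictMono_of_deriv_pos H.deriv_pos

theorem Lap.an (H : Lap μ) (s : ℝ) : AnalyticAt ℝ (mgf id μ) s := analyticAt_mgf (int_of_all H.ex s)

theorem Lap.zero (H : Lap μ) : mgf id μ 0 = 1 := by have := H.prob; simp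

theorem Lap.big (H : Lap μ) : Tendsto (mgf id μ) atTop atTop := by
  have := H.prob
  have h0 := H.deriv_pos 0
  rw [deriv_mgf_zero (int_of_all H.ex 0)] at h0
  have hi : Integrable id μ := integrable_of_mem_interior_integrableExpSet (int_of_all H.ex 0)
  refine tendsto_atTop_mono (fun x => ?_) (tendsto_id.atTop_mul_const h0)
  rw [← integral_const_mul]
  exact integral_mono (hi.const_mul _) (H.ex x) fun w => by
    have := Real.add_one_le_exp (x * w); simp only [id]; linarith

/-- the inverse function of the moment generating function -/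
noncomputable def mi (μ : Measure ℝ) : ℝ → ℝ := Function.invFun (mgf id μ)

theorem Lap.mi_m (H : Lap μ) (s : ℝ) : mi μ (mgf id μ s) = s :=
  Function.leftInverse_invFun H.mono.injective s

theorem Lap.m_mi (H : Lap μ) {v : ℝ} (hv : 1 ≤ v) : mgf id μ (mi μ v) = v ∧ 0 ≤ mi μ v := by
  obtain ⟨b, hb⟩ := (H.big.eventually_ge_atTop v).exists
  have hc : Continuous (mgf id μ) := continuous_iff_continuousAt.2 fun s => (H.an s).continuousAt
  obtain ⟨s, rfl⟩ := mem_range_of_exists_le_of_exists_ge hc ⟨0, H.zero.le.trans hv⟩ ⟨b, hb⟩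
  rw [H.mi_m]
  exact ⟨rfl, H.mono.le_iff_le.1 (H.zero.le.trans hv)⟩

theorem Lap.mi_an (H : Lap μ) (s : ℝ) : AnalyticAt ℝ (mi μ) (mgf id μ s) := by
  have ha := H.an s
  have hs := (H.deriv_pos s).ne'
  refine (ha.analyticAt_localInverse hs).congr ?_
  filter_upwards [HasStrictDerivAt.eventually_right_inverse ha.hasStrictDerivAt hs] with v hv
  conv_rhs => rw [← hv, H.mi_m]

theorem Lap.d0 (H : Lap μ) : deriv (complexMGF id μ) 0 ≠ 0 := by
  have h0 := H.deriv_pos 0
  rw [deriv_mgf_zero (int_of_all H.ex 0)] at h0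
  rw [(hasDerivAt_complexMGF (z := 0) (int_of_all H.ex _)).deriv]
  simp only [zero_mul, Complex.exp_zero, mul_one, integral_complex_ofReal]
  exact_mod_cast h0.ne'

theorem per_of_eq {a b : ℝ} (hi : Integrable (fun w => Real.exp (a * w)) μ)
    (h : complexMGF id μ (a + b * Complex.I) = mgf id μ a) :
    Per (complexMGF id μ) (b * Complex.I) := by
  have h1 : Integrable (fun w : ℝ => Complex.exp ((a + b * Complex.I) * id w)) μ :=
    integrable_cexp_mul_of_re_mem_integrableExpSet aemeasurable_id (by simpa [integrableExpSet] using hi)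
  have h2 : ∀ w : ℝ, RCLike.re (Complex.exp ((a + b * Complex.I) * id w)) =
      Real.exp (a * w) * Real.cos (b * w) := fun w => by simp [Complex.exp_re]
  have h3 := integral_re h1
  have h4 := h1.re
  simp only [h2] at h3 h4
  have h5 : ∫ w, (Real.exp (a * w) - Real.exp (a * w) * Real.cos (b * w)) ∂μ = 0 := by
    rw [integral_sub hi h4, h3]
    have := congrArg Complex.re h
    simp only [complexMGF, mgf, Complex.ofReal_re] at this
    rw [RCLike.re_to_complex, this]; simp
  have h6 := (integral_eq_zero_iff_of_nonneg (fun w => by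
    have := Real.cos_le_one (b * w)
    have := Real.exp_pos (a * w)
    simp only [Pi.zero_apply, Pi.sub_apply]; nlinarith) (hi.sub h4)).1 h5
  intro s
  refine integral_congr_ae ?_
  filter_upwards [h6] with w hw
  have h7 : Real.cos (b * w) = 1 := by
    have := Real.exp_pos (a * w)
    simp only [Pi.sub_apply, Pi.zero_apply] at hw
    apply mul_left_cancel₀ this.ne'; linarith
  have h8 : Real.sin (b * w) = 0 := by
    have := Real.sin_sq_add_cos_sq (b * w); rw [h7] at this; nlinarith
  have h9 : Complex.exp ((b * w : ℝ) * Complex.I) = 1 := by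
    rw [Complex.exp_mul_I, ← Complex.ofReal_cos, ← Complex.ofReal_sin, h7, h8]; simp
  simp only [id]
  rw [add_mul, Complex.exp_add, show (b * Complex.I * w : ℂ) = (b * w : ℝ) * Complex.I by
    push_cast; ring, h9, mul_one]

theorem Lap.le_re (H : Lap μ) {s : ℂ} {x : ℝ} (h : complexMGF id μ s = mgf id μ x) : x ≤ s.re := by
  have := norm_complexMGF_le_mgf (X := id) (μ := μ) (z := s)
  rw [h, Complex.norm_real, Real.norm_eq_abs] at this
  exact H.mono.le_iff_le.1 ((le_abs_self _).trans this)

theorem Lap.perim (H : Lap μ) {t : ℂ} (ht : Per (complexMGF id μ) t) : t.re = 0 := by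
  have key : ∀ t, Per (complexMGF id μ) t → 0 ≤ t.re := fun t ht => H.le_re (by
    have := ht 0
    rw [zero_add] at this
    rw [this, ← complexMGF_ofReal]; simp)
  have := key _ ht.neg
  have := key _ ht
  simp only [Complex.neg_re] at *; linarith

theorem Lap.uniq (H : Lap μ) {a b : ℝ} {s : ℂ} (h1 : complexMGF id μ s = mgf id μ a)
    (h2 : complexMGF id μ ((a + b : ℝ) - s) = mgf id μ b) : Per (complexMGF id μ) (s - a) := by
  have e1 := H.le_re h1
  have e2 := H.le_re h2
  simp only [Complex.sub_re, Complex.ofReal_re] at e2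
  have e : s = a + s.im * Complex.I := Complex.ext (by simp; linarith) (by simp)
  have := per_of_eq (b := s.im) (H.ex a) (by rw [← e, h1])
  rwa [show s - a = s.im * Complex.I by rw [sub_eq_iff_eq_add', ← e]]

end Pool.Agent.MP_9cb8e5_pr.H67
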