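import Pool.Agent.MP_9cb8e5_pr.H67.Curve

/-! A Phragmen-Lindelof principle on the fibre product of the curve with itself. -/

open Complex Filter Topology Set Metric

namespace Pool.Agent.MP_9cb8e5_pr.H67

variable {M F1 F2 Ψ : ℂ → ℂ}

theorem ev_ne_of_deriv {F : ℂ → ℂ} (hF : Differentiable ℂ F) (h : ∃ x, deriv F x ≠ 0) (v z : ℂ) :
    ∀ᶠ w in 𝓝[≠] z, F w ≠ v := by
  have ha : AnalyticAt ℂ (fun w => F w - v) z := (hF.analyticAt z).sub analyticAt_const
  rcases ha.eventually_eq_zero_or_eventually_ne_zero with h1 | h1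
  · exfalso
    have hall : AnalyticOnNhd ℂ (fun w => F w - v) univ :=
      fun w _ => (hF.analyticAt w).sub analyticAt_const
    have h2 := hall.eqOn_zero_of_preconnected_of_eventuallyEq_zero isPreconnected_univ
      (mem_univ z) h1
    have h3 : F = fun _ => v := funext fun w => sub_eq_zero.1 (h2 (mem_univ w))
    obtain ⟨x, hx⟩ := h
    rw [h3] at hx; simp at hx
  · exact h1.mono fun w hw => sub_ne_zero.1 hw

theorem PL (H : Ent M F1 F2 Ψ) (hM' : ∃ x, deriv M x ≠ 0) (hF : ∃ x, deriv F1 x ≠ 0)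
    {R : ℝ} {a : ℂ} {δ : ℝ} (hδ : 0 < δ) (ha : ∀ z s, ‖z‖ ≤ R → M s = F1 z → δ ≤ ‖s - a‖)
    {T : Set (ℂ × ℂ × ℂ)} {g : ℂ × ℂ × ℂ → ℂ} {Q : ℝ}
    (hT : ∀ q ∈ T, Good M F1 F2 Ψ q.1 q.2.1 ∧ Good M F1 F2 Ψ q.1 q.2.2 ∧ ‖q.1‖ ≤ R)
    (hgc : ContinuousOn g (closure T)) (hgQ : ∀ q ∈ T, ‖g q‖ ≤ Q)
    (hint : ∀ q ∈ closure T, Good M F1 F2 Ψ q.1 q.2.1 → Good M F1 F2 Ψ q.1 q.2.2 → 1 < ‖g q‖ →
      (∀ᶠ p in 𝓝 q, Good M F1 F2 Ψ p.1 p.2.1 → Good M F1 F2 Ψ p.1 p.2.2 → p ∈ T) ∧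
      (∀ᶠ p in 𝓝 q, DifferentiableAt ℂ g p)) :
    ∀ p ∈ T, ‖g p‖ ≤ 1 := by
  classical
  intro p0 hp0
  by_contra hcon
  push Not at hcon
  have hMc := H.hM.continuous
  have hFc := H.h1.continuous
  -- facts on the closure
  have hcl : ∀ q ∈ closure T, M q.2.1 = F1 q.1 ∧ M q.2.2 = F1 q.1 ∧ ‖q.1‖ ≤ R := by
    have hc : IsClosed {q : ℂ × ℂ × ℂ | M q.2.1 = F1 q.1 ∧ M q.2.2 = F1 q.1 ∧ ‖q.1‖ ≤ R} :=
      IsClosed.and (isClosed_eq (by fun_prop) (by fun_prop))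
        (IsClosed.and (isClosed_eq (by fun_prop) (by fun_prop))
          (isClosed_le (by fun_prop) (by fun_prop)))
    exact fun q hq => hc.closure_subset_iff.2
      (fun q hq => ⟨(hT q hq).1.2.1, (hT q hq).2.1.2.1, (hT q hq).2.2⟩) hq
  have hQ : ∀ q ∈ closure T, ‖g q‖ ≤ Q := fun q hq =>
    le_on_closure hgQ hgc.norm continuousOn_const hq
  set b : ℂ × ℂ × ℂ → ℂ := fun q => (q.2.1 - a) * (q.2.2 - a) / (δ : ℂ) ^ 2 with hb
  have hbc : Continuous b := by fun_prop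
  have hbn : ∀ q, ‖b q‖ = ‖q.2.1 - a‖ * ‖q.2.2 - a‖ / δ ^ 2 := by
    intro q; simp [hb, abs_of_pos hδ]
  have hb1 : ∀ q ∈ closure T, 1 ≤ ‖b q‖ := by
    intro q hq
    obtain ⟨h1, h2, h3⟩ := hcl q hq
    rw [hbn, le_div_iff₀ (by positivity), one_mul, sq]
    exact mul_le_mul (ha _ _ h3 h1) (ha _ _ h3 h2) hδ.le (norm_nonneg _)
  obtain ⟨N, hN⟩ := pow_unbounded_of_one_lt ‖b p0‖ hcon
  set R' : ℝ := |Q| ^ N + ‖b p0‖ + 1 with hR'
  have hbound : ∀ q ∈ closure T, ‖b q‖ ≤ R' → ‖q.2.1 - a‖ ≤ R' * δ ∧ ‖q.2.2 - a‖ ≤ R' * δ := by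
    intro q hq hq2
    obtain ⟨h1, h2, h3⟩ := hcl q hq
    rw [hbn, div_le_iff₀ (by positivity)] at hq2
    have e1 := ha _ _ h3 h1
    have e2 := ha _ _ h3 h2
    constructor
    · refine le_of_mul_le_mul_right ?_ hδ
      nlinarith [mul_le_mul_of_nonneg_left e2 (norm_nonneg (q.2.1 - a))]
    · refine le_of_mul_le_mul_right ?_ hδ
      nlinarith [mul_le_mul_of_nonneg_right e1 (norm_nonneg (q.2.2 - a))]
  obtain ⟨x0, hx0⟩ := hM'
  have hfin := finite_zeros H.hM.deriv hx0 (isCompact_closedBall a (R' * δ))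
  set S := hfin.toFinset with hS
  set P : ℂ → ℂ := fun z => ∏ c ∈ S, (F1 z - M c) with hP
  have hPd : Differentiable ℂ P := by
    rw [hP]
    exact Differentiable.fun_finsetProd fun c _ => H.h1.sub_const _
  obtain ⟨C0, hC0⟩ := (isCompact_closedBall (0 : ℂ) R).exists_bound_of_continuousOn
    hPd.continuous.continuousOn
  set Hf : ℂ × ℂ × ℂ → ℂ := fun q => g q ^ N / b q with hHf
  set K := closure (T ∩ {q | ‖b q‖ ≤ R'}) with hK
  have hKT : K ⊆ closure T := closure_mono inter_subset_left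
  have hKb : ∀ q ∈ K, ‖b q‖ ≤ R' := fun q hq =>
    (isClosed_le hbc.norm continuous_const).closure_subset_iff.2 inter_subset_right hq
  have hKc : IsCompact K := by
    refine Bornology.IsBounded.isCompact_closure ?_
    refine ((isBounded_closedBall (x := (0 : ℂ)) (r := R)).prod
      ((isBounded_closedBall (x := a) (r := R' * δ)).prod
        (isBounded_closedBall (x := a) (r := R' * δ)))).subset ?_
    rintro q ⟨hq, hq2⟩
    have := hbound q (subset_closure hq) hq2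
    simp only [mem_prod, mem_closedBall, dist_eq_norm, sub_zero]
    exact ⟨(hT q hq).2.2, this⟩
  -- sections through a good interior point
  have hsec : ∀ q ∈ closure T, Good M F1 F2 Ψ q.1 q.2.1 → Good M F1 F2 Ψ q.1 q.2.2 → 1 < ‖g q‖ →
      ‖b q‖ < R' → ∃ γ : ℂ → ℂ × ℂ × ℂ, γ q.1 = q ∧ ContinuousAt γ q.1 ∧
        ∀ᶠ z in 𝓝 q.1, γ z ∈ K ∧ (γ z).1 = z ∧ DifferentiableAt ℂ (fun w => Hf (γ w)) z := by
    rintro ⟨z, s, s'⟩ hq g1 g2 hg hbq
    obtain ⟨hi1, hi2⟩ := hint _ hq g1 g2 hg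
    obtain ⟨σ, hσ, hσ0, -, hσg, -⟩ := g1.sol H
    obtain ⟨τ, hτ, hτ0, -, hτg, -⟩ := g2.sol H
    simp only at hσ hσ0 hσg hτ hτ0 hτg
    have hγc : ContinuousAt (fun w => (w, σ w, τ w)) z :=
      continuousAt_id.prodMk (hσ.continuousAt.prodMk hτ.continuousAt)
    have hγt : Tendsto (fun w => (w, σ w, τ w)) (𝓝 z) (𝓝 (z, s, s')) := by
      have := hγc.tendsto; rwa [hσ0, hτ0] at this
    refine ⟨fun w => (w, σ w, τ w), by simp [hσ0, hτ0], hγc, ?_⟩
    have hlt : ∀ᶠ p in 𝓝 (z, s, s'), ‖b p‖ < R' :=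
      hbc.norm.continuousAt.eventually_lt continuousAt_const hbq
    filter_upwards [hγt.eventually hi1, hγt.eventually hi2, hγt.eventually hlt, hσg, hτg,
      hσ.eventually_analyticAt, hτ.eventually_analyticAt] with w e1 e2 e3 e4 e5 e6 e7
    have hmem : (w, σ w, τ w) ∈ T := e1 e4 e5
    refine ⟨subset_closure ⟨hmem, e3.le⟩, rfl, ?_⟩
    have hd : DifferentiableAt ℂ (fun w => (w, σ w, τ w)) w :=
      differentiableAt_id.prodMk (e6.differentiableAt.prodMk e7.differentiableAt)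
    have hbne : b (w, σ w, τ w) ≠ 0 := by
      have := hb1 _ (subset_closure hmem)
      intro h0; rw [h0] at this; norm_num at this
    have hbd : DifferentiableAt ℂ b (w, σ w, τ w) := by rw [hb]; fun_prop
    have k1 : DifferentiableAt ℂ (fun w => g (w, σ w, τ w)) w := e2.comp w hd
    have k2 : DifferentiableAt ℂ (fun w => b (w, σ w, τ w)) w :=
      DifferentiableAt.comp (g := b) w hbd hd
    exact (k1.pow N).div k2 hbne
  have hmain : ∀ n : ℕ, ∀ q ∈ K, ‖Hf q ^ n * P q.1‖ ≤ C0 := by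
    intro n
    have hbne : ∀ q ∈ K, b q ≠ 0 := by
      intro q hq h0
      have := hb1 q (hKT hq); rw [h0] at this; norm_num at this
    refine maxP hKc (p := Prod.fst) ?_ continuous_fst ?_
    · exact (((((hgc.mono hKT).pow N).div hbc.continuousOn hbne).pow n).mul
        (hPd.continuous.comp continuous_fst).continuousOn)
    intro q hq hlt
    obtain ⟨e1, e2, e3⟩ := hcl q (hKT hq)
    have hPq : ‖P q.1‖ ≤ C0 := hC0 _ (by simpa using e3)
    rw [norm_mul, norm_pow] at hlt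
    have hH1 : 1 < ‖Hf q‖ := by
      by_contra hh
      push Not at hh
      have := pow_le_one₀ (n := n) (norm_nonneg _) hh
      nlinarith [norm_nonneg (P q.1)]
    have hP0 : P q.1 ≠ 0 := by
      intro h0; rw [h0] at hlt hPq; simp at hlt hPq; linarith
    have hbq := hb1 q (hKT hq)
    have hH2 : ‖b q‖ < ‖g q‖ ^ N := by
      simp only [hHf, norm_div, norm_pow] at hH1
      rwa [one_lt_div (by linarith)] at hH1
    have hg1 : 1 < ‖g q‖ := by
      by_contra hh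
      push Not at hh
      have := pow_le_one₀ (n := N) (norm_nonneg _) hh
      linarith
    have hbR : ‖b q‖ < R' := by
      have : ‖g q‖ ^ N ≤ |Q| ^ N :=
        pow_le_pow_left₀ (norm_nonneg _) ((hQ q (hKT hq)).trans (le_abs_self Q)) N
      have := norm_nonneg (b p0)
      linarith
    obtain ⟨f1, f2⟩ := hbound q (hKT hq) hbR.le
    have hcrit : ∀ s, M s = F1 q.1 → ‖s - a‖ ≤ R' * δ → deriv M s ≠ 0 := by
      intro s hs hs2 h0
      apply hP0
      refine Finset.prod_eq_zero (i := s) ?_ (by rw [hs, sub_self])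
      simp only [hS, Set.Finite.mem_toFinset, mem_ofPred_eq, mem_closedBall, dist_eq_norm]
      exact ⟨hs2, h0⟩
    have hfr : ∃ᶠ p in 𝓝 q, p ∈ T := mem_closure_iff_frequently.1 (hKT hq)
    have g1 : Good M F1 F2 Ψ q.1 q.2.1 := by
      refine good_of_freq H (hcrit _ e1 f1) ?_
      have : Continuous (fun p : ℂ × ℂ × ℂ => (p.1, p.2.1)) := by fun_prop
      exact (this.tendsto q).frequently (hfr.mono fun p hp => (hT p hp).1)
    have g2 : Good M F1 F2 Ψ q.1 q.2.2 := by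
      refine good_of_freq H (hcrit _ e2 f2) ?_
      have : Continuous (fun p : ℂ × ℂ × ℂ => (p.1, p.2.2)) := by fun_prop
      exact (this.tendsto q).frequently (hfr.mono fun p hp => (hT p hp).2.1)
    obtain ⟨γ, hγ0, -, hγ⟩ := hsec q (hKT hq) g1 g2 hg1 hbR
    refine ⟨γ, hγ0, ?_⟩
    filter_upwards [hγ, hγ.eventually_nhds] with z hz hz'
    refine ⟨hz.1, hz.2.1, ?_⟩
    have : (fun w => Hf (γ w) ^ n * P (γ w).1) =ᶠ[𝓝 z] fun w => Hf (γ w) ^ n * P w := by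
      filter_upwards [hz'] with w hw; rw [hw.2.1]
    exact ((hz.2.2.pow n).mul (hPd z)).congr_of_eventuallyEq this
  -- the base point
  have hp0b : ‖b p0‖ < R' := by have := pow_nonneg (abs_nonneg Q) N; linarith
  obtain ⟨γ, hγ0, -, hγ⟩ :=
    hsec p0 (subset_closure hp0) (hT p0 hp0).1 (hT p0 hp0).2.1 hcon hp0b
  have hH0 : 1 < ‖Hf (γ p0.1)‖ := by
    rw [hγ0]
    simp only [hHf, norm_div, norm_pow]
    have := hb1 p0 (subset_closure hp0)
    rwa [one_lt_div (by linarith)]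
  have hev1 : ∀ᶠ z in 𝓝 p0.1, 1 < ‖Hf (γ z)‖ :=
    continuousAt_const.eventually_lt hγ.self_of_nhds.2.2.continuousAt.norm hH0
  have hev2 : ∀ᶠ z in 𝓝[≠] p0.1, P z ≠ 0 := by
    have : ∀ᶠ z in 𝓝[≠] p0.1, ∀ c ∈ S, F1 z ≠ M c :=
      (eventually_all_finset S).2 fun c _ => ev_ne_of_deriv H.h1 hF _ _
    filter_upwards [this] with z hz
    exact Finset.prod_ne_zero_iff.2 fun c hc => sub_ne_zero.2 (hz c hc)
  obtain ⟨z, hz1, hz2, hz3⟩ :=
    (hev2.and (nhdsWithin_le_nhds (hev1.and hγ))).exists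
  have hPpos : 0 < ‖P z‖ := norm_pos_iff.2 hz1
  obtain ⟨n, hn⟩ := pow_unbounded_of_one_lt (C0 / ‖P z‖) hz2
  have := hmain n _ hz3.1
  rw [norm_mul, norm_pow, hz3.2.1] at this
  rw [div_lt_iff₀ hPpos] at hn
  linarith

end Pool.Agent.MP_9cb8e5_pr.H67
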