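import Mathlib

/-! Saddle point estimates for the Fourier transform of `exp (-w (ξ² - ε (1 - cos ξ)))`. -/

open Complex Filter Topology Set MeasureTheory

namespace Pool.Agent.MP_9cb8e5_pr.H67

theorem shift_line {f : ℂ → ℂ} (hf : Differentiable ℂ f) {B b Y : ℝ} (hb : 0 < b)
    (h : ∀ u c : ℝ, c ∈ uIcc 0 Y → ‖f (u + c * I)‖ ≤ B * Real.exp (-b * u ^ 2)) :
    ∫ u : ℝ, f u = ∫ u : ℝ, f (u + Y * I) := by
  have hc := hf.continuous
  have hi : ∀ c : ℝ, c ∈ uIcc 0 Y → Integrable fun u : ℝ => f (u + c * I) := fun c hc' =>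
    ((integrable_exp_neg_mul_sq hb).const_mul B).mono' (by fun_prop)
      (Eventually.of_forall fun u => h u c hc')
  have h0 : Integrable fun u : ℝ => f u := by simpa using hi 0 left_mem_uIcc
  have t0 := intervalIntegral_tendsto_integral h0 tendsto_neg_atTop_atBot tendsto_id
  have t1 := intervalIntegral_tendsto_integral (hi Y right_mem_uIcc) tendsto_neg_atTop_atBot
    tendsto_id
  have hv : ∀ s : ℝ, s ^ 2 = 1 →
      Tendsto (fun T : ℝ => ∫ c : ℝ in (0 : ℝ)..Y, f ((s * T : ℝ) + c * I)) atTop (𝓝 0) := by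
    intro s hs
    have h1 : Tendsto (fun T : ℝ => B * Real.exp (-b * T ^ 2) * |Y - 0|) atTop (𝓝 0) := by
      have := Real.tendsto_exp_atBot.comp
        ((tendsto_pow_atTop (α := ℝ) two_ne_zero).const_mul_atTop_of_neg (neg_lt_zero.2 hb))
      simpa using (this.const_mul B).mul_const |Y|
    refine squeeze_zero_norm (fun T => intervalIntegral.norm_integral_le_of_norm_le_const
      fun c hc' => ?_) h1
    simpa [mul_pow, hs] using h (s * T) c (uIoc_subset_uIcc hc')
  have key := ((t0.sub t1).add ((hv 1 (by simp)).const_smul I)).sub ((hv (-1) (by simp)).const_smul I)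
  have : ∀ T : ℝ, _ := fun T => integral_boundary_rect_eq_zero_of_differentiableOn f (-T)
    (T + Y * I) hf.differentiableOn
  have e := tendsto_nhds_unique key (tendsto_const_nhds.congr fun T => by
    have := this T
    simp only [neg_im, ofReal_im, neg_zero, ofReal_zero, zero_mul, add_zero, neg_re,
      ofReal_re, add_re, mul_re, I_re, mul_zero, I_im, tsub_zero, add_im, mul_im,
      mul_one, zero_add, ofReal_neg] at this
    simpa using this.symm)
  simpa [sub_eq_zero] using e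

/-- the exponent -/
noncomputable def ex (ε w x : ℝ) (z : ℂ) : ℂ := -w * z ^ 2 + w * ε * (1 - cos z) - I * x * z

/-- `2 π` times the inverse Fourier transform -/
noncomputable def QQ (ε w x : ℝ) : ℂ := ∫ u : ℝ, exp (ex ε w x u)

theorem ex_eq (ε w x u y : ℝ) : ex ε w x (u + (-y : ℝ) * I) =
    (-w * u ^ 2 + w * y ^ 2 - x * y + w * ε * (1 - Real.cos u * Real.cosh y) : ℝ) +
      (u * (2 * w * y - x) - w * ε * Real.sin u * Real.sinh y : ℝ) * I := by
  simp only [ex, cos_add, cos_mul_I, sin_mul_I]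
  push_cast
  simp only [cosh_neg, sinh_neg]
  linear_combination (-w * y ^ 2 + x * y) * I_sq

theorem norm_one_sub_cos (u y : ℝ) : ‖1 - cos (u + y * I)‖ ≤ 1 + Real.cosh y := by
  refine (norm_sub_le _ _).trans ?_
  rw [norm_one, Real.cosh_eq, Complex.cos, norm_div, Complex.norm_two]
  gcongr
  refine (norm_add_le _ _).trans (le_of_eq ?_)
  simp [norm_exp, add_comm]

theorem norm_ex (ε : ℝ) {w : ℝ} (hw : 0 < w) (x u y : ℝ) : ‖exp (ex ε w x (u + y * I))‖ ≤
    Real.exp (w * y ^ 2 + x * y + w * |ε| * (1 + Real.cosh y)) * Real.exp (-w * u ^ 2) := by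
  have := ex_eq ε w x u (-y)
  rw [neg_neg] at this
  rw [this, norm_exp, ← Real.exp_add, Real.exp_le_exp]
  simp only [add_re, ofReal_re, mul_re, I_re, mul_zero, ofReal_im, I_im, mul_one, sub_self,
    add_zero, Real.cosh_neg]
  have h1 : ε * (1 - Real.cos u * Real.cosh y) ≤ |ε| * (1 + Real.cosh y) := by
    refine (le_abs_self _).trans ?_
    rw [abs_mul]
    gcongr
    have := Real.cosh_pos y
    rw [abs_le]
    constructor <;> nlinarith [Real.cos_le_one u, Real.neg_one_le_cos u]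
  nlinarith

theorem QQ_shift (ε : ℝ) {w : ℝ} (hw : 0 < w) (x y : ℝ) :
    QQ ε w x = ∫ u : ℝ, exp (ex ε w x (u + y * I)) := by
  refine shift_line (f := fun z => exp (ex ε w x z)) (by unfold ex; fun_prop) hw
    (B := Real.exp (w * y ^ 2 + |x| * |y| + w * |ε| * (1 + Real.cosh y))) fun u c hc => ?_
  refine (norm_ex ε hw x u c).trans ?_
  have h1 : |c| ≤ |y| := by simpa using abs_sub_left_of_mem_uIcc hc
  have h2 : c ^ 2 ≤ y ^ 2 := sq_le_sq.2 h1
  have h3 := Real.cosh_le_cosh.2 h1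
  have h4 : x * c ≤ |x| * |y| := (le_abs_self _).trans (by rw [abs_mul]; gcongr)
  gcongr

theorem int_ex (ε : ℝ) {w : ℝ} (hw : 0 < w) (x y : ℝ) :
    Integrable fun u : ℝ => exp (ex ε w x (u + y * I)) :=
  ((integrable_exp_neg_mul_sq hw).const_mul _).mono' (by unfold ex; fun_prop)
    (Eventually.of_forall fun u => norm_ex ε hw x u y)

theorem norm_QQ (ε : ℝ) {w : ℝ} (hw : 0 < w) (x y : ℝ) : ‖QQ ε w x‖ ≤
    Real.exp (w * y ^ 2 + x * y + w * |ε| * (1 + Real.cosh y)) * √(Real.pi / w) := by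
  rw [QQ_shift ε hw x y, ← integral_gaussian, ← integral_const_mul]
  exact norm_integral_le_of_norm_le ((integrable_exp_neg_mul_sq hw).const_mul _)
    (Eventually.of_forall fun u => norm_ex ε hw x u y)

theorem norm_exp_sub_one (z : ℂ) : ‖exp z - 1‖ ≤ Real.exp ‖z‖ - 1 := by
  simpa using norm_exp_sub_sum_le_exp_norm_sub_sum z 1

theorem QQ_sub (ε : ℝ) {w : ℝ} (hw : 0 < w) (x y : ℝ) : ‖QQ ε w x - QQ 0 w x‖ ≤
    Real.exp (w * y ^ 2 + x * y) * (Real.exp (w * |ε| * (1 + Real.cosh y)) - 1) *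
      √(Real.pi / w) := by
  rw [QQ_shift ε hw x y, QQ_shift 0 hw x y, ← integral_sub (int_ex ε hw x y) (int_ex 0 hw x y),
    ← integral_gaussian, ← integral_const_mul]
  refine norm_integral_le_of_norm_le ((integrable_exp_neg_mul_sq hw).const_mul _)
    (Eventually.of_forall fun u => ?_)
  have e : exp (ex ε w x (u + y * I)) - exp (ex 0 w x (u + y * I)) =
      exp (ex 0 w x (u + y * I)) * (exp (w * ε * (1 - cos (u + y * I))) - 1) := by
    rw [mul_sub, ← exp_add, mul_one]; congr 2; simp only [ex]; push_cast; ring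
  have h1 := norm_ex 0 hw x u y
  simp only [abs_zero, mul_zero, zero_mul, add_zero] at h1
  have h2 : ‖exp (w * ε * (1 - cos (u + y * I))) - 1‖ ≤
      Real.exp (w * |ε| * (1 + Real.cosh y)) - 1 := by
    refine (norm_exp_sub_one _).trans ?_
    rw [norm_mul, norm_mul, norm_real, norm_real, Real.norm_of_nonneg hw.le, Real.norm_eq_abs]
    gcongr
    exact norm_one_sub_cos u y
  rw [e, norm_mul, mul_right_comm (Real.exp (w * y ^ 2 + x * y))]
  gcongr

theorem sinh_le_mul_cosh {y : ℝ} (hy : 0 ≤ y) : Real.sinh y ≤ y * Real.cosh y ∧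
    Real.cosh y - 1 ≤ y ^ 2 * Real.cosh y := by
  rcases hy.eq_or_lt with rfl | hy
  · simp
  obtain ⟨c, hc, h1⟩ := exists_hasDerivAt_eq_slope Real.sinh Real.cosh hy
    Real.continuous_sinh.continuousOn fun t _ => Real.hasDerivAt_sinh t
  obtain ⟨d, hd, h2⟩ := exists_hasDerivAt_eq_slope Real.cosh Real.sinh hy
    Real.continuous_cosh.continuousOn fun t _ => Real.hasDerivAt_cosh t
  simp only [Real.sinh_zero, sub_zero, Real.cosh_zero] at h1 h2
  rw [eq_div_iff hy.ne'] at h1 h2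
  have h3 : Real.cosh c ≤ Real.cosh y := Real.cosh_le_cosh.2 (by
    rw [abs_of_pos hc.1, abs_of_pos hy]; exact hc.2.le)
  have h4 : Real.sinh d ≤ Real.sinh y := Real.sinh_le_sinh.2 hd.2.le
  have h5 : Real.sinh y ≤ y * Real.cosh y := by nlinarith
  exact ⟨h5, by nlinarith⟩

theorem abs_sub_sin_le_sq (u : ℝ) : |u - Real.sin u| ≤ u ^ 2 / 2 := by
  rw [← sq_abs]
  rcases le_total |u| 3 with h | h
  · refine (Real.abs_sub_sin_le u).trans ?_
    nlinarith [sq_nonneg |u|]
  · refine (abs_sub _ _).trans ?_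
    nlinarith [Real.abs_sin_le_one u]

theorem QQ_pos {ε w x K : ℝ} (hw : 0 < w) (hx : 0 ≤ x) (hK : x ≤ K * w)
    (hε : |ε| * Real.cosh K ≤ 1 / 2) :
    √(Real.pi / w) / 2 * Real.exp (-(x ^ 2 / w)) ≤ (QQ ε w x).re := by
  have hxw : 0 ≤ x / w := by positivity
  have hsm : ∀ y, 0 ≤ y → y ≤ x / w → |ε| * Real.cosh y ≤ 1 / 2 := fun y h1 h2 => by
    have : y ≤ K := h2.trans ((div_le_iff₀ hw).2 hK)
    have := Real.cosh_le_cosh.2 (show |y| ≤ |K| by
      rw [abs_of_nonneg h1, abs_of_nonneg (h1.trans this)]; exact this)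
    exact le_trans (by gcongr) hε
  have hsh : ∀ y, 0 ≤ y → y ≤ x / w → |ε * Real.sinh y| ≤ y / 2 := fun y h1 h2 => by
    rw [abs_mul, abs_of_nonneg (Real.sinh_nonneg_iff.2 h1)]
    nlinarith [hsm y h1 h2, mul_le_mul_of_nonneg_left (sinh_le_mul_cosh h1).1 (abs_nonneg ε)]
  obtain ⟨y, ⟨hy0, hy1⟩, hy⟩ : x / w ∈ (fun y => 2 * y - ε * Real.sinh y) '' Icc 0 (x / w) := by
    refine intermediate_value_Icc hxw (by fun_prop) ⟨by simpa using hxw, ?_⟩
    have := (abs_le.1 (hsh _ hxw le_rfl)).2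
    linarith
  simp only at hy
  rw [eq_div_iff hw.ne'] at hy
  have hc := hsm y hy0 hy1
  set A : ℝ := w * y ^ 2 - x * y + w * ε * (1 - Real.cosh y) with hA
  have hAl : -(x ^ 2 / w) ≤ A := by
    have h1 : x * y ≤ x ^ 2 / w := by
      rw [sq, mul_div_assoc]; exact mul_le_mul_of_nonneg_left hy1 hx
    have h2 := (sinh_le_mul_cosh hy0).2
    have h3 : ε * (Real.cosh y - 1) ≤ |ε| * (y ^ 2 * Real.cosh y) := by
      have := Real.one_le_cosh y
      refine (mul_le_mul_of_nonneg_right (le_abs_self ε) (by linarith)).trans ?_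
      gcongr
    have h4 : ε * (Real.cosh y - 1) ≤ y ^ 2 := by nlinarith [sq_nonneg y]
    nlinarith
  have hpt : ∀ u : ℝ, Real.exp A * (2 * Real.exp (-w * u ^ 2) - Real.exp (-(w / 2) * u ^ 2)) ≤
      (exp (ex ε w x (u + (-y : ℝ) * I))).re := fun u => by
    set r : ℂ := (w * ε * Real.cosh y * (1 - Real.cos u) : ℝ) +
      (w * ε * Real.sinh y * (u - Real.sin u) : ℝ) * I with hr
    have e : ex ε w x (u + (-y : ℝ) * I) = (A + -w * u ^ 2 : ℝ) + r := by
      rw [ex_eq, hr, ← add_assoc, ← ofReal_add]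
      congr 2
      · rw [hA]; ring
      · rw [← hy]; push_cast; ring
    have h1 : ‖r‖ ≤ w / 2 * u ^ 2 := by
      refine (norm_add_le _ _).trans ?_
      rw [norm_mul, norm_I, mul_one, norm_real, norm_real, Real.norm_eq_abs, Real.norm_eq_abs]
      simp only [abs_mul, abs_of_pos hw, abs_of_pos (Real.cosh_pos y),
        abs_of_nonneg (Real.sinh_nonneg_iff.2 hy0), abs_of_nonneg (sub_nonneg.2 (Real.cos_le_one u))]
      have a1 : 1 - Real.cos u ≤ u ^ 2 / 2 := by linarith [Real.one_sub_sq_div_two_le_cos (x := u)]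
      have a2 := abs_sub_sin_le_sq u
      have a3 : |ε| * Real.sinh y ≤ 1 / 2 :=
        le_trans (mul_le_mul_of_nonneg_left (Real.sinh_lt_cosh y).le (abs_nonneg ε)) hc
      have a4 := sub_nonneg.2 (Real.cos_le_one u)
      calc _ = w * ((|ε| * Real.cosh y) * (1 - Real.cos u) +
            (|ε| * Real.sinh y) * |u - Real.sin u|) := by ring
        _ ≤ w * (1 / 2 * (u ^ 2 / 2) + 1 / 2 * (u ^ 2 / 2)) := by gcongr
        _ = _ := by ring
    have h2 : 2 - Real.exp (w / 2 * u ^ 2) ≤ (exp r).re := by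
      have a1 := norm_exp_sub_one r
      have a2 := (abs_le.1 (abs_re_le_norm (exp r - 1))).1
      have a3 := Real.exp_le_exp.2 h1
      simp only [sub_re, one_re] at a2; linarith
    rw [e, exp_add, ← ofReal_exp, re_ofReal_mul, Real.exp_add A, mul_assoc (Real.exp A)]
    refine mul_le_mul_of_nonneg_left ?_ (Real.exp_pos _).le
    refine le_trans (le_of_eq ?_) (mul_le_mul_of_nonneg_left h2 (Real.exp_pos _).le)
    rw [mul_sub, ← Real.exp_add]; congr 1
    · ring
    · congr 1; ring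
  have i1 := (integrable_exp_neg_mul_sq hw).const_mul 2
  have i2 := integrable_exp_neg_mul_sq (half_pos hw)
  have h1 := integral_mono ((i1.sub i2).const_mul (Real.exp A)) (int_ex ε hw x (-y)).re hpt
  rw [integral_re (int_ex ε hw x (-y)), ← QQ_shift ε hw, integral_const_mul] at h1
  simp only [Pi.sub_apply] at h1
  rw [integral_sub i1 i2, integral_const_mul, integral_gaussian, integral_gaussian] at h1
  refine le_trans ?_ h1
  have h2 : √(Real.pi / (w / 2)) ≤ 3 / 2 * √(Real.pi / w) := by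
    rw [Real.sqrt_le_left (by positivity), mul_pow, Real.sq_sqrt (by positivity),
      show Real.pi / (w / 2) = 2 * (Real.pi / w) by field_simp]
    have : 0 ≤ Real.pi / w := by positivity
    nlinarith
  rw [mul_comm]
  have := Real.exp_le_exp.2 hAl
  gcongr
  linarith

theorem QQ_neg (ε w x : ℝ) : QQ ε w (-x) = QQ ε w x := by
  rw [QQ, QQ, ← integral_neg_eq_self]; simp [ex]

theorem QQ_im (ε w x : ℝ) : ((QQ ε w x).re : ℂ) = QQ ε w x := by
  rw [← conj_eq_iff_re]
  conv_rhs => rw [← QQ_neg]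
  rw [QQ, QQ, ← integral_conj]
  congr 1; ext u
  rw [← exp_conj]; congr 1
  simp [ex, ← ofReal_cos]

end Pool.Agent.MP_9cb8e5_pr.H67
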