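import Pool.Agent.MP_9cb8e5_pr.H67.PL

/-! Uniqueness (modulo periods) and local boundedness of good points. -/

open Complex Filter Topology Set Metric

namespace Pool.Agent.MP_9cb8e5_pr.H67

structure Hyp (M F1 F2 Ψ : ℂ → ℂ) : Prop extends Ent M F1 F2 Ψ where
  d0 : deriv M 0 ≠ 0
  hF : ∃ x, deriv F1 x ≠ 0
  uniq : ∀ (y : ℝ) (s s' : ℂ), M s = F1 y → M (Ψ y - s) = F2 y → M s' = F1 y →
    M (Ψ y - s') = F2 y → Per M (s - s')
  perim : ∀ t, Per M t → t.re = 0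
  big : Tendsto (fun x : ℝ => ‖M x‖) atTop atTop
  base : ∃ σ : ℂ → ℂ, AnalyticAt ℂ σ 0 ∧ σ 0 = 0 ∧
    ∀ᶠ w in 𝓝 0, M (σ w) = F1 w ∧ M (Ψ w - σ w) = F2 w

variable {M F1 F2 Ψ : ℂ → ℂ}

theorem Hyp.large (H : Hyp M F1 F2 Ψ) (R : ℝ) : ∃ A : ℝ, 0 < A ∧ ∀ x : ℝ, A ≤ x → ∀ z : ℂ,
    ‖z‖ ≤ R → ‖F1 z‖ + 1 < ‖M x‖ ∧ ‖F2 z‖ + 1 < ‖M x‖ := by
  obtain ⟨C1, hC1⟩ := (isCompact_closedBall (0 : ℂ) R).exists_bound_of_continuousOn
    H.h1.continuous.continuousOn
  obtain ⟨C2, hC2⟩ := (isCompact_closedBall (0 : ℂ) R).exists_bound_of_continuousOn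
    H.h2.continuous.continuousOn
  obtain ⟨A, hA⟩ := eventually_atTop.1 (H.big.eventually_gt_atTop (max C1 C2 + 1))
  refine ⟨max A 1, by positivity, fun x hx z hz => ?_⟩
  have h1 := hA x (le_trans (le_max_left _ _) hx)
  have h2 := hC1 z (by simpa using hz)
  have h3 := hC2 z (by simpa using hz)
  constructor <;> linarith [le_max_left C1 C2, le_max_right C1 C2]

theorem Hyp.barrier (H : Hyp M F1 F2 Ψ) (R : ℝ) :
    ∃ (a : ℂ) (δ : ℝ), 0 < δ ∧ ∀ z s, ‖z‖ ≤ R → M s = F1 z → δ ≤ ‖s - a‖ := by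
  obtain ⟨A, -, hA⟩ := H.large R
  obtain ⟨δ, hδ, h⟩ := Metric.continuousAt_iff.1 (H.hM.continuous.continuousAt (x := (A : ℂ))) 1
    one_pos
  refine ⟨A, δ, hδ, fun z s hz hs => ?_⟩
  by_contra hc
  push Not at hc
  have h1 := h (x := s) (by rwa [dist_eq_norm])
  rw [dist_eq_norm, hs] at h1
  have h2 := (hA A le_rfl z hz).1
  have h3 := norm_sub_norm_le (M A) (F1 z)
  rw [norm_sub_rev] at h1
  linarith

theorem Hyp.uniq_good (H : Hyp M F1 F2 Ψ) {z s s' : ℂ} (h : Good M F1 F2 Ψ z s)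
    (h' : Good M F1 F2 Ψ z s') : Per M (s - s') := by
  have hreal : ∀ z s s' : ℂ, z.im = 0 → Good M F1 F2 Ψ z s → Good M F1 F2 Ψ z s' →
      Per M (s - s') := by
    intro z s s' hz h h'
    have hz' : z = (z.re : ℂ) := Complex.ext (by simp) (by simp [hz])
    have := H.uniq z.re s s'
    rw [← hz'] at this
    exact this h.2.1 h.eq2 h'.2.1 h'.eq2
  by_cases hz : z.im = 0
  · exact hreal z s s' hz h h'
  obtain ⟨e, he1, he⟩ : ∃ e : ℝ, e ^ 2 = 1 ∧ 0 ≤ e * z.im := by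
    rcases le_total 0 z.im with h0 | h0
    · exact ⟨1, by norm_num, by linarith⟩
    · exact ⟨-1, by norm_num, by linarith⟩
  by_contra hper
  set R := ‖z‖ + 3 with hR
  obtain ⟨a, δ, hδ, ha⟩ := H.barrier R
  set T : Set (ℂ × ℂ × ℂ) := {q | (Good M F1 F2 Ψ q.1 q.2.1 ∧ Good M F1 F2 Ψ q.1 q.2.2 ∧
    ‖q.1‖ ≤ R) ∧ 0 ≤ e * q.1.im ∧ ¬ Per M (q.2.1 - q.2.2)} with hT
  have hen : ‖(e : ℂ) * I‖ = 1 := by
    simp only [norm_mul, norm_real, norm_I, mul_one, Real.norm_eq_abs]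
    exact (sq_eq_sq₀ (abs_nonneg e) zero_le_one).1 (by rw [sq_abs, he1]; norm_num)
  have hlow : ∀ w : ℂ, 0 ≤ e * w.im → 1 ≤ ‖w + e * I‖ := by
    intro w hw
    have h1 := Complex.abs_im_le_norm (w + e * I)
    simp only [add_im, mul_im, ofReal_re, I_im, mul_one, ofReal_im, I_re, mul_zero,
      add_zero] at h1
    refine le_trans ?_ h1
    refine (sq_le_sq₀ zero_le_one (abs_nonneg _)).1 ?_
    rw [sq_abs]; nlinarith [sq_nonneg w.im]
  have hcl : ∀ q ∈ closure T, 0 ≤ e * q.1.im := fun q hq =>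
    (isClosed_le (f := fun _ : ℂ × ℂ × ℂ => (0 : ℝ)) (g := fun q => e * q.1.im)
      continuous_const (by fun_prop)).closure_subset_iff.2 (fun q hq => hq.2.1) hq
  have hR1 : 0 < R - 1 := by have := norm_nonneg z; linarith
  have hgn : ∀ w : ℂ, ‖((R - 1 : ℝ) : ℂ) / (w + e * I)‖ = (R - 1) / ‖w + e * I‖ := by
    intro w; rw [norm_div, norm_real, Real.norm_eq_abs, abs_of_pos hR1]
  have key := PL (T := T) (g := fun q => ((R - 1 : ℝ) : ℂ) / (q.1 + e * I)) (Q := R - 1)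
    H.toEnt ⟨0, H.d0⟩ H.hF hδ ha (fun q hq => hq.1) ?_ ?_ ?_ (z, s, s')
    ⟨⟨h, h', by simp only [hR]; linarith⟩, he, hper⟩
  · simp only at key
    rw [hgn, div_le_one (by linarith [hlow z he])] at key
    have := norm_add_le z (e * I)
    linarith
  · refine continuousOn_const.div (by fun_prop) fun q hq h0 => ?_
    have := hlow _ (hcl q hq); rw [h0] at this; norm_num at this
  · intro q hq
    rw [hgn]
    exact div_le_self hR1.le (hlow _ hq.2.1)
  · rintro ⟨w, x, x'⟩ hq g1 g2 hg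
    simp only at g1 g2 hg
    have h0 := hcl _ hq
    simp only at h0
    have h1 := hlow w h0
    rw [hgn, one_lt_div (by linarith)] at hg
    have hwR : ‖w‖ < R := by
      have := norm_sub_le (w + e * I) (e * I)
      rw [add_sub_cancel_right] at this
      linarith
    have hnp : ¬ Per M (x - x') := by
      intro ht
      obtain ⟨l, -, -, hl, -⟩ := loc_inv H.hM g1.1
      have t1 : Tendsto (fun p : ℂ × ℂ × ℂ => p.2.1) (𝓝 (w, x, x')) (𝓝 x) :=
        (by fun_prop : Continuous fun p : ℂ × ℂ × ℂ => p.2.1).tendsto _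
      have t2 : Tendsto (fun p : ℂ × ℂ × ℂ => p.2.2 + (x - x')) (𝓝 (w, x, x')) (𝓝 x) := by
        have := (by fun_prop : Continuous fun p : ℂ × ℂ × ℂ => p.2.2 + (x - x')).tendsto (w, x, x')
        simpa using this
      obtain ⟨p, hp, e1, e2⟩ := ((mem_closure_iff_frequently.1 hq).and_eventually
        ((t1.eventually hl).and (t2.eventually hl))).exists
      apply hp.2.2
      rw [ht, hp.1.2.1.2.1, ← hp.1.1.2.1, e1] at e2
      rw [e2]; simpa using ht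
    have hpos : 0 < e * w.im := by
      refine lt_of_le_of_ne h0 fun h3 => hnp (hreal w x x' ?_ g1 g2)
      rcases mul_eq_zero.1 h3.symm with h4 | h4
      · rw [h4] at he1; norm_num at he1
      · exact h4
    constructor
    · have o1 : ∀ᶠ p : ℂ × ℂ × ℂ in 𝓝 (w, x, x'), ‖p.1‖ < R :=
        (by fun_prop : Continuous fun p : ℂ × ℂ × ℂ => ‖p.1‖).continuousAt.eventually_lt
          continuousAt_const hwR
      have o2 : ∀ᶠ p : ℂ × ℂ × ℂ in 𝓝 (w, x, x'), 0 < e * p.1.im :=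
        continuousAt_const.eventually_lt
          (by fun_prop : Continuous fun p : ℂ × ℂ × ℂ => e * p.1.im).continuousAt hpos
      have o3 : ∀ᶠ p : ℂ × ℂ × ℂ in 𝓝 (w, x, x'), p.2.1 - p.2.2 ∈ {t | Per M t}ᶜ :=
        ((by fun_prop : Continuous fun p : ℂ × ℂ × ℂ => p.2.1 - p.2.2).tendsto _).eventually
          ((isClosed_per H.hM.continuous).isOpen_compl.mem_nhds hnp)
      filter_upwards [o1, o2, o3] with p a1 a2 a3 b1 b2 using ⟨⟨b1, b2, a1.le⟩, a2.le, a3⟩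
    · have o1 : ∀ᶠ p : ℂ × ℂ × ℂ in 𝓝 (w, x, x'), p.1 + e * I ≠ 0 :=
        (by fun_prop : Continuous fun p : ℂ × ℂ × ℂ => p.1 + e * I).continuousAt.eventually_ne
          (by intro h5; simp only at h5; rw [h5] at h1; norm_num at h1)
      filter_upwards [o1] with p hp
      simp only [div_eq_mul_inv]
      have k1 : DifferentiableAt ℂ (fun q : ℂ × ℂ × ℂ => q.1 + e * I) p := by fun_prop
      exact (differentiableAt_const _).mul (k1.inv hp)

theorem sqrt_sq (w : ℂ) : w.sqrt ^ 2 = w := by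
  rw [Complex.sqrt]; exact cpow_ofNat_inv_pow w 2

theorem re_sqrt (w : ℂ) : w.sqrt.re = √((‖w‖ + w.re) / 2) := by
  rw [Complex.sqrt]; exact cpow_inv_two_re w

theorem norm_sqrt_sq (w : ℂ) : ‖w.sqrt‖ ^ 2 = ‖w‖ := by rw [← norm_pow, sqrt_sq]

theorem re_inv_sqrt_nonneg (w : ℂ) : 0 ≤ (w.sqrt⁻¹).re := by
  rw [inv_re, re_sqrt]; exact div_nonneg (Real.sqrt_nonneg _) (normSq_nonneg _)

theorem re_inv_sqrt_ge {w : ℂ} (h : ‖w - 1‖ ≤ 1 / 2) : 1 / 4 ≤ (w.sqrt⁻¹).re := by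
  rw [inv_re, re_sqrt, normSq_eq_norm_sq, norm_sqrt_sq]
  have h1 : 1 / 2 ≤ w.re := by
    have := (abs_le.1 ((abs_re_le_norm (w - 1)).trans h)).1
    simp at this; linarith
  have h2 : w.re ≤ ‖w‖ := re_le_norm w
  have h3 : ‖w‖ ≤ 3 / 2 := by
    have := norm_add_le (w - 1) 1
    simp at this; linarith
  have h4 : 1 / 2 ≤ √((‖w‖ + w.re) / 2) := Real.le_sqrt_of_sq_le (by linarith)
  rw [le_div_iff₀ (by linarith)]
  linarith

theorem mem_slit {A : ℝ} (hA : 0 < A) {c : ℂ} (h : ∀ x : ℝ, A ≤ x → c ≠ x) :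
    1 - c / A ∈ slitPlane := by
  by_contra hc
  rw [mem_slitPlane_iff] at hc
  push Not at hc
  obtain ⟨h1, h2⟩ := hc
  simp only [sub_re, one_re, div_ofReal_re, sub_im, one_im, div_ofReal_im, zero_sub, neg_eq_zero,
    div_eq_zero_iff, hA.ne', or_false] at h1 h2
  refine h c.re ?_ (Complex.ext (by simp) (by simp [h2]))
  have : 1 ≤ c.re / A := by linarith
  rwa [one_le_div hA] at this

theorem Hyp.bound_good (H : Hyp M F1 F2 Ψ) {χ : ℂ × ℂ → ℂ} (hχ : Differentiable ℂ χ)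
    {ρ R0 A : ℝ} (hρ : 0 < ρ) (hA : 0 < A) (hR0 : ρ < R0)
    (homit : ∀ z s, ‖z‖ ≤ R0 + 1 → M s = F1 z → M (Ψ z - s) = F2 z → ∀ x : ℝ, A ≤ x →
      χ (z, s) ≠ x)
    (hin : ∀ z s, ‖z‖ ≤ ρ → Good M F1 F2 Ψ z s → ‖χ (z, s)‖ ≤ A / 2) :
    ∃ C : ℝ, ∀ z s, ‖z‖ ≤ R0 → Good M F1 F2 Ψ z s → ‖χ (z, s)‖ ≤ C := by
  set R := R0 + 1 with hR
  obtain ⟨a, δ, hδ, ha⟩ := H.barrier R
  set T : Set (ℂ × ℂ × ℂ) := {q | (Good M F1 F2 Ψ q.1 q.2.1 ∧ Good M F1 F2 Ψ q.1 q.2.2 ∧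
    ‖q.1‖ ≤ R) ∧ ρ ≤ ‖q.1‖} with hT
  have hRpos : 0 < R := by linarith
  set lam : ℝ := 4 * Real.log (R / ρ) with hlam
  have hlam0 : 0 < lam := by
    have : 0 < Real.log (R / ρ) := Real.log_pos (by rw [one_lt_div hρ]; linarith)
    linarith
  set w : ℂ × ℂ × ℂ → ℂ := fun q => 1 - χ (q.1, q.2.1) / A with hw
  have hwd : Differentiable ℂ w := by rw [hw]; fun_prop
  set g : ℂ × ℂ × ℂ → ℂ := fun q => (R : ℂ) / q.1 * exp (-(lam : ℂ) * (w q).sqrt⁻¹) with hg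
  have hgn : ∀ q, ‖g q‖ = R / ‖q.1‖ * Real.exp (-(lam * ((w q).sqrt⁻¹).re)) := by
    intro q
    simp only [hg, norm_mul, norm_div, norm_real, Real.norm_eq_abs, abs_of_pos hRpos, norm_exp,
      neg_mul, neg_re, re_ofReal_mul]
  have hMc := H.hM.continuous
  have h1c := H.h1.continuous
  have h2c := H.h2.continuous
  have hΨc := H.hΨ.continuous
  have hcl : ∀ q ∈ closure T, (M q.2.1 = F1 q.1 ∧ M (Ψ q.1 - q.2.1) = F2 q.1) ∧
      ‖q.1‖ ≤ R ∧ ρ ≤ ‖q.1‖ := by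
    have hc : IsClosed {q : ℂ × ℂ × ℂ | (M q.2.1 = F1 q.1 ∧ M (Ψ q.1 - q.2.1) = F2 q.1) ∧
        ‖q.1‖ ≤ R ∧ ρ ≤ ‖q.1‖} :=
      IsClosed.and (IsClosed.and (isClosed_eq (by fun_prop) (by fun_prop))
        (isClosed_eq (by fun_prop) (by fun_prop)))
        (IsClosed.and (isClosed_le (by fun_prop) (by fun_prop))
          (isClosed_le (by fun_prop) (by fun_prop)))
    exact fun q hq => hc.closure_subset_iff.2
      (fun q hq => ⟨⟨hq.1.1.2.1, hq.1.1.eq2⟩, hq.1.2.2, hq.2⟩) hq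
  have hslit : ∀ q ∈ closure T, w q ∈ slitPlane := fun q hq =>
    mem_slit hA (homit _ _ (hcl q hq).2.1 (hcl q hq).1.1 (hcl q hq).1.2)
  have hdiff : ∀ q, w q ∈ slitPlane → q.1 ≠ 0 → DifferentiableAt ℂ g q := by
    intro q h1 h2
    have k1 : DifferentiableAt ℂ (fun q => (w q).sqrt) q :=
      (differentiableAt_sqrt h1).comp q (hwd q)
    have k2 : (w q).sqrt ≠ 0 := by
      intro h0
      have := sqrt_sq (w q)
      rw [h0] at this
      exact slitPlane_ne_zero h1 (by rw [← this]; simp)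
    have k3 : DifferentiableAt ℂ (fun q : ℂ × ℂ × ℂ => (R : ℂ) / q.1) q := by
      simp only [div_eq_mul_inv]
      have k4 : DifferentiableAt ℂ (fun q : ℂ × ℂ × ℂ => q.1) q := differentiableAt_fst
      exact (differentiableAt_const _).mul (k4.inv h2)
    exact k3.mul (((differentiableAt_const _).mul (k1.inv k2)).cexp)
  have hne : ∀ q ∈ closure T, q.1 ≠ 0 := fun q hq h0 => by
    have := (hcl q hq).2.2; rw [h0, norm_zero] at this; linarith
  have hexp : ∀ q, Real.exp (-(lam * ((w q).sqrt⁻¹).re)) ≤ 1 := fun q =>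
    Real.exp_le_one_iff.2 (by have := mul_nonneg hlam0.le (re_inv_sqrt_nonneg (w q)); linarith)
  have key := PL (T := T) (g := g) (Q := R / ρ) H.toEnt ⟨0, H.d0⟩ H.hF hδ ha (fun q hq => hq.1)
    (fun q hq => (hdiff q (hslit q hq) (hne q hq)).continuousAt.continuousWithinAt) ?_ ?_
  · set η : ℝ := Real.log (R / R0) / lam with hη
    have hR00 : 0 < R0 := by linarith
    have hη0 : 0 < η := div_pos (Real.log_pos (by rw [one_lt_div hR00]; linarith)) hlam0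
    refine ⟨max (A / 2) (A * (1 + 1 / η ^ 2)), fun z s hz hgood => ?_⟩
    rcases le_total ‖z‖ ρ with h1 | h1
    · exact (hin z s h1 hgood).trans (le_max_left _ _)
    refine le_trans ?_ (le_max_right _ _)
    have hq : (z, s, s) ∈ T := ⟨⟨hgood, hgood, by simp only; linarith⟩, h1⟩
    have h2 := key _ hq
    rw [hgn] at h2
    simp only at h2
    have hz0 : 0 < ‖z‖ := by linarith
    have h3 : R / R0 ≤ Real.exp (lam * ((w (z, s, s)).sqrt⁻¹).re) := by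
      rw [Real.exp_neg, ← div_eq_mul_inv, div_le_one (Real.exp_pos _)] at h2
      exact le_trans (by gcongr) h2
    have h4 : η ≤ ((w (z, s, s)).sqrt⁻¹).re := by
      rw [hη, div_le_iff₀ hlam0, mul_comm]
      exact (Real.log_le_iff_le_exp (by positivity)).2 h3
    have h5 : η ≤ ‖(w (z, s, s)).sqrt‖⁻¹ := by
      rw [← norm_inv]; exact h4.trans (re_le_norm _)
    have h6 : ‖w (z, s, s)‖ ≤ 1 / η ^ 2 := by
      rw [← norm_sqrt_sq, one_div, ← inv_pow]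
      refine pow_le_pow_left₀ (norm_nonneg _) ?_ 2
      exact le_inv_of_le_inv₀ hη0 h5
    have h7 : χ (z, s) = A * (1 - w (z, s, s)) := by
      have : (A : ℂ) ≠ 0 := by exact_mod_cast hA.ne'
      simp only [hw]; field_simp; ring
    rw [h7, norm_mul, norm_real, Real.norm_eq_abs, abs_of_pos hA]
    gcongr
    have := norm_sub_le (1 : ℂ) (w (z, s, s))
    rw [norm_one] at this
    linarith
  · intro q hq
    rw [hgn]
    calc _ ≤ R / ‖q.1‖ * 1 := by gcongr; exact hexp q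
      _ ≤ R / ρ := by rw [mul_one]; gcongr; exact hq.2
  · intro q hq g1 g2 hg1
    obtain ⟨-, e1, e2⟩ := hcl q hq
    rw [hgn] at hg1
    have hq0 : 0 < ‖q.1‖ := by linarith
    have f1 : ‖q.1‖ < R := by
      have : R / ‖q.1‖ * Real.exp (-(lam * ((w q).sqrt⁻¹).re)) ≤ R / ‖q.1‖ * 1 := by
        gcongr; exact hexp q
      rw [← one_lt_div hq0]; linarith
    have f2 : ρ < ‖q.1‖ := by
      refine lt_of_le_of_ne e2 fun h0 => ?_
      have h1 := hin _ _ h0.ge g1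
      have h2 : ‖w q - 1‖ ≤ 1 / 2 := by
        simp only [hw, sub_sub_cancel_left, norm_neg, norm_div, norm_real, Real.norm_eq_abs,
          abs_of_pos hA]
        rw [div_le_iff₀ hA]; linarith
      have h3 := re_inv_sqrt_ge h2
      have h4 : Real.exp (-(lam * ((w q).sqrt⁻¹).re)) ≤ Real.exp (-Real.log (R / ρ)) :=
        Real.exp_le_exp.2 (by nlinarith)
      rw [Real.exp_neg (Real.log _), Real.exp_log (by positivity)] at h4
      rw [← h0] at hg1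
      have h5 : R / ρ * Real.exp (-(lam * ((w q).sqrt⁻¹).re)) ≤ R / ρ * (R / ρ)⁻¹ := by gcongr
      rw [mul_inv_cancel₀ (by positivity)] at h5
      linarith
    have o1 : ∀ᶠ p : ℂ × ℂ × ℂ in 𝓝 q, ‖p.1‖ < R :=
      (by fun_prop : Continuous fun p : ℂ × ℂ × ℂ => ‖p.1‖).continuousAt.eventually_lt
        continuousAt_const f1
    have o2 : ∀ᶠ p : ℂ × ℂ × ℂ in 𝓝 q, ρ < ‖p.1‖ :=
      continuousAt_const.eventually_lt
        (by fun_prop : Continuous fun p : ℂ × ℂ × ℂ => ‖p.1‖).continuousAt f2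
    have o3 : ∀ᶠ p : ℂ × ℂ × ℂ in 𝓝 q, w p ∈ slitPlane :=
      (hwd.continuous.tendsto q).eventually (isOpen_slitPlane.mem_nhds (hslit q hq))
    constructor
    · filter_upwards [o1, o2] with p a1 a2 b1 b2 using ⟨⟨b1, b2, a1.le⟩, a2.le⟩
    · filter_upwards [o2, o3] with p a1 a2
      exact hdiff p a2 (fun h0 => by rw [h0, norm_zero] at a1; linarith)

end Pool.Agent.MP_9cb8e5_pr.H67
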